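import Pool.Agent.Helper983.SL.Defs

set_option autoImplicit false

namespace Pool.Agent.Helper983.SL

open Finset

variable (D : Design)



theorem chi_abs {m : ℕ} (v g : Fin m → Bool) : |chi v g| = 1 := by
  unfold chi
  rw [Finset.abs_prod]
  apply Finset.prod_eq_one
  intro i _
  split_ifs <;> simp
theorem chi_comm {m : ℕ} (v g : Fin m → Bool) : chi v g = chi g v := by
  unfold chi
  apply Finset.prod_congr rfl
  intro i _
  rw [Bool.and_comm]
theorem chi_mul {m : ℕ} (v g h : Fin m → Bool) :
    chi v g * chi v h = chi v (fun i => xor (g i) (h i)) := by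
  unfold chi
  rw [← Finset.prod_mul_distrib]
  apply Finset.prod_congr rfl
  intro i _
  rcases v i with _ | _ <;> rcases hg : g i with _ | _ <;> rcases hh : h i with _ | _ <;>
    simp [hg, hh]
theorem chi_sum {m : ℕ} (v : Fin m → Bool) (hv : v ≠ fun _ => false) :
    ∑ g : Fin m → Bool, chi v g = 0 := by
  unfold chi
  have h := Fintype.prod_sum (fun (i : Fin m) (c : Bool) => if (v i && c) = true then (-1 : ℝ) else 1)
  rw [← h]
  have : ∃ i, v i ≠ false := by
    by_contra hcon
    push Not at hcon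
    exact hv (funext hcon)
  obtain ⟨i, hi⟩ := this
  apply Finset.prod_eq_zero (Finset.mem_univ i)
  have hi' : v i = true := by simpa using hi
  simp [hi']
theorem chi_zero {m : ℕ} (g : Fin m → Bool) : chi (fun _ => false) g = 1 := by
  unfold chi
  simp
theorem chi_exp {m : ℕ} (g : Fin m → Bool) (hg : g ≠ fun _ => false) (lam : ℝ) :
    ∑ v : Fin m → Bool, Real.exp (lam * chi v g) ≤ (2 ^ m : ℝ) * Real.exp (lam ^ 2 / 2) := by
  have h1 : ∀ v : Fin m → Bool, Real.exp (lam * chi v g) =
      Real.cosh lam + chi v g * Real.sinh lam := by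
    intro v
    have h2 := chi_abs v g
    rcases (abs_eq zero_le_one).1 h2 with h | h
    · rw [h, mul_one, one_mul, Real.cosh_add_sinh]
    · rw [h]
      have := Real.cosh_sub_sinh lam
      rw [mul_neg, mul_one, ← this]
      ring
  have h3 : ∑ v : Fin m → Bool, chi v g = 0 := by
    rw [Finset.sum_congr rfl fun v _ => chi_comm v g]
    exact chi_sum g hg
  rw [Finset.sum_congr rfl fun v _ => h1 v, Finset.sum_add_distrib, ← Finset.sum_mul, h3, zero_mul,
    add_zero, Finset.sum_const, nsmul_eq_mul]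
  have h4 : ((Finset.univ : Finset (Fin m → Bool)).card : ℝ) = 2 ^ m := by
    simp
  rw [h4]
  gcongr
  exact Real.cosh_le_exp_half_sq lam
theorem sum_bits_inj (m g h : ℕ) (hg : g < 2 ^ m) (hh : h < 2 ^ m) (H : bits m g = bits m h) :
    g = h := by
  apply Nat.eq_of_testBit_eq
  intro i
  by_cases hi : i < m
  · exact congrFun H ⟨i, hi⟩
  · have h1 : 2 ^ m ≤ 2 ^ i := Nat.pow_le_pow_right (by norm_num) (by omega)
    rw [Nat.testBit_lt_two_pow (by omega), Nat.testBit_lt_two_pow (by omega)]
theorem sum_bits (m : ℕ) (f : (Fin m → Bool) → ℝ) :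
    ∑ g ∈ range (2 ^ m), f (bits m g) = ∑ v, f v := by
  have h1 : Set.InjOn (bits m) (range (2 ^ m) : Set ℕ) := by
    intro g hg h hh H
    rw [Finset.mem_coe, Finset.mem_range] at hg hh
    exact sum_bits_inj m g h hg hh H
  have h2 : (range (2 ^ m)).image (bits m) = Finset.univ := by
    apply Finset.eq_univ_of_card
    rw [Finset.card_image_of_injOn h1]
    simp
  rw [← h2, Finset.sum_image h1]
theorem bits_inj (m g h : ℕ) (hg : g < 2 ^ m) (hh : h < 2 ^ m) (H : bits m g = bits m h) :
    g = h := by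
  exact sum_bits_inj m g h hg hh H

end Pool.Agent.Helper983.SL
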