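import Pool.Agent.Helper983.SL.Defs

set_option autoImplicit false

namespace Pool.Agent.Helper983.SL

open Finset

variable (D : Design)



theorem num1_aux (a E1 E2 : ℝ) (ha : 1 ≤ a) (hE1 : E1 ≤ (a ^ 24 * 2 ^ 130)⁻¹)
    (hE2 : E2 ≤ (a ^ 24 * 2 ^ 130)⁻¹) :
    (a ^ 4 * 2 ^ 20 + 2 * (a ^ 4 * 2 ^ 20) * (a ^ 4 * 2 ^ 24)) ^ 2 / (a ^ 20 * 2 ^ 100) +
      a ^ 20 * 2 ^ 100 * (2 * E1) +
      2 * (a ^ 4 * 2 ^ 20) * (a ^ 20 * 2 ^ 100 * (2 * E2)) < 1 := by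
  have ha0 : (0 : ℝ) < a := by linarith
  have h48 : a ^ 4 ≤ a ^ 8 := pow_le_pow_right₀ ha (by norm_num)
  have h1620 : a ^ 16 ≤ a ^ 20 := pow_le_pow_right₀ ha (by norm_num)
  have h2024 : a ^ 20 ≤ a ^ 24 := pow_le_pow_right₀ ha (by norm_num)
  have t1 : (a ^ 4 * 2 ^ 20 + 2 * (a ^ 4 * 2 ^ 20) * (a ^ 4 * 2 ^ 24)) ^ 2 / (a ^ 20 * 2 ^ 100) ≤
      1 / 256 := by
    rw [div_le_iff₀ (by positivity)]
    have h1 : a ^ 4 * 2 ^ 20 + 2 * (a ^ 4 * 2 ^ 20) * (a ^ 4 * 2 ^ 24) ≤ a ^ 8 * 2 ^ 46 := by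
      have h2 : 2 * (a ^ 4 * 2 ^ 20) * (a ^ 4 * 2 ^ 24) = a ^ 8 * 2 ^ 45 := by ring
      rw [h2]
      nlinarith
    calc (a ^ 4 * 2 ^ 20 + 2 * (a ^ 4 * 2 ^ 20) * (a ^ 4 * 2 ^ 24)) ^ 2
        ≤ (a ^ 8 * 2 ^ 46) ^ 2 := pow_le_pow_left₀ (by positivity) h1 2
      _ = a ^ 16 * 2 ^ 92 := by ring
      _ ≤ a ^ 20 * 2 ^ 92 := by gcongr
      _ = 1 / 256 * (a ^ 20 * 2 ^ 100) := by ring
  have t2 : a ^ 20 * 2 ^ 100 * (2 * E1) ≤ 1 / 256 := by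
    calc a ^ 20 * 2 ^ 100 * (2 * E1) ≤ a ^ 20 * 2 ^ 100 * (2 * (a ^ 24 * 2 ^ 130)⁻¹) := by gcongr
      _ ≤ a ^ 24 * 2 ^ 100 * (2 * (a ^ 24 * 2 ^ 130)⁻¹) := by gcongr
      _ ≤ 1 / 256 := by
        rw [mul_inv]
        have : a ^ 24 ≠ 0 := by positivity
        field_simp
        norm_num
  have t3 : 2 * (a ^ 4 * 2 ^ 20) * (a ^ 20 * 2 ^ 100 * (2 * E2)) ≤ 1 / 256 := by
    calc 2 * (a ^ 4 * 2 ^ 20) * (a ^ 20 * 2 ^ 100 * (2 * E2))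
        ≤ 2 * (a ^ 4 * 2 ^ 20) * (a ^ 20 * 2 ^ 100 * (2 * (a ^ 24 * 2 ^ 130)⁻¹)) := by gcongr
      _ = 1 / 256 := by
        rw [mul_inv]
        have : a ^ 24 ≠ 0 := by positivity
        field_simp
        norm_num
  linarith

theorem num1_exp (k : ℕ) (y : ℝ) (hy : ((24 * k + 130 : ℕ) : ℝ) ≤ y) :
    Real.exp (-y) ≤ (((2 : ℝ) ^ k) ^ 24 * 2 ^ 130)⁻¹ := by
  rw [Real.exp_neg]
  apply inv_anti₀ (by positivity)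
  calc ((2 : ℝ) ^ k) ^ 24 * 2 ^ 130 = (2 : ℝ) ^ (24 * k + 130) := by
        rw [pow_add, mul_comm 24 k, pow_mul]
    _ ≤ (Real.exp 1) ^ (24 * k + 130) := by
        apply pow_le_pow_left₀ (by norm_num)
        have := Real.add_one_le_exp (1 : ℝ)
        linarith
    _ = Real.exp ((24 * k + 130 : ℕ) : ℝ) := by
        rw [← Real.exp_nat_mul, mul_one]
    _ ≤ Real.exp y := Real.exp_le_exp.2 hy

theorem num1 (k : ℕ) :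
    (((2 ^ (4 * k + 20) : ℕ) : ℝ) + 2 * ((2 ^ (4 * k + 20) : ℕ) : ℝ) * ((2 ^ (4 * k + 24) : ℕ) : ℝ)) ^ 2 /
        2 ^ (20 * k + 100) +
      2 ^ (20 * k + 100) * (2 * Real.exp (-(((1 / 2 : ℝ) ^ k * ((2 ^ (4 * k + 20) : ℕ) : ℝ)) ^ 2) /
        (2 * ((2 ^ (4 * k + 20) : ℕ) : ℝ)))) +
      2 * ((2 ^ (4 * k + 20) : ℕ) : ℝ) * (2 ^ (20 * k + 100) *
        (2 * Real.exp (-(((1 / 2 : ℝ) ^ k * ((2 ^ (4 * k + 24) : ℕ) : ℝ)) ^ 2) /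
        (2 * ((2 ^ (4 * k + 24) : ℕ) : ℝ))))) < 1 := by
  have ha1 : (1 : ℝ) ≤ 2 ^ k := one_le_pow₀ (by norm_num)
  have hka : (k : ℝ) ≤ 2 ^ k := by exact_mod_cast (Nat.lt_two_pow_self (n := k)).le
  have e1 : ((2 ^ (4 * k + 20) : ℕ) : ℝ) = ((2 : ℝ) ^ k) ^ 4 * 2 ^ 20 := by
    push_cast
    rw [pow_add, mul_comm 4 k, pow_mul]
  have e2 : ((2 ^ (4 * k + 24) : ℕ) : ℝ) = ((2 : ℝ) ^ k) ^ 4 * 2 ^ 24 := by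
    push_cast
    rw [pow_add, mul_comm 4 k, pow_mul]
  have e3 : (2 : ℝ) ^ (20 * k + 100) = ((2 : ℝ) ^ k) ^ 20 * 2 ^ 100 := by
    rw [pow_add, mul_comm 20 k, pow_mul]
  have e4 : (1 / 2 : ℝ) ^ k = ((2 : ℝ) ^ k)⁻¹ := by
    rw [one_div, inv_pow]
  rw [e1, e2, e3, e4]
  have hexp := num1_exp k
  generalize (2 : ℝ) ^ k = a at ha1 hka hexp ⊢
  have ha0 : (0 : ℝ) < a := by linarith
  have hc : ((24 * k + 130 : ℕ) : ℝ) ≤ a ^ 2 * 2 ^ 19 := by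
    push_cast
    nlinarith
  have y1 : -((a⁻¹ * (a ^ 4 * 2 ^ 20)) ^ 2) / (2 * (a ^ 4 * 2 ^ 20)) = -(a ^ 2 * 2 ^ 19) := by
    field_simp
  have y2 : -((a⁻¹ * (a ^ 4 * 2 ^ 24)) ^ 2) / (2 * (a ^ 4 * 2 ^ 24)) = -(a ^ 2 * 2 ^ 23) := by
    field_simp
  rw [y1, y2]
  apply num1_aux a _ _ ha1
  · exact hexp _ hc
  · apply hexp
    refine hc.trans ?_
    gcongr
    · norm_num
    · norm_num

end Pool.Agent.Helper983.SL
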