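import Pool.Agent.Helper983.SL.Defs

set_option autoImplicit false

namespace Pool.Agent.Helper983.SL

theorem num2_exp (n : ℕ) (y : ℝ) (hy : ((n : ℕ) : ℝ) ≤ y) :
    Real.exp (-y) ≤ ((2 : ℝ) ^ n)⁻¹ := by
  rw [Real.exp_neg]
  apply inv_anti₀ (by positivity)
  calc (2 : ℝ) ^ n
    _ ≤ (Real.exp 1) ^ n := by
        apply pow_le_pow_left₀ (by norm_num)
        have := Real.add_one_le_exp (1 : ℝ)
        linarith
    _ = Real.exp ((n : ℕ) : ℝ) := by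
        rw [← Real.exp_nat_mul, mul_one]
    _ ≤ Real.exp y := Real.exp_le_exp.2 hy

theorem num2 (k : ℕ) :
    ((2 ^ (20 * k + 100) * 2 ^ (20 * (k + 1) + 100) * (2 ^ (4 * k + 20) * 2) : ℕ) : ℝ) *
      (2 * Real.exp (-(((1 / 2 : ℝ) ^ k * ((2 ^ (4 * k + 24) : ℕ) : ℝ)) ^ 2) /
        (2 * ((2 ^ (4 * k + 24) : ℕ) : ℝ)))) < 1 := by
  have e0 : ((2 ^ (20 * k + 100) * 2 ^ (20 * (k + 1) + 100) * (2 ^ (4 * k + 20) * 2) : ℕ) : ℝ)
      = (2 : ℝ) ^ (44 * k + 241) := by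
    push_cast
    rw [← pow_succ, ← pow_add, ← pow_add]
    congr 1
    omega
  have e1 : -(((1 / 2 : ℝ) ^ k * ((2 ^ (4 * k + 24) : ℕ) : ℝ)) ^ 2) /
        (2 * ((2 ^ (4 * k + 24) : ℕ) : ℝ)) = -((2 : ℝ) ^ (2 * k + 23)) := by
    push_cast
    have h2 : (2 : ℝ) ^ (4 * k + 24) = 2 * (2 : ℝ) ^ (2 * k + 23) * ((2 : ℝ) ^ k) ^ 2 := by
      rw [← pow_mul, ← pow_succ', ← pow_add]
      congr 1
      omega
    rw [h2, one_div, inv_pow]
    have : ((2 : ℝ) ^ k) ≠ 0 := by positivity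
    have : ((2 : ℝ) ^ (2 * k + 23)) ≠ 0 := by positivity
    field_simp
  have hn : ((44 * k + 250 : ℕ) : ℝ) ≤ (2 : ℝ) ^ (2 * k + 23) := by
    have h : 44 * k + 250 ≤ 2 ^ (2 * k + 23) := by
      clear e0 e1
      induction k with
      | zero => norm_num
      | succ k ih =>
        have : 2 ^ (2 * (k + 1) + 23) = 4 * 2 ^ (2 * k + 23) := by
          rw [show 2 * (k + 1) + 23 = (2 * k + 23) + 2 by ring, pow_add]; ring
        omega
    exact_mod_cast h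
  rw [e0, e1]
  have h3 := num2_exp (44 * k + 250) _ hn
  have h4 : (2 : ℝ) ^ (44 * k + 250) = (2 : ℝ) ^ (44 * k + 241) * 512 := by
    rw [show 44 * k + 250 = (44 * k + 241) + 9 by ring, pow_add]; norm_num
  have h5 : (0 : ℝ) < (2 : ℝ) ^ (44 * k + 241) := by positivity
  calc (2 : ℝ) ^ (44 * k + 241) * (2 * Real.exp (-((2 : ℝ) ^ (2 * k + 23))))
      ≤ (2 : ℝ) ^ (44 * k + 241) * (2 * ((2 : ℝ) ^ (44 * k + 250))⁻¹) := by gcongr
    _ < 1 := by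
      rw [h4]
      field_simp
      norm_num

end Pool.Agent.Helper983.SL
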