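import Pool.Agent.Helper983.SL.Defs

set_option autoImplicit false

namespace Pool.Agent.Helper983.SL

open Finset

variable (D : Design)



open Classical in
theorem chernoff_one_11418 {ι T : Type*} [Fintype ι] [Fintype T] [Nonempty T]
    (S : Finset ι) (hS : S.Nonempty) (X : ι → T → ℝ)
    (hX : ∀ i ∈ S, ∀ lam : ℝ, ∑ t, Real.exp (lam * X i t) ≤
      (Fintype.card T : ℝ) * Real.exp (lam ^ 2 / 2)) (a : ℝ) (ha : 0 < a) :
    (((Finset.univ : Finset (ι → T)).filter (fun w => a < ∑ i ∈ S, X i (w i))).card : ℝ) ≤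
      Real.exp (-(a ^ 2) / (2 * S.card)) * (Fintype.card T : ℝ) ^ (Fintype.card ι) := by
  have hSc : (0 : ℝ) < S.card := by exact_mod_cast hS.card_pos
  have hT : (0 : ℝ) < Fintype.card T := by exact_mod_cast Fintype.card_pos
  set lam : ℝ := a / S.card with hlam
  have hlam0 : 0 < lam := by positivity
  have hsum : ∑ w : ι → T, Real.exp (lam * ∑ i ∈ S, X i (w i)) ≤
      (Fintype.card T : ℝ) ^ (Fintype.card ι) * Real.exp (S.card * (lam ^ 2 / 2)) := by
    have e1 : ∀ w : ι → T, Real.exp (lam * ∑ i ∈ S, X i (w i)) =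
        ∏ i, (if i ∈ S then Real.exp (lam * X i (w i)) else 1) := by
      intro w
      rw [Finset.mul_sum, Real.exp_sum, Finset.prod_ite_mem, Finset.univ_inter]
    have e2 : ∑ w : ι → T, Real.exp (lam * ∑ i ∈ S, X i (w i)) =
        ∏ i, ∑ t, (if i ∈ S then Real.exp (lam * X i t) else 1) := by
      rw [Finset.prod_univ_sum, Fintype.piFinset_univ]
      exact Finset.sum_congr rfl fun w _ => e1 w
    rw [e2]
    have e3 : ∀ i ∈ (Finset.univ : Finset ι), ∑ t, (if i ∈ S then Real.exp (lam * X i t) else 1) ≤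
        (Fintype.card T : ℝ) * (if i ∈ S then Real.exp (lam ^ 2 / 2) else 1) := by
      intro i _
      by_cases hi : i ∈ S
      · simp only [hi, if_true]
        exact hX i hi lam
      · simp [hi]
    refine (Finset.prod_le_prod (fun i _ => Finset.sum_nonneg fun t _ => ?_) e3).trans ?_
    · split_ifs
      · exact (Real.exp_pos _).le
      · exact zero_le_one
    · rw [Finset.prod_mul_distrib, Finset.prod_const, Finset.card_univ, Finset.prod_ite_mem,
        Finset.univ_inter, Finset.prod_const, ← Real.exp_nat_mul]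
  have hcount : (((Finset.univ : Finset (ι → T)).filter
      (fun w => a < ∑ i ∈ S, X i (w i))).card : ℝ) * Real.exp (lam * a) ≤
      ∑ w : ι → T, Real.exp (lam * ∑ i ∈ S, X i (w i)) := by
    rw [← nsmul_eq_mul, ← Finset.sum_const]
    refine (Finset.sum_le_sum (fun w hw => ?_)).trans
      (Finset.sum_le_sum_of_subset_of_nonneg (Finset.filter_subset _ _)
        (fun w _ _ => (Real.exp_pos _).le))
    have h1 := (Finset.mem_filter.1 hw).2
    exact Real.exp_le_exp.2 (mul_le_mul_of_nonneg_left h1.le hlam0.le)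
  have h3 := hcount.trans hsum
  have h4 : (((Finset.univ : Finset (ι → T)).filter
      (fun w => a < ∑ i ∈ S, X i (w i))).card : ℝ) ≤
      ((Fintype.card T : ℝ) ^ (Fintype.card ι) * Real.exp (S.card * (lam ^ 2 / 2))) *
        Real.exp (-(lam * a)) := by
    have h5 : Real.exp (lam * a) * Real.exp (-(lam * a)) = 1 := by
      rw [← Real.exp_add]; simp
    calc (((Finset.univ : Finset (ι → T)).filter
          (fun w => a < ∑ i ∈ S, X i (w i))).card : ℝ) =
        (((Finset.univ : Finset (ι → T)).filter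
          (fun w => a < ∑ i ∈ S, X i (w i))).card : ℝ) * Real.exp (lam * a) *
            Real.exp (-(lam * a)) := by rw [mul_assoc, h5, mul_one]
      _ ≤ _ := mul_le_mul_of_nonneg_right h3 (Real.exp_pos _).le
  refine h4.trans (le_of_eq ?_)
  rw [mul_assoc, ← Real.exp_add, mul_comm]
  congr 2
  rw [hlam]
  field_simp
  ring

theorem chernoff {ι T : Type*} [Fintype ι] [Fintype T] [Nonempty T]
    (S : Finset ι) (hS : S.Nonempty) (X : ι → T → ℝ)
    (hX : ∀ i ∈ S, ∀ lam : ℝ, ∑ t, Real.exp (lam * X i t) ≤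
      (Fintype.card T : ℝ) * Real.exp (lam ^ 2 / 2)) (a : ℝ) (ha : 0 < a) :
    (Nat.card {w : ι → T // a < |∑ i ∈ S, X i (w i)|} : ℝ) ≤
      2 * Real.exp (-(a ^ 2) / (2 * S.card)) * (Fintype.card T : ℝ) ^ (Fintype.card ι) := by
  classical
  have h1 := chernoff_one_11418 S hS X hX a ha
  have h2 := chernoff_one_11418 S hS (fun i t => -X i t) (by
    intro i hi lam
    have := hX i hi (-lam)
    simpa using this) a ha
  have h3 : Nat.card {w : ι → T // a < |∑ i ∈ S, X i (w i)|} ≤
      ((Finset.univ : Finset (ι → T)).filter (fun w => a < ∑ i ∈ S, X i (w i))).card +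
      ((Finset.univ : Finset (ι → T)).filter (fun w => a < ∑ i ∈ S, -X i (w i))).card := by
    rw [Nat.card_eq_fintype_card, Fintype.card_subtype]
    refine le_trans (Finset.card_le_card ?_) (Finset.card_union_le _ _)
    intro w hw
    have h4 := (Finset.mem_filter.1 hw).2
    rw [Finset.mem_union, Finset.mem_filter, Finset.mem_filter]
    rcases lt_abs.1 h4 with h | h
    · exact Or.inl ⟨Finset.mem_univ _, h⟩
    · right
      refine ⟨Finset.mem_univ _, ?_⟩
      rw [Finset.sum_neg_distrib]
      exact h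
  have h4 : (Nat.card {w : ι → T // a < |∑ i ∈ S, X i (w i)|} : ℝ) ≤
      ((((Finset.univ : Finset (ι → T)).filter (fun w => a < ∑ i ∈ S, X i (w i))).card +
      ((Finset.univ : Finset (ι → T)).filter (fun w => a < ∑ i ∈ S, -X i (w i))).card : ℕ) : ℝ) := by
    exact_mod_cast h3
  refine h4.trans ?_
  push_cast
  linarith

end Pool.Agent.Helper983.SL
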