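import Pool.Agent.Helper983.SL.Defs
import Pool.Agent.Helper983.SL.P_chernoff

set_option autoImplicit false

namespace Pool.Agent.Helper983.SL

open Finset

variable (D : Design)



theorem rand_sign_key {R : Type*} (n : ℕ) (hn : 0 < n) (f : R → Fin n → ℝ)
    (hf : ∀ r i, |f r i| ≤ 1) (a : ℝ) (ha : 0 < a) (r : R) :
    (Nat.card {w : Fin n → Bool // a < |∑ i, sg (w i) * f r i|} : ℝ) ≤
      2 * Real.exp (-(a ^ 2) / (2 * n)) * (2 : ℝ) ^ n := by
  have hne : (Finset.univ : Finset (Fin n)).Nonempty := ⟨⟨0, hn⟩, Finset.mem_univ _⟩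
  have h := chernoff (ι := Fin n) (T := Bool) Finset.univ hne (fun i c => sg c * f r i) (by
    intro i _ lam
    have h1 := Real.cosh_le_exp_half_sq (lam * f r i)
    rw [Real.cosh_eq] at h1
    have h2 : Real.exp ((lam * f r i) ^ 2 / 2) ≤ Real.exp (lam ^ 2 / 2) := by
      apply Real.exp_le_exp.2
      have h3 : (f r i) ^ 2 ≤ 1 := by
        rw [← sq_abs]
        nlinarith [hf r i, abs_nonneg (f r i)]
      have h4 : (lam * f r i) ^ 2 = lam ^ 2 * (f r i) ^ 2 := by ring
      rw [h4]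
      nlinarith [sq_nonneg lam]
    have e1 : ∑ t : Bool, Real.exp (lam * (sg t * f r i)) =
        Real.exp (lam * f r i) + Real.exp (-(lam * f r i)) := by
      rw [Fintype.sum_bool]
      simp [sg]
    have e2 : ((Fintype.card Bool : ℕ) : ℝ) = 2 := by simp
    rw [e1, e2]
    linarith) a ha
  simpa using h


theorem rand_sign {R : Type*} [Fintype R] (n : ℕ) (hn : 0 < n) (f : R → Fin n → ℝ)
    (hf : ∀ r i, |f r i| ≤ 1) (a : ℝ) (ha : 0 < a)
    (H : (Fintype.card R : ℝ) * (2 * Real.exp (-(a ^ 2) / (2 * n))) < 1) :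
    ∃ ep : Fin n → Bool, ∀ r, |∑ i, sg (ep i) * f r i| ≤ a := by
  classical
  by_contra hcon
  push Not at hcon
  set bad : R → Finset (Fin n → Bool) := fun r =>
    Finset.univ.filter (fun w => a < |∑ i, sg (w i) * f r i|) with hbad
  have hcard : ∀ r, ((bad r).card : ℝ) ≤ 2 * Real.exp (-(a ^ 2) / (2 * n)) * (2 : ℝ) ^ n := by
    intro r
    have h1 := rand_sign_key n hn f hf a ha r
    rw [Nat.card_eq_fintype_card, Fintype.card_subtype] at h1
    exact h1
  have hun : (Finset.univ : Finset (Fin n → Bool)) ⊆ Finset.univ.biUnion bad := by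
    intro w _
    obtain ⟨r, hr⟩ := hcon w
    rw [Finset.mem_biUnion]
    exact ⟨r, Finset.mem_univ _, by simp only [hbad, Finset.mem_filter]; exact ⟨Finset.mem_univ _, hr⟩⟩
  have h1 := (Finset.card_le_card hun).trans Finset.card_biUnion_le
  have h2 : ((Finset.univ : Finset (Fin n → Bool)).card : ℝ) = (2 : ℝ) ^ n := by simp
  have h3 : ((Finset.univ : Finset (Fin n → Bool)).card : ℝ) ≤ ∑ r : R, ((bad r).card : ℝ) := by
    exact_mod_cast h1
  have h4 : ∑ r : R, ((bad r).card : ℝ) ≤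
      ∑ _r : R, 2 * Real.exp (-(a ^ 2) / (2 * n)) * (2 : ℝ) ^ n :=
    Finset.sum_le_sum fun r _ => hcard r
  rw [Finset.sum_const, nsmul_eq_mul, Finset.card_univ] at h4
  rw [h2] at h3
  have h5 : (0 : ℝ) < (2 : ℝ) ^ n := by positivity
  nlinarith

end Pool.Agent.Helper983.SL
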