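import Pool.Agent.Helper983.SL.Defs
import Pool.Agent.Helper983.SL.P_chi_facts
import Pool.Agent.Helper983.SL.P_chernoff

set_option autoImplicit false

namespace Pool.Agent.Helper983.SL

open Finset

variable (D : Design)



theorem bad1_11419 {ι T : Type*} [Fintype ι] [Fintype T] [DecidableEq ι] [DecidableEq T]
    [Nonempty T] (p q : ι) (hpq : p ≠ q) :
    (((univ : Finset (ι → T)).filter (fun F => F p = F q)).card : ℝ) ≤
      (Fintype.card T : ℝ) ^ (Fintype.card ι) / (Fintype.card T : ℝ) := by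
  have h1 : ((univ : Finset (ι → T)).filter (fun F => F p = F q)).card ≤
      Fintype.card ({i : ι // i ≠ q} → T) := by
    rw [← Finset.card_univ]
    refine Finset.card_le_card_of_injOn (fun F i => F i.1) (fun _ _ => Finset.mem_coe.2 (Finset.mem_univ _)) ?_
    intro F hF F' hF' he
    have hFp := (Finset.mem_filter.1 (Finset.mem_coe.1 hF)).2
    have hFp' := (Finset.mem_filter.1 (Finset.mem_coe.1 hF')).2
    funext i
    by_cases hi : i = q
    · rw [hi, ← hFp, ← hFp']
      exact congrFun he ⟨p, hpq⟩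
    · exact congrFun he ⟨i, hi⟩
  have h2 : Fintype.card ({i : ι // i ≠ q} → T) = (Fintype.card T) ^ (Fintype.card ι - 1) := by
    rw [Fintype.card_fun]
    congr 1
    rw [Fintype.card_subtype_compl, Fintype.card_subtype_eq]
  have hT : (0 : ℝ) < Fintype.card T := by exact_mod_cast Fintype.card_pos
  have hι : 0 < Fintype.card ι := Fintype.card_pos_iff.2 ⟨p⟩
  rw [le_div_iff₀ hT]
  have h3 : (Fintype.card T : ℝ) ^ (Fintype.card ι) =
      (Fintype.card T : ℝ) ^ (Fintype.card ι - 1) * Fintype.card T := by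
    rw [← pow_succ]
    congr 1
    omega
  rw [h3]
  refine mul_le_mul_of_nonneg_right ?_ hT.le
  rw [h2] at h1
  exact_mod_cast h1

theorem rand_vec (m N N' : ℕ) (hN : 0 < N) (hN' : 0 < N') (a a' : ℝ) (ha : 0 < a) (ha' : 0 < a')
    (H : ((N : ℝ) + 2 * N * N') ^ 2 / 2 ^ m + 2 ^ m * (2 * Real.exp (-(a ^ 2) / (2 * N))) +
      2 * N * (2 ^ m * (2 * Real.exp (-(a' ^ 2) / (2 * N')))) < 1) :
    ∃ (s : Fin N → (Fin m → Bool)) (t : Fin N × Bool → Fin N' → (Fin m → Bool)),
      Function.Injective s ∧ (∀ l l' i i', t l i = t l' i' → l = l' ∧ i = i') ∧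
      (∀ j l i, s j ≠ t l i) ∧
      (∀ g : Fin m → Bool, (g ≠ fun _ => false) → |∑ j, chi (s j) g| ≤ a) ∧
      (∀ g : Fin m → Bool, (g ≠ fun _ => false) → ∀ l, |∑ i, chi (t l i) g| ≤ a') := by
  classical
  obtain ⟨K, hK⟩ : ∃ K : ℝ, K = (Fintype.card (Fin m → Bool) : ℝ) ^
    (Fintype.card (Fin N ⊕ ((Fin N × Bool) × Fin N'))) := ⟨_, rfl⟩
  have hcT : (Fintype.card (Fin m → Bool) : ℝ) = 2 ^ m := by simp
  have hcι : (Fintype.card (Fin N ⊕ ((Fin N × Bool) × Fin N')) : ℝ) = N + 2 * N * N' := by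
    rw [Fintype.card_sum, Fintype.card_prod, Fintype.card_prod, Fintype.card_fin,
      Fintype.card_fin, Fintype.card_bool]
    push_cast
    ring
  have hK0 : 0 < K := by rw [hK, hcT]; positivity
  by_contra hcon
  obtain ⟨B1, hB1⟩ : ∃ B1 : Finset (Fin N ⊕ ((Fin N × Bool) × Fin N') → (Fin m → Bool)),
    B1 = ((univ : Finset ((Fin N ⊕ ((Fin N × Bool) × Fin N')) ×
      (Fin N ⊕ ((Fin N × Bool) × Fin N')))).filter (fun p => p.1 ≠ p.2)).biUnion
      (fun p => univ.filter (fun F => F p.1 = F p.2)) := ⟨_, rfl⟩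
  obtain ⟨G0, hG0⟩ : ∃ G0 : Finset (Fin m → Bool), G0 = univ.filter (fun g => g ≠ fun _ => false) :=
    ⟨_, rfl⟩
  obtain ⟨B2, hB2⟩ : ∃ B2 : Finset (Fin N ⊕ ((Fin N × Bool) × Fin N') → (Fin m → Bool)),
    B2 = G0.biUnion (fun g => univ.filter (fun F => a < |∑ j, chi (F (Sum.inl j)) g|)) := ⟨_, rfl⟩
  obtain ⟨B3, hB3⟩ : ∃ B3 : Finset (Fin N ⊕ ((Fin N × Bool) × Fin N') → (Fin m → Bool)),
    B3 = (G0 ×ˢ (univ : Finset (Fin N × Bool))).biUnion
      (fun p => univ.filter (fun F => a' < |∑ i, chi (F (Sum.inr (p.2, i))) p.1|)) := ⟨_, rfl⟩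
  have hall : ∀ F : Fin N ⊕ ((Fin N × Bool) × Fin N') → (Fin m → Bool), F ∈ B1 ∪ B2 ∪ B3 := by
    intro F
    by_contra hF
    simp only [Finset.mem_union, not_or] at hF
    obtain ⟨⟨h1, h2⟩, h3⟩ := hF
    apply hcon
    have hinj : Function.Injective F := by
      intro p q hpq
      by_contra hne
      apply h1
      rw [hB1]
      exact Finset.mem_biUnion.2 ⟨(p, q), Finset.mem_filter.2 ⟨Finset.mem_univ _, hne⟩,
        Finset.mem_filter.2 ⟨Finset.mem_univ _, hpq⟩⟩
    refine ⟨fun j => F (Sum.inl j), fun l i => F (Sum.inr (l, i)), ?_, ?_, ?_, ?_, ?_⟩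
    · intro j j' hj
      exact Sum.inl_injective (hinj hj)
    · intro l l' i i' h
      have := Sum.inr_injective (hinj h)
      exact Prod.mk.inj this
    · intro j l i h
      exact absurd (hinj h) (by simp)
    · intro g hg
      by_contra hlt
      push Not at hlt
      apply h2
      rw [hB2]
      exact Finset.mem_biUnion.2 ⟨g, by rw [hG0]; exact Finset.mem_filter.2 ⟨Finset.mem_univ _, hg⟩,
        Finset.mem_filter.2 ⟨Finset.mem_univ _, hlt⟩⟩
    · intro g hg l
      by_contra hlt
      push Not at hlt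
      apply h3
      rw [hB3]
      exact Finset.mem_biUnion.2 ⟨(g, l), Finset.mem_product.2
        ⟨by rw [hG0]; exact Finset.mem_filter.2 ⟨Finset.mem_univ _, hg⟩, Finset.mem_univ _⟩,
        Finset.mem_filter.2 ⟨Finset.mem_univ _, hlt⟩⟩
  have hcard : K ≤ (B1.card : ℝ) + B2.card + B3.card := by
    have h1 : B1 ∪ B2 ∪ B3 = univ := Finset.eq_univ_iff_forall.2 hall
    have h2 : Fintype.card (Fin N ⊕ ((Fin N × Bool) × Fin N') → (Fin m → Bool)) ≤
        B1.card + B2.card + B3.card := by
      rw [← Finset.card_univ, ← h1]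
      refine (Finset.card_union_le _ _).trans ?_
      have := Finset.card_union_le B1 B2
      omega
    rw [Fintype.card_fun] at h2
    rw [hK]
    exact_mod_cast h2
  have hb1 : (B1.card : ℝ) ≤ ((N : ℝ) + 2 * N * N') ^ 2 * (K / 2 ^ m) := by
    calc (B1.card : ℝ) ≤ ∑ p ∈ ((univ : Finset ((Fin N ⊕ ((Fin N × Bool) × Fin N')) ×
        (Fin N ⊕ ((Fin N × Bool) × Fin N')))).filter (fun p => p.1 ≠ p.2)),
        (((univ : Finset (Fin N ⊕ ((Fin N × Bool) × Fin N') → (Fin m → Bool))).filter
          (fun F => F p.1 = F p.2)).card : ℝ) := by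
          rw [hB1]
          exact_mod_cast Finset.card_biUnion_le
      _ ≤ ∑ p ∈ ((univ : Finset ((Fin N ⊕ ((Fin N × Bool) × Fin N')) ×
        (Fin N ⊕ ((Fin N × Bool) × Fin N')))).filter (fun p => p.1 ≠ p.2)), (K / 2 ^ m) := by
          refine Finset.sum_le_sum fun p hp => ?_
          have := bad1_11419 (T := Fin m → Bool) p.1 p.2 (Finset.mem_filter.1 hp).2
          rw [← hK, hcT] at this
          exact this
      _ = (((univ : Finset ((Fin N ⊕ ((Fin N × Bool) × Fin N')) ×
        (Fin N ⊕ ((Fin N × Bool) × Fin N')))).filter (fun p => p.1 ≠ p.2)).card : ℝ) *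
          (K / 2 ^ m) := by
          rw [Finset.sum_const, nsmul_eq_mul]
      _ ≤ ((N : ℝ) + 2 * N * N') ^ 2 * (K / 2 ^ m) := by
          refine mul_le_mul_of_nonneg_right ?_ (by positivity)
          rw [← hcι]
          have h1 := Finset.card_filter_le (univ : Finset ((Fin N ⊕ ((Fin N × Bool) × Fin N')) ×
            (Fin N ⊕ ((Fin N × Bool) × Fin N')))) (fun p => p.1 ≠ p.2)
          rw [Finset.card_univ, Fintype.card_prod] at h1
          rw [sq]
          exact_mod_cast h1
  have hG0c : (G0.card : ℝ) ≤ 2 ^ m := by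
    rw [← hcT, hG0]
    exact_mod_cast (Finset.card_filter_le _ _).trans (le_of_eq Finset.card_univ)
  have hb2 : (B2.card : ℝ) ≤ 2 ^ m * (2 * Real.exp (-(a ^ 2) / (2 * N)) * K) := by
    calc (B2.card : ℝ) ≤ ∑ g ∈ G0,
        (((univ : Finset (Fin N ⊕ ((Fin N × Bool) × Fin N') → (Fin m → Bool))).filter
          (fun F => a < |∑ j, chi (F (Sum.inl j)) g|)).card : ℝ) := by
          rw [hB2]
          exact_mod_cast Finset.card_biUnion_le
      _ ≤ ∑ g ∈ G0, (2 * Real.exp (-(a ^ 2) / (2 * N)) * K) := by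
          refine Finset.sum_le_sum fun g hg => ?_
          have hg' : g ≠ fun _ => false := by
            rw [hG0] at hg
            exact (Finset.mem_filter.1 hg).2
          have h1 := chernoff (ι := Fin N ⊕ ((Fin N × Bool) × Fin N')) (T := Fin m → Bool)
            ((univ : Finset (Fin N)).map ⟨Sum.inl, Sum.inl_injective⟩)
            ((Finset.map_nonempty).2 ⟨⟨0, hN⟩, Finset.mem_univ _⟩)
            (fun _ v => chi v g) (fun i _ lam => by rw [hcT]; exact chi_exp g hg' lam) a ha
          rw [Finset.card_map, Finset.card_univ, Fintype.card_fin, ← hK, Nat.card_eq_fintype_card,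
            Fintype.card_subtype] at h1
          simp only [Finset.sum_map, Function.Embedding.coeFn_mk] at h1
          exact h1
      _ = G0.card * (2 * Real.exp (-(a ^ 2) / (2 * N)) * K) := by
          rw [Finset.sum_const, nsmul_eq_mul]
      _ ≤ 2 ^ m * (2 * Real.exp (-(a ^ 2) / (2 * N)) * K) :=
          mul_le_mul_of_nonneg_right hG0c (by positivity)
  have hb3 : (B3.card : ℝ) ≤ 2 * N * (2 ^ m * (2 * Real.exp (-(a' ^ 2) / (2 * N')) * K)) := by
    calc (B3.card : ℝ) ≤ ∑ p ∈ G0 ×ˢ (univ : Finset (Fin N × Bool)),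
        (((univ : Finset (Fin N ⊕ ((Fin N × Bool) × Fin N') → (Fin m → Bool))).filter
          (fun F => a' < |∑ i, chi (F (Sum.inr (p.2, i))) p.1|)).card : ℝ) := by
          rw [hB3]
          exact_mod_cast Finset.card_biUnion_le
      _ ≤ ∑ p ∈ G0 ×ˢ (univ : Finset (Fin N × Bool)),
          (2 * Real.exp (-(a' ^ 2) / (2 * N')) * K) := by
          refine Finset.sum_le_sum fun p hp => ?_
          obtain ⟨g, l⟩ := p
          have hg' : g ≠ fun _ => false := by
            have hg := (Finset.mem_product.1 hp).1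
            rw [hG0] at hg
            exact (Finset.mem_filter.1 hg).2
          have hinj : Function.Injective
              (fun i : Fin N' => (Sum.inr (l, i) : Fin N ⊕ ((Fin N × Bool) × Fin N'))) := by
            intro i i' h
            have := Sum.inr_injective h
            exact (Prod.mk.inj this).2
          have h1 := chernoff (ι := Fin N ⊕ ((Fin N × Bool) × Fin N')) (T := Fin m → Bool)
            ((univ : Finset (Fin N')).map ⟨_, hinj⟩)
            ((Finset.map_nonempty).2 ⟨⟨0, hN'⟩, Finset.mem_univ _⟩)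
            (fun _ v => chi v g) (fun i _ lam => by rw [hcT]; exact chi_exp g hg' lam) a' ha'
          rw [Finset.card_map, Finset.card_univ, Fintype.card_fin, ← hK, Nat.card_eq_fintype_card,
            Fintype.card_subtype] at h1
          simp only [Finset.sum_map, Function.Embedding.coeFn_mk] at h1
          exact h1
      _ = (G0 ×ˢ (univ : Finset (Fin N × Bool))).card *
          (2 * Real.exp (-(a' ^ 2) / (2 * N')) * K) := by
          rw [Finset.sum_const, nsmul_eq_mul]
      _ ≤ (2 * N * 2 ^ m) * (2 * Real.exp (-(a' ^ 2) / (2 * N')) * K) := by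
          refine mul_le_mul_of_nonneg_right ?_ (by positivity)
          rw [Finset.card_product, Finset.card_univ, Fintype.card_prod, Fintype.card_fin,
            Fintype.card_bool]
          push_cast
          have h0 : (0 : ℝ) ≤ 2 * N := by positivity
          calc (G0.card : ℝ) * (N * 2) = (2 * N) * G0.card := by ring
            _ ≤ (2 * N) * 2 ^ m := mul_le_mul_of_nonneg_left hG0c h0
      _ = 2 * N * (2 ^ m * (2 * Real.exp (-(a' ^ 2) / (2 * N')) * K)) := by ring
  have htot : K ≤ (((N : ℝ) + 2 * N * N') ^ 2 / 2 ^ m +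
      2 ^ m * (2 * Real.exp (-(a ^ 2) / (2 * N))) +
      2 * N * (2 ^ m * (2 * Real.exp (-(a' ^ 2) / (2 * N'))))) * K := by
    refine hcard.trans ((add_le_add (add_le_add hb1 hb2) hb3).trans (le_of_eq ?_))
    ring
  have := mul_lt_mul_of_pos_right H hK0
  linarith

end Pool.Agent.Helper983.SL
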