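import Pool.Agent.Helper983.SL.Defs
import Pool.Agent.Helper983.SL.P_chi_facts
import Pool.Agent.Helper983.SL.P_rand_vec
import Pool.Agent.Helper983.SL.P_rand_sign
import Pool.Agent.Helper983.SL.P_num1
import Pool.Agent.Helper983.SL.P_num2

set_option autoImplicit false

namespace Pool.Agent.Helper983.SL

open Finset

variable (D : Design)



theorem j11423_sg_abs (c : Bool) : |sg c| = 1 := by
  unfold sg
  split_ifs <;> simp

theorem j11423_sg_sq (c : Bool) : sg c * sg c = 1 := by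
  unfold sg
  split_ifs <;> norm_num

theorem j11423_orth {m : ℕ} (a b : Fin m → Bool) :
    ∑ v : Fin m → Bool, chi a v * chi b v = if a = b then (2 ^ m : ℝ) else 0 := by
  have h1 : ∀ v : Fin m → Bool, chi a v * chi b v = chi (fun i => xor (a i) (b i)) v := by
    intro v
    rw [chi_comm a v, chi_comm b v, chi_mul, chi_comm]
  rw [Finset.sum_congr rfl fun v _ => h1 v]
  split_ifs with h
  · subst h
    have h2 : (fun i => xor (a i) (a i)) = fun _ => false := by
      funext i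
      exact Bool.xor_self _
    rw [h2, Finset.sum_congr rfl fun v _ => chi_zero v]
    simp
  · refine chi_sum _ fun h2 => h ?_
    funext i
    have h3 : xor (a i) (b i) = false := congrFun h2 i
    revert h3
    cases a i <;> cases b i <;> simp

theorem j11423_orthb {m : ℕ} (a b : Fin m → Bool) :
    ∑ g ∈ range (2 ^ m), chi a (bits m g) * chi b (bits m g) =
      if a = b then (2 ^ m : ℝ) else 0 := by
  rw [sum_bits m (fun v => chi a v * chi b v), j11423_orth]

theorem j11423_xor {m : ℕ} (g h : ℕ) (hg : g < 2 ^ m) (hh : h < 2 ^ m) (hgh : g ≠ h) :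
    (fun i => xor (bits m g i) (bits m h i)) ≠ fun _ => false := by
  intro h1
  apply hgh
  apply bits_inj m g h hg hh
  funext i
  have h3 : xor (bits m g i) (bits m h i) = false := congrFun h1 i
  revert h3
  cases bits m g i <;> cases bits m h i <;> simp

theorem j11423_chi_sq {m : ℕ} (a v : Fin m → Bool) : chi a v * chi a v = 1 := by
  have h := chi_abs a v
  rw [← abs_mul_abs_self, h]
  norm_num

theorem j11423_vec (k N N' : ℕ) (hN : N = 2 ^ (4 * k + 20)) (hN' : N' = 2 ^ (4 * k + 24)) :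
    ∃ (s : Fin N → (Fin (20 * k + 100) → Bool))
      (t : Fin N × Bool → Fin N' → (Fin (20 * k + 100) → Bool)),
      Function.Injective s ∧ (∀ l l' i i', t l i = t l' i' → l = l' ∧ i = i') ∧
      (∀ j l i, s j ≠ t l i) ∧
      (∀ g : Fin (20 * k + 100) → Bool, (g ≠ fun _ => false) →
        |∑ j, chi (s j) g| ≤ (1 / 2 : ℝ) ^ k * (N : ℝ)) ∧
      (∀ g : Fin (20 * k + 100) → Bool, (g ≠ fun _ => false) → ∀ l,
        |∑ i, chi (t l i) g| ≤ (1 / 2 : ℝ) ^ k * (N' : ℝ)) := by
  have h0 : 0 < N := by rw [hN]; exact Nat.two_pow_pos _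
  have h0' : 0 < N' := by rw [hN']; exact Nat.two_pow_pos _
  have h1 : (0 : ℝ) < N := by exact_mod_cast h0
  have h2 : (0 : ℝ) < N' := by exact_mod_cast h0'
  refine rand_vec (20 * k + 100) N N' h0 h0'
    ((1 / 2 : ℝ) ^ k * (N : ℝ)) ((1 / 2 : ℝ) ^ k * (N' : ℝ))
    (mul_pos (by positivity) h1) (mul_pos (by positivity) h2) ?_
  have h3 := num1 k
  rw [← hN, ← hN'] at h3
  exact h3

theorem j11423_sign (k N N' : ℕ) (hN : N = 2 ^ (4 * k + 20)) (hN' : N' = 2 ^ (4 * k + 24))
    (s : Fin N' → (Fin (20 * (k + 1) + 100) → Bool))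
    (t : Fin N × Bool → Fin N' → (Fin (20 * k + 100) → Bool)) :
    ∃ ep : Fin N' → Bool, ∀ (g : Fin (20 * k + 100) → Bool)
      (h : Fin (20 * (k + 1) + 100) → Bool) (l : Fin N × Bool),
      |∑ i, sg (ep i) * (chi (s i) h * chi (t l i) g)| ≤
        (1 / 2 : ℝ) ^ k * (N' : ℝ) := by
  have h0' : 0 < N' := by rw [hN']; exact Nat.two_pow_pos _
  have h2 : (0 : ℝ) < N' := by exact_mod_cast h0'
  have hcard : Fintype.card ((Fin (20 * k + 100) → Bool) × (Fin (20 * (k + 1) + 100) → Bool) ×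
      (Fin N × Bool)) =
      2 ^ (20 * k + 100) * 2 ^ (20 * (k + 1) + 100) * (N * 2) := by
    rw [Fintype.card_prod, Fintype.card_prod, Fintype.card_prod, Fintype.card_fun,
      Fintype.card_fun, Fintype.card_bool, Fintype.card_fin, Fintype.card_fin, Fintype.card_fin,
      mul_assoc]
  have h3 := num2 k
  rw [← hN, ← hN'] at h3
  obtain ⟨ep, hep⟩ := rand_sign (R := (Fin (20 * k + 100) → Bool) ×
      (Fin (20 * (k + 1) + 100) → Bool) × (Fin N × Bool)) N'
    h0' (fun r i => chi (s i) r.2.1 * chi (t r.2.2 i) r.1)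
    (fun r i => by rw [abs_mul, chi_abs, chi_abs]; norm_num)
    ((1 / 2 : ℝ) ^ k * (N' : ℝ)) (mul_pos (by positivity) h2) (by
      rw [hcard]
      exact h3)
  exact ⟨ep, fun g h l => hep (g, h, l)⟩

theorem j11423_data :
    ∃ (N : ℕ → ℕ) (_ : ∀ k, 0 < N k) (s : ∀ k, Fin (N k) → (Fin (20 * k + 100) → Bool))
      (t : ∀ k, Fin (N k) × Bool → Fin (N (k + 1)) → (Fin (20 * k + 100) → Bool))
      (ep : ∀ k, Fin (N k) → Bool),
      (∀ k, Function.Injective (s k)) ∧
      (∀ k l l' i i', t k l i = t k l' i' → l = l' ∧ i = i') ∧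
      (∀ k j l i, s k j ≠ t k l i) ∧
      (∀ k, ∀ g : Fin (20 * k + 100) → Bool, (g ≠ fun _ => false) →
        |∑ j, chi (s k j) g| ≤ (1 / 2 : ℝ) ^ k * (N k : ℝ)) ∧
      (∀ k, ∀ g : Fin (20 * k + 100) → Bool, (g ≠ fun _ => false) → ∀ l,
        |∑ i, chi (t k l i) g| ≤ (1 / 2 : ℝ) ^ k * (N (k + 1) : ℝ)) ∧
      (∀ k, ∀ (g : Fin (20 * k + 100) → Bool) (h : Fin (20 * (k + 1) + 100) → Bool)
        (l : Fin (N k) × Bool),
        |∑ i, sg (ep (k + 1) i) * (chi (s (k + 1) i) h * chi (t k l i) g)| ≤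
          (1 / 2 : ℝ) ^ k * (N (k + 1) : ℝ)) := by
  obtain ⟨N, hN⟩ : ∃ N : ℕ → ℕ, ∀ k, N k = 2 ^ (4 * k + 20) := ⟨_, fun _ => rfl⟩
  have hN' : ∀ k, N (k + 1) = 2 ^ (4 * k + 24) := by
    intro k
    rw [hN, show 4 * (k + 1) + 20 = 4 * k + 24 by ring]
  choose s t h1 h2 h3 h4 h5 using fun k => j11423_vec k (N k) (N (k + 1)) (hN k) (hN' k)
  choose ep' h6 using fun k => j11423_sign k (N k) (N (k + 1)) (hN k) (hN' k) (s (k + 1)) (t k)
  exact ⟨N, fun k => by rw [hN]; exact Nat.two_pow_pos _, s, t,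
    fun k => Nat.rec (motive := fun k => Fin (N k) → Bool) (fun _ => true)
    (fun k _ => ep' k) k, h1, h2, h3, h4, h5, fun k g h l => h6 k g h l⟩

theorem j11423_avg (S : ℝ) (n : ℕ) (hn : 0 < n) (k : ℕ) (h : |S| ≤ (1 / 2 : ℝ) ^ k * (n : ℝ)) :
    |S / n| ≤ (1 / 2 : ℝ) ^ k := by
  have hn' : (0 : ℝ) < n := by exact_mod_cast hn
  rw [abs_div, abs_of_pos hn', div_le_iff₀ hn']
  exact h

theorem exists_design : Nonempty Design := by
  classical
  obtain ⟨N, hN, s, t, ep, hs, ht, hst, hs1, ht1, hep⟩ := j11423_data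
  have hNp : ∀ k, (0 : ℝ) < N k := fun k => by exact_mod_cast hN k
  set A : ℕ → ℕ → ℕ → ℝ := fun k j g =>
    if h : j < N k then sg (ep k ⟨j, h⟩) * chi (s k ⟨j, h⟩) (bits (20 * k + 100) g) else 0
    with hA
  set B : ℕ → C → ℕ → ℕ → ℝ := fun k l i g =>
    if h : l.1 < N k ∧ i < N (k + 1) then
      chi (t k (⟨l.1, h.1⟩, l.2) ⟨i, h.2⟩) (bits (20 * k + 100) g) else 0 with hB
  have hAv : ∀ k j g (h : j < N k),
      A k j g = sg (ep k ⟨j, h⟩) * chi (s k ⟨j, h⟩) (bits (20 * k + 100) g) :=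
    fun k j g h => dif_pos h
  have hA0 : ∀ k j g, N k ≤ j → A k j g = 0 := fun k j g h => dif_neg (not_lt.2 h)
  have hBv : ∀ k (l : C) i g (h1 : l.1 < N k) (h2 : i < N (k + 1)),
      B k l i g = chi (t k (⟨l.1, h1⟩, l.2) ⟨i, h2⟩) (bits (20 * k + 100) g) :=
    fun k l i g h1 h2 => dif_pos ⟨h1, h2⟩
  have hB0 : ∀ k (l : C) i g, (N k ≤ l.1 ∨ N (k + 1) ≤ i) → B k l i g = 0 :=
    fun k l i g h => dif_neg fun h' => h.elim (not_le.2 h'.1) (not_le.2 h'.2)
  refine ⟨⟨N, fun k => 2 ^ (20 * k + 100), A, B, fun k => 2 * (1 / 2 : ℝ) ^ k,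
    hN, fun k => Nat.two_pow_pos _, ?_, ?_, hA0, hB0, ?_, ?_, ?_, ?_, ?_, ?_, ?_⟩⟩
  · intro k j g
    rcases lt_or_ge j (N k) with h | h
    · rw [hAv k j g h, abs_mul, j11423_sg_abs, chi_abs]
      norm_num
    · rw [hA0 k j g h]
      simp
  · intro k l i g
    by_cases h : l.1 < N k ∧ i < N (k + 1)
    · rw [hBv k l i g h.1 h.2, chi_abs]
    · rw [hB0 k l i g (by by_contra h'; push Not at h'; exact h h')]
      simp
  · intro k j j' hj hj'
    have h1 : ∀ g, A k j g * A k j' g = (sg (ep k ⟨j, hj⟩) * sg (ep k ⟨j', hj'⟩)) *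
        (chi (s k ⟨j, hj⟩) (bits (20 * k + 100) g) *
          chi (s k ⟨j', hj'⟩) (bits (20 * k + 100) g)) := by
      intro g
      rw [hAv k j g hj, hAv k j' g hj']
      ring
    rw [Finset.sum_congr rfl fun g _ => h1 g, ← Finset.mul_sum, j11423_orthb]
    by_cases h : j = j'
    · subst h
      rw [if_pos rfl, if_pos rfl, j11423_sg_sq, one_mul]
      push_cast
      rfl
    · rw [if_neg h, if_neg, mul_zero]
      intro h2
      exact h (congrArg Fin.val (hs k h2))
  · intro k j l i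
    rcases lt_or_ge j (N k) with hj | hj
    · by_cases h : l.1 < N k ∧ i < N (k + 1)
      · have h1 : ∀ g, A k j g * B k l i g = sg (ep k ⟨j, hj⟩) *
            (chi (s k ⟨j, hj⟩) (bits (20 * k + 100) g) *
              chi (t k (⟨l.1, h.1⟩, l.2) ⟨i, h.2⟩) (bits (20 * k + 100) g)) := by
          intro g
          rw [hAv k j g hj, hBv k l i g h.1 h.2]
          ring
        rw [Finset.sum_congr rfl fun g _ => h1 g, ← Finset.mul_sum, j11423_orthb,
          if_neg (hst _ _ _ _), mul_zero]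
      · have h' : N k ≤ l.1 ∨ N (k + 1) ≤ i := by
          by_contra h'; push Not at h'; exact h h'
        exact Finset.sum_eq_zero fun g _ => by rw [hB0 k l i g h', mul_zero]
    · exact Finset.sum_eq_zero fun g _ => by rw [hA0 k j g hj, zero_mul]
  · intro k l l' i i' hl hl' hi hi'
    have h1 : ∀ g, B k l i g * B k l' i' g =
        (chi (t k (⟨l.1, hl⟩, l.2) ⟨i, hi⟩) (bits (20 * k + 100) g) *
          chi (t k (⟨l'.1, hl'⟩, l'.2) ⟨i', hi'⟩) (bits (20 * k + 100) g)) := by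
      intro g
      rw [hBv k l i g hl hi, hBv k l' i' g hl' hi']
    rw [Finset.sum_congr rfl fun g _ => h1 g, j11423_orthb]
    by_cases h : l = l' ∧ i = i'
    · obtain ⟨rfl, rfl⟩ := h
      rw [if_pos rfl, if_pos ⟨rfl, rfl⟩]
      push_cast
      rfl
    · rw [if_neg h, if_neg]
      intro h2
      obtain ⟨h3, h4⟩ := ht k _ _ _ _ h2
      apply h
      constructor
      · rw [Prod.mk.injEq] at h3
        exact Prod.ext (congrArg Fin.val h3.1) h3.2
      · exact congrArg Fin.val h4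
  · intro k l g h hl hg hh
    have h1 : ∑ i ∈ range (N (k + 1)), B k l i g * B k l i h =
        ∑ i : Fin (N (k + 1)), chi (t k (⟨l.1, hl⟩, l.2) i) (bits (20 * k + 100) g) *
          chi (t k (⟨l.1, hl⟩, l.2) i) (bits (20 * k + 100) h) := by
      rw [Finset.sum_range]
      refine Finset.sum_congr rfl fun i _ => ?_
      rw [hBv k l i g hl i.2, hBv k l i h hl i.2]
    have h2 : ∑ j ∈ range (N k), A k j g * A k j h =
        ∑ j : Fin (N k), chi (s k j) (bits (20 * k + 100) g) *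
          chi (s k j) (bits (20 * k + 100) h) := by
      rw [Finset.sum_range]
      refine Finset.sum_congr rfl fun j _ => ?_
      rw [hAv k j g j.2, hAv k j h j.2]
      have := j11423_sg_sq (ep k j)
      calc sg (ep k ⟨j, j.2⟩) * chi (s k ⟨j, j.2⟩) (bits (20 * k + 100) g) *
            (sg (ep k ⟨j, j.2⟩) * chi (s k ⟨j, j.2⟩) (bits (20 * k + 100) h))
          = (sg (ep k j) * sg (ep k j)) * (chi (s k j) (bits (20 * k + 100) g) *
          chi (s k j) (bits (20 * k + 100) h)) := by ring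
        _ = _ := by rw [this, one_mul]
    rw [h1, h2]
    by_cases hgh : g = h
    · subst hgh
      rw [Finset.sum_congr rfl fun i _ => j11423_chi_sq _ _,
        Finset.sum_congr rfl fun i _ => j11423_chi_sq _ _]
      simp only [Finset.sum_const, Finset.card_univ, Fintype.card_fin, nsmul_eq_mul, mul_one]
      rw [div_self (hNp _).ne', div_self (hNp _).ne', sub_self, abs_zero]
      positivity
    · have hx := j11423_xor g h hg hh hgh
      rw [Finset.sum_congr rfl fun i _ => chi_mul _ _ _,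
        Finset.sum_congr rfl fun i _ => chi_mul _ _ _]
      have h3 := j11423_avg _ _ (hN (k + 1)) k (ht1 k _ hx (⟨l.1, hl⟩, l.2))
      have h4 := j11423_avg _ _ (hN k) k (hs1 k _ hx)
      refine (abs_sub _ _).trans ?_
      linarith
  · intro k l g h hl hg hh
    have h1 : ∑ i ∈ range (N (k + 1)), B k l i g * A (k + 1) i h =
        ∑ i : Fin (N (k + 1)), sg (ep (k + 1) i) *
          (chi (s (k + 1) i) (bits (20 * (k + 1) + 100) h) *
            chi (t k (⟨l.1, hl⟩, l.2) i) (bits (20 * k + 100) g)) := by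
      rw [Finset.sum_range]
      refine Finset.sum_congr rfl fun i _ => ?_
      rw [hBv k l i g hl i.2, hAv (k + 1) i h i.2]
      ring
    rw [h1]
    refine (j11423_avg _ _ (hN (k + 1)) k (hep k _ _ _)).trans ?_
    have : (0 : ℝ) < (1 / 2 : ℝ) ^ k := by positivity
    linarith
  · intro k
    positivity
  · exact (summable_geometric_of_lt_one (by norm_num) (by norm_num)).mul_left 2

end Pool.Agent.Helper983.SL
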