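import Mathlib

set_option autoImplicit false

namespace Pool.Agent.Helper983.SL

open Finset

/-- labels: an index and a sign -/
abbrev C := ℕ × Bool

/-- sign of a label -/
noncomputable def sg (c : Bool) : ℝ := if c then 1 else -1

/-- nodes of the tree: lists of labels, newest label first -/
abbrev Nd := List C

/-- point set -/
abbrev Om := Nd × ℕ

/-- the node at level `k` on the branch `b` -/
def nd (b : ℕ → C) : ℕ → Nd
  | 0 => []
  | k + 1 => b k :: nd b k

/-- finite combinatorial data (Davie-type matrices) -/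
structure Design where
  N : ℕ → ℕ
  M : ℕ → ℕ
  A : ℕ → ℕ → ℕ → ℝ
  B : ℕ → C → ℕ → ℕ → ℝ
  δ : ℕ → ℝ
  Npos : ∀ k, 0 < N k
  Mpos : ∀ k, 0 < M k
  A1 : ∀ k j g, |A k j g| ≤ 1
  B1 : ∀ k l i g, |B k l i g| ≤ 1
  A0 : ∀ k j g, N k ≤ j → A k j g = 0
  B0 : ∀ k l i g, (N k ≤ l.1 ∨ N (k + 1) ≤ i) → B k l i g = 0
  AA : ∀ k j j', j < N k → j' < N k →
    ∑ g ∈ range (M k), A k j g * A k j' g = if j = j' then (M k : ℝ) else 0
  AB : ∀ k j l i, ∑ g ∈ range (M k), A k j g * B k l i g = 0
  BB : ∀ k l l' i i', l.1 < N k → l'.1 < N k → i < N (k + 1) → i' < N (k + 1) →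
    ∑ g ∈ range (M k), B k l i g * B k l' i' g = if l = l' ∧ i = i' then (M k : ℝ) else 0
  S1 : ∀ k l g h, l.1 < N k → g < M k → h < M k →
    |(∑ i ∈ range (N (k + 1)), B k l i g * B k l i h) / N (k + 1) -
      (∑ j ∈ range (N k), A k j g * A k j h) / N k| ≤ δ k
  S2 : ∀ k l g h, l.1 < N k → g < M k → h < M (k + 1) →
    |(∑ i ∈ range (N (k + 1)), B k l i g * A (k + 1) i h) / N (k + 1)| ≤ δ k
  δ0 : ∀ k, 0 ≤ δ k
  δs : Summable δ

variable (D : Design)

/-- valid branches -/
def Vb (b : ℕ → C) : Prop := ∀ k, (b k).1 < D.N k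

/-- the basic vectors, as functions: on the node `t` the function `A t.length j`, on the parent of
`t` the function `B _ (last label of t) j` -/
noncomputable def eF (t : Nd) (j : ℕ) : Om → ℝ := fun w =>
  if w.2 < D.M w.1.length then
    (if w.1 = t then D.A t.length j w.2 else 0) +
    (match t with
      | [] => 0
      | l :: p => if w.1 = p then D.B p.length l j w.2 else 0)
  else 0

/-- the branch sums, as functions -/
noncomputable def uF (b : ℕ → C) : Om → ℝ := fun w =>
  if w.2 < D.M w.1.length ∧ w.1 = nd b w.1.length then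
    sg (b w.1.length).2 * D.A w.1.length (b w.1.length).1 w.2 +
    sg (b (w.1.length + 1)).2 * D.B w.1.length (b w.1.length) (b (w.1.length + 1)).1 w.2
  else 0

/-- bounded functions on `Om` with the sup norm -/
abbrev L := lp (fun _ : Om => ℝ) ⊤

/-- element of `L` from a bounded function -/
noncomputable def mkL (f : Om → ℝ) (c : ℝ) (h : ∀ w, |f w| ≤ c) : L :=
  ⟨f, memℓp_infty ⟨c, by rintro _ ⟨w, rfl⟩; exact h w⟩⟩

theorem mkL_apply (f : Om → ℝ) (c : ℝ) (h : ∀ w, |f w| ≤ c) (w : Om) : mkL f c h w = f w := rfl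

theorem abs_apply_le (x : L) (w : Om) : |x w| ≤ ‖x‖ := by
  have := lp.norm_apply_le_norm (p := ⊤) (by simp) x w
  simpa [Real.norm_eq_abs] using this

theorem norm_le_of (x : L) (c : ℝ) (hc : 0 ≤ c) (h : ∀ w, |x w| ≤ c) : ‖x‖ ≤ c :=
  lp.norm_le_of_forall_le hc (fun w => by simpa [Real.norm_eq_abs] using h w)

theorem eF_abs (t : Nd) (j : ℕ) (w : Om) : |eF D t j w| ≤ 1 := by
  unfold eF
  split_ifs with h1 h2
  · rcases t with _ | ⟨l, p⟩
    · simpa using D.A1 _ _ _
    · have : w.1 ≠ p := by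
        rw [h2]; intro h
        have := congrArg List.length h
        simp at this
      simp only [this, if_false, add_zero]
      exact D.A1 _ _ _
  · rcases t with _ | ⟨l, p⟩
    · simp
    · simp only [zero_add]
      split_ifs
      · exact D.B1 _ _ _ _
      · simp
  · simp

theorem uF_abs (b : ℕ → C) (w : Om) : |uF D b w| ≤ 2 := by
  unfold uF
  have hs : ∀ c, |sg c| = 1 := by intro c; unfold sg; split_ifs <;> simp
  split_ifs with h1
  · refine (abs_add_le _ _).trans ?_
    rw [abs_mul, abs_mul, hs, hs]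
    have := D.A1 w.1.length (b w.1.length).1 w.2
    have := D.B1 w.1.length (b w.1.length) (b (w.1.length + 1)).1 w.2
    linarith
  · simp

/-- basic vectors -/
noncomputable def e (t : Nd) (j : ℕ) : L := mkL (eF D t j) 1 (eF_abs D t j)

/-- branch sums -/
noncomputable def u (b : ℕ → C) : L := mkL (uF D b) 2 (uF_abs D b)

/-- the set of basic vectors -/
def Es : Set L := Set.range (fun p : Nd × ℕ => e D p.1 p.2)

/-- the set of (valid) branch sums -/
def Us : Set L := {x | ∃ b, Vb D b ∧ x = u D b}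

/-- the separable space `Z` -/
noncomputable def Zs : Submodule ℝ L := (Submodule.span ℝ (Es D)).topologicalClosure

/-- the nonseparable space `X` -/
noncomputable def Xs : Submodule ℝ L := (Submodule.span ℝ (Es D ∪ Us D)).topologicalClosure

theorem e_mem_Z (t : Nd) (j : ℕ) : e D t j ∈ Zs D :=
  Submodule.le_topologicalClosure _ (Submodule.subset_span ⟨(t, j), rfl⟩)

theorem e_mem_X (t : Nd) (j : ℕ) : e D t j ∈ Xs D :=
  Submodule.le_topologicalClosure _ (Submodule.subset_span (Or.inl ⟨(t, j), rfl⟩))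

theorem u_mem_X (b : ℕ → C) (hb : Vb D b) : u D b ∈ Xs D :=
  Submodule.le_topologicalClosure _ (Submodule.subset_span (Or.inr ⟨b, hb, rfl⟩))

theorem Z_le_X : Zs D ≤ Xs D :=
  Submodule.topologicalClosure_mono (Submodule.span_mono Set.subset_union_left)

/-- `e t j` as an element of `X` -/
noncomputable def eX (t : Nd) (j : ℕ) : Xs D := ⟨e D t j, e_mem_X D t j⟩

/-- `u b` as an element of `X` -/
noncomputable def uX (b : ℕ → C) (hb : Vb D b) : Xs D := ⟨u D b, u_mem_X D b hb⟩

/-- the inclusion of `Z` in `X` -/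
noncomputable def inc (z : Zs D) : Xs D := ⟨z.1, Z_le_X D z.2⟩

/-- the functional `x ↦ avg_g A_j(g) x(t,g)` -/
noncomputable def al (t : Nd) (j : ℕ) (x : L) : ℝ :=
  (∑ g ∈ range (D.M t.length), D.A t.length j g * x (t, g)) / D.M t.length

/-- the trace functional at the node `t` -/
noncomputable def bt (t : Nd) (V : Xs D →L[ℝ] Zs D) : ℝ :=
  (∑ j ∈ range (D.N t.length), al D t j ((V (eX D t j) : Zs D) : L)) / D.N t.length


/-- the branch which follows `b0` up to level `k0` and afterwards uses the labels `(h node, x n)` -/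
def hbN (b0 : ℕ → C) (k0 : ℕ) (h : Nd → ℕ) (x : ℕ → Bool) : ℕ → Nd
  | 0 => nd b0 k0
  | n + 1 => (h (hbN b0 k0 h x n), x n) :: hbN b0 k0 h x n

def hb (b0 : ℕ → C) (k0 : ℕ) (h : Nd → ℕ) (x : ℕ → Bool) : ℕ → C :=
  fun k => if k < k0 then b0 k else (h (hbN b0 k0 h x (k - k0)), x (k - k0))

/-- the part of the branch sum below level `m` -/
noncomputable def part (b : ℕ → C) (m : ℕ) : L :=
  ∑ k ∈ range m, sg (b k).2 • e D (nd b k) (b k).1

/-! ### retraction -/

/-- valid branches as a type -/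
abbrev Br := {b : ℕ → C // Vb D b}

/-- largest positive part of `v` on the branches through `l :: t` -/
noncomputable def mp (v : Br D → ℝ) (t : Nd) (l : C) : ℝ :=
  ⨆ b : Br D, if nd b.1 (t.length + 1) = l :: t then max (v b) 0 else 0

/-- largest `|v|` on the branches through the parent of `t` which do not pass through `l :: t` -/
noncomputable def nu (v : Br D → ℝ) (t : Nd) (l : C) : ℝ :=
  ⨆ b : Br D, if nd b.1 t.tail.length = t.tail ∧ nd b.1 (t.length + 1) ≠ l :: t then |v b| else 0

/-- winner minus runner-up -/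
noncomputable def gam (v : Br D → ℝ) (t : Nd) (l : C) : ℝ :=
  max (mp D v t l - nu D v t l) 0 - max (mp D (fun b => -v b) t l - nu D v t l) 0

/-- the labels of level `k` -/
def labs (k : ℕ) : Finset C := range (D.N k) ×ˢ (Finset.univ : Finset Bool)

/-- the Lipschitz section, as a function -/
noncomputable def sF (v : Br D → ℝ) : Om → ℝ := fun w =>
  if w.2 < D.M w.1.length then
    (∑ l ∈ labs D w.1.length, sg l.2 * gam D v w.1 l * D.A w.1.length l.1 w.2) +
    ∑ l ∈ labs D w.1.length, ∑ m ∈ labs D (w.1.length + 1),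
      sg m.2 * gam D v (l :: w.1) m * D.B w.1.length l m.1 w.2
  else 0

/-! ### bump -/

/-- smooth step, `1` on `(-∞,0]`, `0` on `[1/2,∞)` -/
noncomputable def phi (s : ℝ) : ℝ := Real.smoothTransition (1 - 2 * s)

noncomputable def fac (κ y τ : ℝ) : ℝ := phi (y - τ - κ) * phi (-y - τ - κ)

/-- infinite product of the factors -/
noncomputable def Pr {I : Type*} (κ : I → ℝ) (y : I → ℝ) (τ : ℝ) : ℝ :=
  ⨅ F : Finset I, ∏ p ∈ F, fac (κ p) (y p) τ

noncomputable def Fb {I : Type*} (κ : I → ℝ) (y : I → ℝ) : ℝ := ∫ τ in (1 : ℝ)..2, Pr κ y τ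

/-! ### design -/

/-- the character of `F_2^m` -/
noncomputable def chi {m : ℕ} (v g : Fin m → Bool) : ℝ :=
  ∏ i, if (v i && g i) = true then (-1 : ℝ) else 1

/-- binary digits -/
def bits (m g : ℕ) : Fin m → Bool := fun i => Nat.testBit g i


end Pool.Agent.Helper983.SL
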