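import Pool.Agent.Helper983.SL.Defs

set_option autoImplicit false

namespace Pool.Agent.Helper983.SL

open Finset

variable (D : Design)




theorem j11399_der {X Y : Type*} [NormedAddCommGroup X] [NormedSpace ℝ X]
    [NormedAddCommGroup Y] [NormedSpace ℝ Y] [CompleteSpace Y]
    (g : X → Y) (hg : ContDiff ℝ 1 g) (M : ℝ) (hM0 : 0 ≤ M) (hM : ∀ x y, ‖g x - g y‖ ≤ M * ‖x - y‖)
    (v : X) (R : ℝ) (x : X) :
    HasFDerivAt (fun x => ∫ s in (-R)..R, g (x + s • v))
      (∫ s in (-R)..R, fderiv ℝ g (x + s • v)) x := by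
  have hbd : ∀ x, ‖fderiv ℝ g x‖ ≤ M := fun x =>
    norm_fderiv_le_of_lip' ℝ hM0 (Filter.Eventually.of_forall fun y => hM y x)
  have hc : Continuous (fderiv ℝ g) := hg.continuous_fderiv (by simp)
  apply intervalIntegral.hasFDerivAt_integral_of_dominated_of_fderiv_le
    (F := fun x s => g (x + s • v)) (F' := fun x s => fderiv ℝ g (x + s • v))
    (s := Set.univ) (bound := fun _ => M) Filter.univ_mem
  · refine Filter.Eventually.of_forall fun y => ?_
    exact (hg.continuous.comp (by fun_prop : Continuous fun s : ℝ => y + s • v)).aestronglyMeasurable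
  · exact (hg.continuous.comp (by fun_prop : Continuous fun s : ℝ => x + s • v)).intervalIntegrable _ _
  · exact (hc.comp (by fun_prop : Continuous fun s : ℝ => x + s • v)).aestronglyMeasurable
  · exact Filter.Eventually.of_forall fun s _ y _ => hbd _
  · exact intervalIntegrable_const
  · refine Filter.Eventually.of_forall fun s _ y _ => ?_
    have h1 : HasFDerivAt g (fderiv ℝ g (y + s • v)) (y + s • v) :=
      (hg.differentiable (by simp)).differentiableAt.hasFDerivAt
    have h2 : HasFDerivAt (fun y => y + s • v) (ContinuousLinearMap.id ℝ X) y :=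
      (hasFDerivAt_id y).add_const _
    exact h1.comp y h2

theorem j11399_cont {X Y : Type*} [NormedAddCommGroup X] [NormedSpace ℝ X]
    [NormedAddCommGroup Y] [NormedSpace ℝ Y] [CompleteSpace Y]
    (g : X → Y) (hg : ContDiff ℝ 1 g) (M : ℝ) (hM0 : 0 ≤ M) (hM : ∀ x y, ‖g x - g y‖ ≤ M * ‖x - y‖)
    (v : X) (R : ℝ) :
    Continuous (fun x => ∫ s in (-R)..R, fderiv ℝ g (x + s • v)) := by
  have hbd : ∀ x, ‖fderiv ℝ g x‖ ≤ M := fun x =>
    norm_fderiv_le_of_lip' ℝ hM0 (Filter.Eventually.of_forall fun y => hM y x)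
  have hc : Continuous (fderiv ℝ g) := hg.continuous_fderiv (by simp)
  apply intervalIntegral.continuous_of_dominated_interval (bound := fun _ => M)
  · intro x
    exact (hc.comp (by fun_prop : Continuous fun s : ℝ => x + s • v)).aestronglyMeasurable
  · exact fun x => Filter.Eventually.of_forall fun s _ => hbd _
  · exact intervalIntegrable_const
  · exact Filter.Eventually.of_forall fun s _ => hc.comp (by fun_prop)

theorem avg_step {X Y : Type*} [NormedAddCommGroup X] [NormedSpace ℝ X]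
    [NormedAddCommGroup Y] [NormedSpace ℝ Y] [CompleteSpace Y]
    (g : X → Y) (hg : ContDiff ℝ 1 g) (M : ℝ) (hM : ∀ x y, ‖g x - g y‖ ≤ M * ‖x - y‖)
    (v : X) (R : ℝ) (hR : 0 < R) :
    ∃ g' : X → Y, ContDiff ℝ 1 g' ∧ (∀ x y, ‖g' x - g' y‖ ≤ M * ‖x - y‖) ∧
      (∀ x, g' x = (2 * R)⁻¹ • ∫ s in (-R)..R, g (x + s • v)) ∧
      (∀ x w, fderiv ℝ g' x w = (2 * R)⁻¹ • ∫ s in (-R)..R, fderiv ℝ g (x + s • v) w) ∧
      (∀ x, fderiv ℝ g' x v = (2 * R)⁻¹ • (g (x + R • v) - g (x - R • v))) := by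
  have hM' : ∀ x y, ‖g x - g y‖ ≤ |M| * ‖x - y‖ := fun x y =>
    le_trans (hM x y) (mul_le_mul_of_nonneg_right (le_abs_self M) (norm_nonneg _))
  have hder := fun x => (j11399_der g hg |M| (abs_nonneg _) hM' v R x).const_smul (2 * R)⁻¹
  have hcont := j11399_cont g hg |M| (abs_nonneg _) hM' v R
  have hc : Continuous (fderiv ℝ g) := hg.continuous_fderiv (by simp)
  have hfd : ∀ x, fderiv ℝ (fun x => (2 * R)⁻¹ • ∫ s in (-R)..R, g (x + s • v)) x =
      (2 * R)⁻¹ • ∫ s in (-R)..R, fderiv ℝ g (x + s • v) := fun x => (hder x).fderiv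
  have happ : ∀ x w, fderiv ℝ (fun x => (2 * R)⁻¹ • ∫ s in (-R)..R, g (x + s • v)) x w =
      (2 * R)⁻¹ • ∫ s in (-R)..R, fderiv ℝ g (x + s • v) w := by
    intro x w
    rw [hfd x, smul_apply, ContinuousLinearMap.intervalIntegral_apply]
    exact (hc.comp (by fun_prop : Continuous fun s : ℝ => x + s • v)).intervalIntegrable _ _
  refine ⟨fun x => (2 * R)⁻¹ • ∫ s in (-R)..R, g (x + s • v), ?_, ?_, fun x => rfl, happ, ?_⟩
  · rw [contDiff_one_iff_fderiv]
    refine ⟨fun x => (hder x).differentiableAt, ?_⟩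
    have : fderiv ℝ (fun x => (2 * R)⁻¹ • ∫ s in (-R)..R, g (x + s • v)) =
        fun x => (2 * R)⁻¹ • ∫ s in (-R)..R, fderiv ℝ g (x + s • v) := funext hfd
    rw [this]
    exact hcont.const_smul ((2 * R)⁻¹ : ℝ)
  · intro x y
    have i1 : ∀ z, IntervalIntegrable (fun s : ℝ => g (z + s • v)) MeasureTheory.volume (-R) R :=
      fun z => (hg.continuous.comp (by fun_prop : Continuous fun s : ℝ => z + s • v)).intervalIntegrable _ _
    have e1 : (2 * R)⁻¹ • (∫ s in (-R)..R, g (x + s • v)) -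
        (2 * R)⁻¹ • (∫ s in (-R)..R, g (y + s • v)) =
        (2 * R)⁻¹ • ∫ s in (-R)..R, (g (x + s • v) - g (y + s • v)) := by
      rw [← smul_sub, intervalIntegral.integral_sub (i1 x) (i1 y)]
    show ‖(2 * R)⁻¹ • (∫ s in (-R)..R, g (x + s • v)) -
        (2 * R)⁻¹ • (∫ s in (-R)..R, g (y + s • v))‖ ≤ _
    rw [e1, norm_smul]
    have e2 : ‖∫ s in (-R)..R, (g (x + s • v) - g (y + s • v))‖ ≤ (M * ‖x - y‖) * |R - (-R)| := by
      apply intervalIntegral.norm_integral_le_of_norm_le_const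
      intro s _
      have h := hM (x + s • v) (y + s • v)
      have e3 : x + s • v - (y + s • v) = x - y := by abel
      rw [e3] at h
      exact h
    have e4 : |R - (-R)| = 2 * R := by
      rw [abs_of_pos (by linarith)]; ring
    rw [e4] at e2
    have e5 : ‖(2 * R)⁻¹‖ = (2 * R)⁻¹ := by
      rw [Real.norm_eq_abs, abs_of_pos (by positivity)]
    rw [e5]
    calc (2 * R)⁻¹ * ‖∫ s in (-R)..R, (g (x + s • v) - g (y + s • v))‖
        ≤ (2 * R)⁻¹ * (M * ‖x - y‖ * (2 * R)) := by
          apply mul_le_mul_of_nonneg_left e2 (by positivity)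
      _ = M * ‖x - y‖ := by
          field_simp
  · intro x
    rw [happ x v]
    congr 1
    have h1 : ∀ s ∈ Set.uIcc (-R) R, HasDerivAt (fun s : ℝ => g (x + s • v))
        (fderiv ℝ g (x + s • v) v) s := by
      intro s _
      have h2 : HasFDerivAt g (fderiv ℝ g (x + s • v)) (x + s • v) :=
        (hg.differentiable (by simp)).differentiableAt.hasFDerivAt
      have h3 : HasDerivAt (fun s : ℝ => x + s • v) v s := by
        have h4 : HasDerivAt (fun s : ℝ => s • v) ((1 : ℝ) • v) s := (hasDerivAt_id s).smul_const v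
        rw [one_smul] at h4
        exact h4.const_add x
      exact h2.comp_hasDerivAt s h3
    rw [intervalIntegral.integral_eq_sub_of_hasDerivAt h1]
    · rw [neg_smul, sub_eq_add_neg x]
    · have : Continuous (fun s : ℝ => fderiv ℝ g (x + s • v) v) :=
        (hc.comp (by fun_prop : Continuous fun s : ℝ => x + s • v)).clm_apply continuous_const
      exact this.intervalIntegrable _ _

end Pool.Agent.Helper983.SL
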