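import Pool.Agent.Helper983.SL.Defs
import Pool.Agent.Helper983.SL.P_avg_step

set_option autoImplicit false

namespace Pool.Agent.Helper983.SL

open Finset

variable (D : Design)



theorem avg_close {Y : Type*} [NormedAddCommGroup Y] [NormedSpace ℝ Y] [CompleteSpace Y]
    (p : ℝ → Y) (hp : Continuous p) (y : Y) (c : ℝ) (h : ∀ s, ‖p s - y‖ ≤ c) :
    ‖(2 * (4 : ℝ))⁻¹ • (∫ s in (-4 : ℝ)..4, p s) - y‖ ≤ c := by
  have h1 : (2 * (4 : ℝ))⁻¹ • (∫ s in (-4 : ℝ)..4, p s) - y =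
      (2 * (4 : ℝ))⁻¹ • (∫ s in (-4 : ℝ)..4, (p s - y)) := by
    rw [intervalIntegral.integral_sub (hp.intervalIntegrable _ _)
      (continuous_const.intervalIntegrable _ _), intervalIntegral.integral_const, smul_sub,
      smul_smul]
    norm_num
  have h2 : ‖∫ s in (-4 : ℝ)..4, (p s - y)‖ ≤ c * |4 - (-4)| :=
    intervalIntegral.norm_integral_le_of_norm_le_const fun s _ => h s
  rw [h1, norm_smul]
  norm_num at h2 ⊢
  linarith

theorem avg_odd {Y : Type*} [NormedAddCommGroup Y] [NormedSpace ℝ Y] [CompleteSpace Y]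
    (p : ℝ → Y) (hp : Continuous p) (z : Y) :
    ∫ s in (-4 : ℝ)..4, p s = ∫ s in (-4 : ℝ)..4, (p s - s • z) := by
  rw [intervalIntegral.integral_sub (hp.intervalIntegrable _ _)
      ((by fun_prop : Continuous fun s : ℝ => s • z).intervalIntegrable _ _),
      intervalIntegral.integral_smul_const, integral_id]
  norm_num

theorem avg_ind {X Y : Type*} [NormedAddCommGroup X] [NormedSpace ℝ X]
    [NormedAddCommGroup Y] [NormedSpace ℝ Y] [CompleteSpace Y]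
    (ι : Y →ₗ[ℝ] X) (f g : X → Y) (hf : ∀ z, f (ι z) = z) (hg : ContDiff ℝ 1 g)
    (M : ℝ) (hM : ∀ x y, ‖g x - g y‖ ≤ M * ‖x - y‖)
    (hfg : ∀ x, ‖f x - g x‖ ≤ 1) (n : ℕ) (z : Fin n → Y) (m : ℕ) (hm : m ≤ n) :
    ∃ g1 : X → Y, ContDiff ℝ 1 g1 ∧ (∀ x y, ‖g1 x - g1 y‖ ≤ M * ‖x - y‖) ∧
      (∀ y : Y, ‖g1 (ι y) - y‖ ≤ 1) ∧
      ∀ i : Fin n, i.val < m → ∀ y : Y, ‖fderiv ℝ g1 (ι y) (ι (z i)) - z i‖ ≤ 1 / 4 := by
  induction m with
  | zero =>
    refine ⟨g, hg, hM, fun y => ?_, fun i hi => (Nat.not_lt_zero _ hi).elim⟩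
    have h := hfg (ι y)
    rw [hf, norm_sub_rev] at h
    exact h
  | succ m ih =>
    obtain ⟨g1, hg1, hL1, h1, h2⟩ := ih (by omega)
    obtain ⟨g', hg', hL', e1, e2, e3⟩ := avg_step g1 hg1 M hL1 (ι (z ⟨m, by omega⟩)) 4 (by norm_num)
    set zm : Y := z ⟨m, by omega⟩ with hzm
    have hι : ∀ (y : Y) (s : ℝ), ι y + s • ι zm = ι (y + s • zm) := by
      intro y s
      rw [map_add, map_smul]
    have hc : ∀ y : Y, Continuous (fun s : ℝ => g1 (ι (y + s • zm))) := by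
      intro y
      have h3 : Continuous (fun s : ℝ => g1 (ι y + s • ι zm)) :=
        hg1.continuous.comp (by fun_prop)
      simp only [hι] at h3
      exact h3
    refine ⟨g', hg', hL', fun y => ?_, fun i hi y => ?_⟩
    · rw [e1]
      simp only [hι]
      rw [avg_odd _ (hc y) zm]
      have hcc : Continuous (fun s : ℝ => g1 (ι (y + s • zm)) - s • zm) :=
        (hc y).sub (by fun_prop)
      refine avg_close _ hcc y 1 fun s => ?_
      have h3 := h1 (y + s • zm)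
      have h4 : g1 (ι (y + s • zm)) - s • zm - y = g1 (ι (y + s • zm)) - (y + s • zm) := by abel
      rw [h4]
      exact h3
    · by_cases hi' : i.val < m
      · rw [e2]
        have hc' : Continuous (fun s : ℝ => fderiv ℝ g1 (ι y + s • ι zm) (ι (z i))) := by
          have h3 : Continuous (fun s : ℝ => fderiv ℝ g1 (ι y + s • ι zm)) :=
            (hg1.continuous_fderiv one_ne_zero).comp (by fun_prop)
          exact h3.clm_apply continuous_const
        refine avg_close _ hc' (z i) (1 / 4) fun s => ?_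
        rw [hι]
        exact h2 i hi' _
      · have him : i = ⟨m, by omega⟩ := Fin.ext (by change i.val = m; omega)
        have hzi : z i = zm := by rw [hzm, him]
        rw [hzi, e3]
        have k1 := h1 (y + (4 : ℝ) • zm)
        have k2 := h1 (y - (4 : ℝ) • zm)
        have e4 : ι y + (4 : ℝ) • ι zm = ι (y + (4 : ℝ) • zm) := hι y 4
        have e5 : ι y - (4 : ℝ) • ι zm = ι (y - (4 : ℝ) • zm) := by rw [map_sub, map_smul]
        rw [e4, e5]
        have e6 : (2 * (4 : ℝ))⁻¹ • (g1 (ι (y + (4 : ℝ) • zm)) - g1 (ι (y - (4 : ℝ) • zm))) - zm =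
            (2 * (4 : ℝ))⁻¹ • ((g1 (ι (y + (4 : ℝ) • zm)) - (y + (4 : ℝ) • zm)) -
              (g1 (ι (y - (4 : ℝ) • zm)) - (y - (4 : ℝ) • zm))) := by
          module
        have e7 : ‖(2 * (4 : ℝ))⁻¹‖ = 1 / 8 := by norm_num
        rw [e6, norm_smul, e7]
        have k3 := norm_sub_le (g1 (ι (y + (4 : ℝ) • zm)) - (y + (4 : ℝ) • zm))
          (g1 (ι (y - (4 : ℝ) • zm)) - (y - (4 : ℝ) • zm))
        linarith

theorem avg_main {X Y : Type*} [NormedAddCommGroup X] [NormedSpace ℝ X]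
    [NormedAddCommGroup Y] [NormedSpace ℝ Y] [CompleteSpace Y]
    (ι : Y →ₗ[ℝ] X) (f g : X → Y) (hf : ∀ z, f (ι z) = z) (hg : ContDiff ℝ 1 g)
    (M : ℝ) (hM0 : 0 ≤ M) (hM : ∀ x y, ‖g x - g y‖ ≤ M * ‖x - y‖)
    (hfg : ∀ x, ‖f x - g x‖ ≤ 1) (n : ℕ) (z : Fin n → Y) :
    ∃ T : X →L[ℝ] Y, ‖T‖ ≤ M ∧ ∀ i, ‖T (ι (z i)) - z i‖ ≤ 1 / 4 := by
  obtain ⟨g1, hg1, hL1, h1, h2⟩ := avg_ind ι f g hf hg M hM hfg n z n le_rfl
  refine ⟨fderiv ℝ g1 (ι 0), ?_, fun i => h2 i i.2 0⟩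
  have hlip : LipschitzWith ⟨M, hM0⟩ g1 := LipschitzWith.of_dist_le_mul fun x y => by
    rw [dist_eq_norm, dist_eq_norm]
    exact hL1 x y
  exact norm_fderiv_le_of_lipschitz ℝ hlip

end Pool.Agent.Helper983.SL
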