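import Pool.Agent.Helper983.SL.Defs

set_option autoImplicit false

namespace Pool.Agent.Helper983.SL

open Finset

variable (D : Design)



theorem fac_aux_nonneg (s : ℝ) : 0 ≤ phi s := Real.smoothTransition.nonneg _
theorem fac_aux_le_one (s : ℝ) : phi s ≤ 1 := Real.smoothTransition.le_one _
theorem fac_aux_anti {s t : ℝ} (h : s ≤ t) : phi t ≤ phi s :=
  Real.smoothTransition.monotone (by linarith)

theorem fac_nonneg (κ y τ : ℝ) : 0 ≤ fac κ y τ :=
  mul_nonneg (fac_aux_nonneg _) (fac_aux_nonneg _)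
theorem fac_le_one (κ y τ : ℝ) : fac κ y τ ≤ 1 :=
  mul_le_one₀ (fac_aux_le_one _) (fac_aux_nonneg _) (fac_aux_le_one _)
theorem fac_one (κ y τ : ℝ) (h : |y| ≤ τ + κ) : fac κ y τ = 1 := by
  have h1 := abs_le.1 h
  unfold fac phi
  rw [Real.smoothTransition.one_of_one_le (by linarith [h1.2]),
    Real.smoothTransition.one_of_one_le (by linarith [h1.1]), one_mul]
theorem fac_zero (κ y τ : ℝ) (h : τ + κ + 1 / 2 ≤ |y|) : fac κ y τ = 0 := by
  unfold fac phi
  rcases le_total 0 y with hy | hy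
  · rw [abs_of_nonneg hy] at h
    rw [Real.smoothTransition.zero_of_nonpos (by linarith : 1 - 2 * (y - τ - κ) ≤ 0), zero_mul]
  · rw [abs_of_nonpos hy] at h
    rw [Real.smoothTransition.zero_of_nonpos (by linarith : 1 - 2 * (-y - τ - κ) ≤ 0), mul_zero]
theorem fac_shift (κ y y' τ h : ℝ) (hh : |y - y'| ≤ h) : fac κ y (τ - h) ≤ fac κ y' τ := by
  have h1 := abs_le.1 hh
  exact mul_le_mul (fac_aux_anti (by linarith [h1.1])) (fac_aux_anti (by linarith [h1.2]))
    (fac_aux_nonneg _) (fac_aux_nonneg _)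
theorem fac_contDiff (κ : ℝ) : ContDiff ℝ 2 (fun p : ℝ × ℝ => fac κ p.1 p.2) := by
  have hphi : ContDiff ℝ 2 phi := by
    have h1 : ContDiff ℝ 2 (fun s : ℝ => 1 - 2 * s) := by fun_prop
    exact (Real.smoothTransition.contDiff (n := 2)).comp h1
  have h2 : ContDiff ℝ 2 (fun p : ℝ × ℝ => p.1 - p.2 - κ) := by fun_prop
  have h3 : ContDiff ℝ 2 (fun p : ℝ × ℝ => -p.1 - p.2 - κ) := by fun_prop
  exact (hphi.comp h2).mul (hphi.comp h3)

end Pool.Agent.Helper983.SL
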