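import Pool.Agent.Helper983.SL.Defs
import Pool.Agent.Helper983.SL.P_fac

set_option autoImplicit false

namespace Pool.Agent.Helper983.SL

open Finset

variable (D : Design)



theorem Pr_nonneg {I : Type*} (κ : I → ℝ) (y : I → ℝ) (τ : ℝ) : 0 ≤ Pr κ y τ := by
  unfold Pr
  exact le_ciInf fun F => Finset.prod_nonneg fun p _ => fac_nonneg _ _ _

theorem Pr_bdd {I : Type*} (κ : I → ℝ) (y : I → ℝ) (τ : ℝ) :
    BddBelow (Set.range fun F : Finset I => ∏ p ∈ F, fac (κ p) (y p) τ) := by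
  refine ⟨0, ?_⟩
  rintro _ ⟨F, rfl⟩
  exact Finset.prod_nonneg fun p _ => fac_nonneg _ _ _

theorem Pr_le_prod {I : Type*} (κ : I → ℝ) (y : I → ℝ) (τ : ℝ) (F : Finset I) :
    Pr κ y τ ≤ ∏ p ∈ F, fac (κ p) (y p) τ := by
  unfold Pr
  exact ciInf_le (Pr_bdd κ y τ) F

theorem Pr_shift {I : Type*} (κ : I → ℝ) (y y' : I → ℝ) (τ h : ℝ)
    (hh : ∀ p, |y p - y' p| ≤ h) : Pr κ y (τ - h) ≤ Pr κ y' τ := by
  conv_rhs => unfold Pr
  refine le_ciInf fun F => (Pr_le_prod κ y (τ - h) F).trans ?_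
  exact Finset.prod_le_prod (fun p _ => fac_nonneg _ _ _) fun p _ => fac_shift _ _ _ _ _ (hh p)

theorem Pr_local {I : Type*} (κ : I → ℝ) (y : I → ℝ) (τ : ℝ) (F : Finset I)
    (h : ∀ p, p ∉ F → fac (κ p) (y p) τ = 1 ∨ ∏ q ∈ F, fac (κ q) (y q) τ = 0) :
    Pr κ y τ = ∏ p ∈ F, fac (κ p) (y p) τ := by
  classical
  refine le_antisymm (Pr_le_prod κ y τ F) ?_
  unfold Pr
  refine le_ciInf fun G => ?_
  by_cases h0 : ∏ q ∈ F, fac (κ q) (y q) τ = 0
  · rw [h0]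
    exact Finset.prod_nonneg fun p _ => fac_nonneg _ _ _
  · have h1 : ∀ p, p ∉ F → fac (κ p) (y p) τ = 1 := fun p hp => (h p hp).resolve_right h0
    have h2 : ∏ p ∈ G, fac (κ p) (y p) τ = ∏ p ∈ G ∩ F, fac (κ p) (y p) τ := by
      symm
      refine Finset.prod_subset Finset.inter_subset_left fun p hp hpn => ?_
      exact h1 p fun hpF => hpn (Finset.mem_inter.2 ⟨hp, hpF⟩)
    rw [h2, ← Finset.prod_sdiff (Finset.inter_subset_right : G ∩ F ⊆ F)]
    refine mul_le_of_le_one_left (Finset.prod_nonneg fun p _ => fac_nonneg _ _ _) ?_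
    exact Finset.prod_le_one (fun p _ => fac_nonneg _ _ _) fun p _ => fac_le_one _ _ _

end Pool.Agent.Helper983.SL
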