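import Pool.Agent.Helper983.SL.Defs
import Pool.Agent.Helper983.SL.P_fac
import Pool.Agent.Helper983.SL.P_Pr_facts

set_option autoImplicit false

namespace Pool.Agent.Helper983.SL

open Finset

variable (D : Design)



theorem Fb_lip_mono {I : Type*} (κ : I → ℝ) (y : I → ℝ) : Monotone (fun τ => Pr κ y τ) := by
  intro a b hab
  have h1 := Pr_shift κ y y b (b - a) (fun p => by simpa using sub_nonneg.mpr hab)
  rw [sub_sub_cancel] at h1
  exact h1

theorem Fb_lip_le_one {I : Type*} (κ : I → ℝ) (y : I → ℝ) (τ : ℝ) : Pr κ y τ ≤ 1 := by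
  have h1 := Pr_le_prod κ y τ ∅
  rwa [Finset.prod_empty] at h1

theorem Fb_lip_half {I : Type*} (κ : I → ℝ) (y y' : I → ℝ) (h : ℝ) (h0 : 0 ≤ h)
    (hh : ∀ p, |y p - y' p| ≤ h) : Fb κ y - Fb κ y' ≤ h := by
  have hint : ∀ (y : I → ℝ) (a b : ℝ),
      IntervalIntegrable (fun τ => Pr κ y τ) MeasureTheory.volume a b :=
    fun y a b => (Fb_lip_mono κ y).intervalIntegrable
  have h1 : ∫ τ in (1 : ℝ)..2, Pr κ y (τ - h) ≤ Fb κ y' := by
    unfold Fb
    apply intervalIntegral.integral_mono_on (by norm_num) _ (hint y' 1 2)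
    · intro τ _
      exact Pr_shift κ y y' τ h hh
    · have hm : Monotone (fun τ => Pr κ y (τ - h)) := fun a b hab =>
        Fb_lip_mono κ y (sub_le_sub_right hab h)
      exact hm.intervalIntegrable
  rw [intervalIntegral.integral_comp_sub_right (fun τ => Pr κ y τ) h] at h1
  have h2 := intervalIntegral.integral_add_adjacent_intervals (hint y (1 - h) (2 - h))
    (hint y (2 - h) 2)
  have h3 := intervalIntegral.integral_add_adjacent_intervals (hint y (1 - h) 1) (hint y 1 2)
  have h4 : ∫ τ in (2 - h)..2, Pr κ y τ ≤ h := by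
    calc ∫ τ in (2 - h)..2, Pr κ y τ ≤ ∫ τ in (2 - h)..2, (1 : ℝ) :=
          intervalIntegral.integral_mono_on (by linarith) (hint y _ _)
            intervalIntegrable_const (fun τ _ => Fb_lip_le_one κ y τ)
      _ = h := by
          rw [intervalIntegral.integral_const]
          simp
  have h5 : 0 ≤ ∫ τ in (1 - h)..1, Pr κ y τ :=
    intervalIntegral.integral_nonneg (by linarith) (fun τ _ => Pr_nonneg κ y τ)
  have h6 : Fb κ y = ∫ τ in (1 : ℝ)..2, Pr κ y τ := rfl
  rw [h6]
  linarith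

theorem Fb_lip {I : Type*} (κ : I → ℝ) (y y' : I → ℝ) (h : ℝ) (h0 : 0 ≤ h)
    (hh : ∀ p, |y p - y' p| ≤ h) : |Fb κ y - Fb κ y'| ≤ h := by
  rw [abs_le]
  constructor
  · have := Fb_lip_half κ y' y h h0 (fun p => by rw [abs_sub_comm]; exact hh p)
    linarith
  · exact Fb_lip_half κ y y' h h0 hh

end Pool.Agent.Helper983.SL
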