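import Pool.Agent.Helper983.SL.Defs
import Pool.Agent.Helper983.SL.P_fac

set_option autoImplicit false

namespace Pool.Agent.Helper983.SL

open Finset

variable (D : Design)



theorem contDiff_int_11413 {E : Type*} [NormedAddCommGroup E] [NormedSpace ℝ E] [ProperSpace E]
    (R : E × ℝ → ℝ) (hR : ContDiff ℝ 1 R) (a b : ℝ) :
    ContDiff ℝ 1 (fun y : E => ∫ τ in a..b, R (y, τ)) := by
  set F' : E → ℝ → (E →L[ℝ] ℝ) := fun y τ =>
    (fderiv ℝ R (y, τ)).comp (ContinuousLinearMap.inl ℝ E ℝ) with hF'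
  have hcF : Continuous (fun p : E × ℝ => F' p.1 p.2) := by
    have h1 : Continuous (fderiv ℝ R) := hR.continuous_fderiv (by norm_num)
    exact h1.clm_comp continuous_const
  have hdR : ∀ y τ, HasFDerivAt (fun y => R (y, τ)) (F' y τ) y := by
    intro y τ
    have h1 : HasFDerivAt R (fderiv ℝ R (y, τ)) (y, τ) :=
      ((hR.differentiable (by norm_num)) (y, τ)).hasFDerivAt
    exact h1.comp y (hasFDerivAt_prodMk_left y τ)
  have hmain : ∀ x₀ : E, HasFDerivAt (fun y : E => ∫ τ in a..b, R (y, τ))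
      (∫ τ in a..b, F' x₀ τ) x₀ := by
    intro x₀
    have hK : IsCompact (Metric.closedBall x₀ 1 ×ˢ Set.uIcc a b) :=
      (isCompact_closedBall x₀ 1).prod isCompact_uIcc
    obtain ⟨C, hC⟩ := hK.exists_bound_of_continuousOn hcF.continuousOn
    refine intervalIntegral.hasFDerivAt_integral_of_dominated_of_fderiv_le
      (F := fun y τ => R (y, τ)) (F' := F') (bound := fun _ => C)
      (Metric.closedBall_mem_nhds x₀ one_pos) ?_ ?_ ?_ ?_ ?_ ?_
    · refine Filter.Eventually.of_forall fun x => ?_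
      exact (hR.continuous.comp (Continuous.prodMk_right x)).aestronglyMeasurable
    · exact (hR.continuous.comp (Continuous.prodMk_right x₀)).intervalIntegrable _ _
    · exact (hcF.comp (Continuous.prodMk_right x₀)).aestronglyMeasurable
    · refine Filter.Eventually.of_forall fun t ht x hx => ?_
      exact hC (x, t) ⟨hx, Set.uIoc_subset_uIcc ht⟩
    · exact intervalIntegrable_const
    · refine Filter.Eventually.of_forall fun t _ x _ => hdR x t
  rw [contDiff_one_iff_fderiv]
  refine ⟨fun x => (hmain x).differentiableAt, ?_⟩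
  have : fderiv ℝ (fun y : E => ∫ τ in a..b, R (y, τ)) = fun x => ∫ τ in a..b, F' x τ := by
    funext x
    exact (hmain x).fderiv
  rw [this]
  exact intervalIntegral.continuous_parametric_intervalIntegral_of_continuous' hcF a b

theorem H_contDiff {ι : Type*} [Fintype ι] (κ : ι → ℝ) :
    ContDiff ℝ 1 (fun y : ι → ℝ => ∫ τ in (1 : ℝ)..2, ∏ p, fac (κ p) (y p) τ) := by
  refine contDiff_int_11413 (fun q : (ι → ℝ) × ℝ => ∏ p, fac (κ p) (q.1 p) q.2) ?_ 1 2
  refine contDiff_prod fun p _ => ?_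
  have h1 : ContDiff ℝ 1 (fun p' : ℝ × ℝ => fac (κ p) p'.1 p'.2) :=
    (fac_contDiff (κ p)).of_le (by norm_num)
  have h2 : ContDiff ℝ 1 (fun q : (ι → ℝ) × ℝ => (q.1 p, q.2)) := by
    refine ContDiff.prodMk ?_ contDiff_snd
    exact (contDiff_apply ℝ ℝ p).comp contDiff_fst
  exact h1.comp h2

end Pool.Agent.Helper983.SL
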