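import Pool.Agent.Helper983.SL.Defs
import Pool.Agent.Helper983.SL.P_fac
import Pool.Agent.Helper983.SL.P_Pr_facts
import Pool.Agent.Helper983.SL.P_Fb_lip
import Pool.Agent.Helper983.SL.P_H_contDiff

set_option autoImplicit false

namespace Pool.Agent.Helper983.SL

open Finset

variable (D : Design)



theorem bump_abstract {X : Type*} [NormedAddCommGroup X] [NormedSpace ℝ X] {I : Type*}
    (ℓ : I → X →L[ℝ] ℝ) (κ : I → ℝ) (hκ : ∀ p, κ p = 0 ∨ κ p = 1)
    (h1 : ∀ p x, |ℓ p x| ≤ 2 * ‖x‖)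
    (h2 : ∀ x (c : ℝ), 0 ≤ c → (∀ p, κ p = 1 → |ℓ p x| ≤ c) → ‖x‖ ≤ c)
    (h3 : ∀ x, ∃ F : Finset I, ∀ p, p ∉ F → |ℓ p x| ≤ 1 / 2 ∨
      (κ p = 1 ∧ ∃ q ∈ F, κ q = 0 ∧ |ℓ p x| ≤ |ℓ q x| + 1 / 8)) :
    ∃ b : X → ℝ, ContDiff ℝ 1 b ∧ (∃ K, LipschitzWith K b) ∧
    (∃ x, b x ≠ 0) ∧ Bornology.IsBounded (Function.support b) := by
  have hκ0 : ∀ p, 0 ≤ κ p := fun p => by rcases hκ p with h | h <;> rw [h] <;> norm_num
  refine ⟨fun x => Fb κ (fun p => ℓ p x), ?_, ⟨2, ?_⟩, ⟨0, ?_⟩, ?_⟩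
  · rw [contDiff_iff_contDiffAt]
    intro x0
    obtain ⟨F, hF⟩ := h3 x0
    have hH : ContDiff ℝ 1 (fun y : F → ℝ => ∫ τ in (1 : ℝ)..2, ∏ p : F, fac (κ p) (y p) τ) :=
      H_contDiff (fun p : F => κ p)
    have hL : ContDiff ℝ 1 (fun x : X => fun p : F => ℓ p x) :=
      contDiff_pi.2 (fun p => (ℓ p).contDiff)
    refine (hH.comp hL).contDiffAt.congr_of_eventuallyEq ?_
    filter_upwards [Metric.ball_mem_nhds x0 (by norm_num : (0:ℝ) < 1/32)] with x hx
    show Fb κ (fun p => ℓ p x) = ∫ τ in (1:ℝ)..2, ∏ p : F, fac (κ p) (ℓ p x) τ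
    unfold Fb
    apply intervalIntegral.integral_congr
    intro τ hτ
    rw [Set.uIcc_of_le (by norm_num)] at hτ
    show Pr κ (fun p => ℓ p x) τ = ∏ p : F, fac (κ p) (ℓ p x) τ
    have hd : ∀ p, |ℓ p x - ℓ p x0| ≤ 1 / 16 := by
      intro p
      rw [← map_sub]
      refine (h1 p _).trans ?_
      rw [Metric.mem_ball, dist_eq_norm] at hx
      linarith
    rw [Pr_local κ (fun p => ℓ p x) τ F, ← Finset.prod_coe_sort]
    intro p hp
    rcases hF p hp with h | ⟨hp1, q, hq, hq0, h⟩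
    · left
      apply fac_one
      have e1 := abs_le.1 (hd p)
      have e2 := abs_le.1 h
      have e3 := hκ0 p
      rw [abs_le]
      constructor <;> linarith [hτ.1]
    · have e0 : |ℓ p x| ≤ |ℓ q x| + 1 / 4 := by
        have a1 : |ℓ p x| ≤ |ℓ p x0| + 1 / 16 := by
          have := abs_sub_abs_le_abs_sub (ℓ p x) (ℓ p x0)
          linarith [hd p]
        have a2 : |ℓ q x0| ≤ |ℓ q x| + 1 / 16 := by
          have := abs_sub_abs_le_abs_sub (ℓ q x0) (ℓ q x)
          rw [abs_sub_comm] at this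
          linarith [hd q]
        linarith
      by_cases h5 : |ℓ p x| ≤ τ + κ p
      · left
        exact fac_one _ _ _ h5
      · right
        push Not at h5
        apply Finset.prod_eq_zero hq
        apply fac_zero
        rw [hq0]
        rw [hp1] at h5
        linarith
  · refine LipschitzWith.of_dist_le_mul (fun x y => ?_)
    rw [Real.dist_eq, dist_eq_norm]
    refine Fb_lip κ _ _ _ (by positivity) (fun p => ?_)
    rw [← map_sub]
    exact h1 p _
  · have : Fb κ (fun p => ℓ p 0) = 1 := by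
      unfold Fb
      have e : Set.EqOn (fun τ => Pr κ (fun p => ℓ p 0) τ) (fun _ => (1:ℝ)) (Set.uIcc 1 2) := by
        intro τ hτ
        rw [Set.uIcc_of_le (by norm_num)] at hτ
        show Pr κ (fun p => ℓ p 0) τ = 1
        rw [Pr_local κ (fun p => ℓ p 0) τ ∅, Finset.prod_empty]
        intro p _
        left
        apply fac_one
        rw [map_zero, abs_zero]
        linarith [hκ0 p, hτ.1]
      rw [intervalIntegral.integral_congr e]
      norm_num
    show Fb κ (fun p => ℓ p 0) ≠ 0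
    rw [this]
    exact one_ne_zero
  · refine Metric.isBounded_iff_subset_closedBall (0 : X) |>.2 ⟨4, fun x hx => ?_⟩
    rw [mem_closedBall_zero_iff]
    by_contra hc
    apply hx
    have : ∃ p, κ p = 1 ∧ 4 < |ℓ p x| := by
      by_contra hn
      push Not at hn
      exact hc (h2 x 4 (by norm_num) hn)
    obtain ⟨p, hp1, hp⟩ := this
    show Fb κ (fun p => ℓ p x) = 0
    unfold Fb
    have e : Set.EqOn (fun τ => Pr κ (fun p => ℓ p x) τ) (fun _ => (0:ℝ)) (Set.uIcc 1 2) := by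
      intro τ hτ
      rw [Set.uIcc_of_le (by norm_num)] at hτ
      show Pr κ (fun p => ℓ p x) τ = 0
      refine le_antisymm ?_ (Pr_nonneg _ _ _)
      refine (Pr_le_prod κ (fun p => ℓ p x) τ {p}).trans ?_
      rw [Finset.prod_singleton, fac_zero]
      rw [hp1]
      linarith [hτ.2]
    rw [intervalIntegral.integral_congr e]
    simp

end Pool.Agent.Helper983.SL
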