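import Pool.Agent.Helper983.SL.Defs

set_option autoImplicit false

namespace Pool.Agent.Helper983.SL

open Finset

variable (D : Design)



theorem al_add (t : Nd) (j : ℕ) (x y : L) : al D t j (x + y) = al D t j x + al D t j y := by
  unfold al
  rw [← add_div, ← Finset.sum_add_distrib]
  congr 1
  apply Finset.sum_congr rfl
  intro g _
  have : (x + y : L) (t, g) = x (t, g) + y (t, g) := rfl
  rw [this, mul_add]
theorem al_smul (t : Nd) (j : ℕ) (c : ℝ) (x : L) : al D t j (c • x) = c * al D t j x := by
  unfold al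
  rw [← mul_div_assoc, Finset.mul_sum]
  congr 1
  apply Finset.sum_congr rfl
  intro g _
  have : (c • x : L) (t, g) = c * x (t, g) := rfl
  rw [this]
  ring
theorem al_abs_le (t : Nd) (j : ℕ) (x : L) : |al D t j x| ≤ ‖x‖ := by
  unfold al
  have hM : (0 : ℝ) < D.M t.length := by exact_mod_cast D.Mpos _
  rw [abs_div, abs_of_pos hM, div_le_iff₀ hM]
  refine (Finset.abs_sum_le_sum_abs _ _).trans ?_
  have h1 : ∀ g ∈ range (D.M t.length), |D.A t.length j g * x (t, g)| ≤ ‖x‖ := by
    intro g _
    rw [abs_mul]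
    calc |D.A t.length j g| * |x (t, g)| ≤ 1 * ‖x‖ :=
          mul_le_mul (D.A1 _ _ _) (abs_apply_le x (t, g)) (abs_nonneg _) zero_le_one
      _ = ‖x‖ := one_mul _
  refine (Finset.sum_le_sum h1).trans ?_
  rw [Finset.sum_const, Finset.card_range, nsmul_eq_mul, mul_comm]
theorem al_e_aux (t : Nd) (j g : ℕ) (hg : g < D.M t.length) :
    (e D t j) (t, g) = D.A t.length j g := by
  show eF D t j (t, g) = D.A t.length j g
  unfold eF
  rw [if_pos hg, if_pos rfl]
  rcases t with _ | ⟨l, p⟩
  · simp
  · have h1 : (l :: p : Nd) ≠ p := by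
      intro h
      have := congrArg List.length h
      simp at this
    simp only [h1, if_false, add_zero]
theorem al_e (t : Nd) (j : ℕ) (hj : j < D.N t.length) : al D t j (e D t j) = 1 := by
  unfold al
  have hM : (0 : ℝ) < D.M t.length := by exact_mod_cast D.Mpos _
  have h1 : ∑ g ∈ range (D.M t.length), D.A t.length j g * (e D t j) (t, g) =
      ∑ g ∈ range (D.M t.length), D.A t.length j g * D.A t.length j g := by
    apply Finset.sum_congr rfl
    intro g hg
    rw [al_e_aux D t j g (Finset.mem_range.1 hg)]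
  rw [h1, D.AA _ _ _ hj hj, if_pos rfl, div_self hM.ne']

end Pool.Agent.Helper983.SL
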