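import Pool.Agent.Helper983.SL.Defs

set_option autoImplicit false

namespace Pool.Agent.Helper983.SL

open Finset

variable (D : Design)



theorem nd_length (b : ℕ → C) (k : ℕ) : (nd b k).length = k := by
  induction k with
  | zero => simp [nd]
  | succ k ih => simp [nd, ih]

end Pool.Agent.Helper983.SL
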