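import Pool.Agent.Helper983.SL.Defs
import Pool.Agent.Helper983.SL.P_nd_length
import Pool.Agent.Helper983.SL.P_al_linear

set_option autoImplicit false

namespace Pool.Agent.Helper983.SL

open Finset

variable (D : Design)



/-- the sequence defining the coefficient functional -/
noncomputable def exists_coef_sq (b : ℕ → C) (x : L) (k : ℕ) : ℝ :=
  sg (b k).2 * al D (nd b k) (b k).1 x

theorem exists_coef_sg (c : Bool) : |sg c| = 1 ∧ sg c * sg c = 1 := by
  unfold sg
  cases c <;> simp

theorem exists_coef_bd (b : ℕ → C) (x : L) (k : ℕ) : |exists_coef_sq D b x k| ≤ ‖x‖ := by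
  unfold exists_coef_sq
  rw [abs_mul, (exists_coef_sg _).1, one_mul]
  exact al_abs_le D _ _ x

theorem exists_coef_lim (b : ℕ → C) (x : L) : ∃ r : ℝ, |r| ≤ ‖x‖ ∧
    Filter.Tendsto (exists_coef_sq D b x) (Filter.hyperfilter ℕ) (nhds r) := by
  have h1 : ((Ultrafilter.map (exists_coef_sq D b x) (Filter.hyperfilter ℕ) : Ultrafilter ℝ) :
      Filter ℝ) ≤ Filter.principal (Set.Icc (-‖x‖) ‖x‖) := by
    rw [Filter.le_principal_iff, Ultrafilter.coe_map, Filter.mem_map]
    refine Filter.univ_mem' (fun k => ?_)
    exact abs_le.1 (exists_coef_bd D b x k)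
  obtain ⟨r, hr, hr2⟩ := isCompact_Icc.ultrafilter_le_nhds _ h1
  refine ⟨r, abs_le.2 hr, ?_⟩
  rw [Ultrafilter.coe_map] at hr2
  exact hr2

/-- the limit -/
noncomputable def exists_coef_l (b : ℕ → C) (x : L) : ℝ := (exists_coef_lim D b x).choose

theorem exists_coef_l_abs (b : ℕ → C) (x : L) : |exists_coef_l D b x| ≤ ‖x‖ :=
  (exists_coef_lim D b x).choose_spec.1

theorem exists_coef_l_tendsto (b : ℕ → C) (x : L) :
    Filter.Tendsto (exists_coef_sq D b x) (Filter.hyperfilter ℕ) (nhds (exists_coef_l D b x)) :=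
  (exists_coef_lim D b x).choose_spec.2

theorem exists_coef_l_eq (b : ℕ → C) (x : L) {r : ℝ}
    (h : Filter.Tendsto (exists_coef_sq D b x) (Filter.hyperfilter ℕ) (nhds r)) :
    exists_coef_l D b x = r :=
  tendsto_nhds_unique (exists_coef_l_tendsto D b x) h

theorem exists_coef_l_ev (b : ℕ → C) (x : L) (r : ℝ) (m : ℕ)
    (h : ∀ k, m ≤ k → exists_coef_sq D b x k = r) : exists_coef_l D b x = r := by
  apply exists_coef_l_eq
  have h1 : ∀ᶠ k in (Filter.hyperfilter ℕ : Filter ℕ), exists_coef_sq D b x k = r := by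
    have h2 : ∀ᶠ k in Filter.atTop, exists_coef_sq D b x k = r :=
      Filter.eventually_atTop.2 ⟨m, h⟩
    rw [← Nat.cofinite_eq_atTop] at h2
    exact Filter.hyperfilter_le_cofinite h2
  exact (tendsto_const_nhds (x := r)).congr' (h1.mono (fun k hk => hk.symm))

/-- the functional -/
noncomputable def exists_coef_f (b : ℕ → C) : L →L[ℝ] ℝ :=
  LinearMap.mkContinuous
    { toFun := exists_coef_l D b
      map_add' := fun x y => by
        apply exists_coef_l_eq
        refine ((exists_coef_l_tendsto D b x).add (exists_coef_l_tendsto D b y)).congr ?_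
        intro k
        unfold exists_coef_sq
        rw [al_add]
        ring
      map_smul' := fun c x => by
        apply exists_coef_l_eq
        refine ((exists_coef_l_tendsto D b x).const_mul c).congr ?_
        intro k
        unfold exists_coef_sq
        rw [al_smul]
        ring } 1 (fun x => by
          rw [one_mul, Real.norm_eq_abs]
          exact exists_coef_l_abs D b x)

theorem exists_coef_f_apply (b : ℕ → C) (x : L) :
    exists_coef_f D b x = exists_coef_l D b x := rfl

theorem exists_coef_al_zero (t : Nd) (j : ℕ) (x : L) (h : ∀ g, x (t, g) = 0) :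
    al D t j x = 0 := by
  unfold al
  rw [Finset.sum_eq_zero, zero_div]
  intro g _
  rw [h g, mul_zero]

theorem exists_coef_nd (b b' : ℕ → C) (k : ℕ) (h : nd b k = nd b' k) :
    ∀ i < k, b i = b' i := by
  induction k with
  | zero => intro i hi; omega
  | succ k ih =>
    intro i hi
    have h1 : b k :: nd b k = b' k :: nd b' k := h
    rw [List.cons.injEq] at h1
    rcases Nat.lt_succ_iff_lt_or_eq.1 hi with h2 | h2
    · exact ih h1.2 i h2
    · rw [h2]
      exact h1.1

theorem exists_coef : ∃ cf : (ℕ → C) → L →L[ℝ] ℝ, (∀ b x, |cf b x| ≤ ‖x‖) ∧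
    (∀ b t j, cf b (e D t j) = 0) ∧
    (∀ b, Vb D b → cf b (u D b) = 1) ∧
    (∀ b b', Vb D b → Vb D b' → b ≠ b' → cf b (u D b') = 0) := by
  refine ⟨exists_coef_f D, fun b x => exists_coef_l_abs D b x, ?_, ?_, ?_⟩
  · intro b t j
    rw [exists_coef_f_apply]
    refine exists_coef_l_ev D b _ 0 (t.length + 1) (fun k hk => ?_)
    unfold exists_coef_sq
    rw [exists_coef_al_zero, mul_zero]
    intro g
    show eF D t j (nd b k, g) = 0
    have hlen := nd_length b k
    unfold eF
    have h1 : nd b k ≠ t := by
      intro h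
      rw [h] at hlen
      omega
    split_ifs with h2
    · rw [zero_add]
      rcases t with _ | ⟨l, p⟩
      · rfl
      · have h3 : nd b k ≠ p := by
          intro h
          rw [h] at hlen
          rw [List.length_cons] at hk
          omega
        exact if_neg h3
    · rfl
  · intro b hb
    rw [exists_coef_f_apply]
    refine exists_coef_l_ev D b _ 1 0 (fun k _ => ?_)
    have h1 : al D (nd b k) (b k).1 (u D b) = sg (b k).2 := by
      unfold al
      have hM : (D.M k : ℝ) ≠ 0 := Nat.cast_ne_zero.2 (D.Mpos k).ne'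
      rw [nd_length]
      have h2 : ∀ g ∈ range (D.M k), D.A k (b k).1 g * (u D b) (nd b k, g) =
          sg (b k).2 * (D.A k (b k).1 g * D.A k (b k).1 g) +
            sg (b (k + 1)).2 * (D.A k (b k).1 g * D.B k (b k) (b (k + 1)).1 g) := by
        intro g hg
        rw [mem_range] at hg
        have h3 : (u D b) (nd b k, g) = sg (b k).2 * D.A k (b k).1 g +
            sg (b (k + 1)).2 * D.B k (b k) (b (k + 1)).1 g := by
          show uF D b (nd b k, g) = _
          unfold uF
          simp only [nd_length]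
          rw [if_pos ⟨hg, trivial⟩]
        rw [h3]
        ring
      rw [Finset.sum_congr rfl h2, Finset.sum_add_distrib, ← Finset.mul_sum, ← Finset.mul_sum,
        D.AA k _ _ (hb k) (hb k), if_pos rfl, D.AB, mul_zero, add_zero,
        mul_div_cancel_right₀ _ hM]
    unfold exists_coef_sq
    rw [h1]
    exact (exists_coef_sg _).2
  · intro b b' hb hb' hne
    rw [exists_coef_f_apply]
    obtain ⟨k1, hk1⟩ := Function.ne_iff.1 hne
    refine exists_coef_l_ev D b _ 0 (k1 + 1) (fun k hk => ?_)
    unfold exists_coef_sq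
    rw [exists_coef_al_zero, mul_zero]
    intro g
    show uF D b' (nd b k, g) = 0
    unfold uF
    rw [if_neg]
    rintro ⟨-, h⟩
    have h' : nd b k = nd b' (nd b k).length := h
    rw [nd_length] at h'
    exact hk1 (exists_coef_nd b b' k h' k1 (by omega))

end Pool.Agent.Helper983.SL
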