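import Pool.Agent.Helper983.SL.Defs
import Pool.Agent.Helper983.SL.P_nd_length
import Pool.Agent.Helper983.SL.P_al_linear

set_option autoImplicit false

namespace Pool.Agent.Helper983.SL

open Finset

variable (D : Design)



theorem star_nd (b b' : ℕ → C) (k : ℕ) (h : nd b k = nd b' k) : ∀ i < k, b i = b' i := by
  induction k with
  | zero => intro i hi; omega
  | succ k ih =>
    simp only [nd, List.cons.injEq] at h
    intro i hi
    rcases Nat.lt_succ_iff_lt_or_eq.1 hi with h1 | rfl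
    · exact ih h.2 i h1
    · exact h.1

theorem star_e_supp (t : Nd) (j : ℕ) : ∃ F' : Finset Om, ∀ w ∉ F', (e D t j) w = 0 := by
  refine ⟨({t, t.tail} : Finset Nd) ×ˢ range (D.M t.length + D.M t.tail.length), ?_⟩
  intro w hw
  by_contra h0
  apply hw
  have key : w.2 < D.M w.1.length ∧ (w.1 = t ∨ w.1 = t.tail) := by
    by_contra hk
    apply h0
    show eF D t j w = 0
    unfold eF
    by_cases h1 : w.2 < D.M w.1.length
    · rw [if_pos h1]
      have h2 : ¬ (w.1 = t ∨ w.1 = t.tail) := fun h => hk ⟨h1, h⟩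
      push Not at h2
      rcases t with _ | ⟨l, p⟩
      · rw [if_neg h2.1]
        simp
      · rw [if_neg h2.1]
        have h3 : w.1 ≠ p := h2.2
        simp [h3]
    · rw [if_neg h1]
  obtain ⟨h1, h2⟩ := key
  rw [mem_product]
  refine ⟨?_, ?_⟩
  · rcases h2 with h | h <;> simp [h]
  · rw [mem_range]
    rcases h2 with h | h <;> rw [h] at h1 <;> omega

theorem star_Es (cf : (ℕ → C) → L →L[ℝ] ℝ) (c2 : ∀ b t j, cf b (e D t j) = 0) (z : L)
    (hz : z ∈ Submodule.span ℝ (Es D)) :
    (∃ F' : Finset Om, ∀ w ∉ F', z w = 0) ∧ ∀ b, cf b z = 0 := by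
  classical
  induction hz using Submodule.span_induction with
  | mem x hx =>
    obtain ⟨⟨t, j⟩, rfl⟩ := hx
    exact ⟨star_e_supp D t j, fun b => c2 b t j⟩
  | zero => exact ⟨⟨∅, fun w _ => rfl⟩, fun b => map_zero _⟩
  | add x y _ _ hx hy =>
    obtain ⟨⟨F1, h1⟩, h2⟩ := hx
    obtain ⟨⟨F2, h3⟩, h4⟩ := hy
    refine ⟨⟨F1 ∪ F2, fun w hw => ?_⟩, fun b => by rw [map_add, h2, h4, add_zero]⟩
    rw [mem_union, not_or] at hw
    have : (x + y) w = x w + y w := rfl
    rw [this, h1 w hw.1, h3 w hw.2, add_zero]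
  | smul a x _ hx =>
    obtain ⟨⟨F1, h1⟩, h2⟩ := hx
    refine ⟨⟨F1, fun w hw => ?_⟩, fun b => by rw [map_smul, h2, smul_zero]⟩
    have : (a • x) w = a * x w := rfl
    rw [this, h1 w hw, mul_zero]

theorem star_sum_apply {I : Type*} (F : Finset I) (f : I → L) (w : Om) :
    (∑ i ∈ F, f i) w = ∑ i ∈ F, f i w := by
  classical
  induction F using Finset.induction_on with
  | empty => rfl
  | insert a s ha ih =>
    rw [sum_insert ha, sum_insert ha, ← ih]
    rfl

theorem star (cf : (ℕ → C) → L →L[ℝ] ℝ) (c1 : ∀ b x, |cf b x| ≤ ‖x‖)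
    (c2 : ∀ b t j, cf b (e D t j) = 0) (c3 : ∀ b, Vb D b → cf b (u D b) = 1)
    (c4 : ∀ b b', Vb D b → Vb D b' → b ≠ b' → cf b (u D b') = 0) (x : L) (hx : x ∈ Xs D) :
    ∃ (F : Finset (Br D)) (F' : Finset Om), (∀ b : Br D, b ∉ F → |2 * cf b.1 x| ≤ 1 / 2) ∧
      ∀ w, w ∉ F' → |x w| ≤ 1 / 2 ∨ ∃ b ∈ F, |x w| ≤ |2 * cf b.1 x| + 1 / 8 := by
  classical
  have hx' : x ∈ closure ((Submodule.span ℝ (Es D ∪ Us D) : Submodule ℝ L) : Set L) := hx
  obtain ⟨x1, hx1, hd⟩ := Metric.mem_closure_iff.1 hx' (1 / 64) (by norm_num)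
  rw [dist_eq_norm] at hd
  have hU : Us D = Set.range (fun b : Br D => u D b.1) := by
    ext y
    constructor
    · rintro ⟨b, hb, rfl⟩
      exact ⟨⟨b, hb⟩, rfl⟩
    · rintro ⟨b, rfl⟩
      exact ⟨b.1, b.2, rfl⟩
  rw [SetLike.mem_coe, Submodule.span_union, Submodule.mem_sup] at hx1
  obtain ⟨z, hz, y, hy, hzy⟩ := hx1
  rw [hU] at hy
  obtain ⟨ξ, hξ⟩ := (Finsupp.mem_span_range_iff_exists_finsupp).1 hy
  obtain ⟨⟨Fz, hFz⟩, hcz⟩ := star_Es D cf c2 z hz
  have hy2 : y = ∑ b ∈ ξ.support, ξ b • u D b.1 := by rw [← hξ]; rfl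
  have hcy : ∀ b : Br D, cf b.1 x1 = ξ b := by
    intro b
    rw [← hzy, map_add, hcz, zero_add, hy2, map_sum]
    have : ∀ b' ∈ ξ.support, cf b.1 (ξ b' • u D b'.1) = if b' = b then ξ b else 0 := by
      intro b' _
      rw [map_smul, smul_eq_mul]
      split_ifs with h
      · rw [h, c3 b.1 b.2, mul_one]
      · rw [c4 b.1 b'.1 b.2 b'.2 (fun h' => h (Subtype.ext h'.symm)), mul_zero]
    rw [sum_congr rfl this, sum_ite_eq' ξ.support b]
    split_ifs with h
    · rfl
    · exact (Finsupp.notMem_support_iff.1 h).symm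
  have hdx : ∀ b : ℕ → C, |cf b x - cf b x1| ≤ 1 / 64 := by
    intro b
    rw [← map_sub]
    exact (c1 b _).trans hd.le
  obtain ⟨K, hK⟩ : ∃ K, ∀ b ∈ ξ.support, ∀ b' ∈ ξ.support, b ≠ b' → ∀ k, K ≤ k →
      nd b.1 k ≠ nd b'.1 k := by
    have : ∀ᶠ k in Filter.atTop, ∀ b ∈ ξ.support, ∀ b' ∈ ξ.support, b ≠ b' →
        nd b.1 k ≠ nd b'.1 k := by
      rw [Filter.eventually_all_finset]
      intro b _
      rw [Filter.eventually_all_finset]
      intro b' _
      by_cases hbb : b = b'
      · exact Filter.Eventually.of_forall fun k h => absurd hbb h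
      · have : ∃ i, b.1 i ≠ b'.1 i := by
          by_contra hcon
          push Not at hcon
          exact hbb (Subtype.ext (funext hcon))
        obtain ⟨i, hi⟩ := this
        filter_upwards [Filter.eventually_gt_atTop i] with k hk _ h
        exact hi (star_nd _ _ k h i hk)
    obtain ⟨K, hK⟩ := Filter.eventually_atTop.1 this
    exact ⟨K, fun b hb b' hb' hne k hk => hK k hk b hb b' hb' hne⟩
  refine ⟨ξ.support, Fz ∪ ξ.support.biUnion (fun b => (range K).biUnion (fun k =>
    (range (D.M k)).image (fun g => (nd b.1 k, g)))), ?_, ?_⟩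
  · intro b hb
    have h1 := hdx b.1
    rw [hcy b, Finsupp.notMem_support_iff.1 hb, sub_zero] at h1
    rw [abs_mul, abs_two]
    linarith
  · intro w hw
    rw [mem_union, not_or] at hw
    obtain ⟨hw1, hw2⟩ := hw
    have hxw : |x w - x1 w| ≤ 1 / 64 := by
      have : (x - x1) w = x w - x1 w := rfl
      rw [← this]
      exact (abs_apply_le _ w).trans hd.le
    have hx1w : x1 w = ∑ b ∈ ξ.support, ξ b * uF D b.1 w := by
      have : x1 w = z w + y w := by rw [← hzy]; rfl
      rw [this, hFz w hw1, zero_add, hy2, star_sum_apply]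
      rfl
    by_cases hex : ∃ b ∈ ξ.support, w.2 < D.M w.1.length ∧ w.1 = nd b.1 w.1.length
    · obtain ⟨b, hb, hwM, hwb⟩ := hex
      right
      refine ⟨b, hb, ?_⟩
      have hKw : K ≤ w.1.length := by
        by_contra hlt
        push Not at hlt
        apply hw2
        rw [mem_biUnion]
        refine ⟨b, hb, ?_⟩
        rw [mem_biUnion]
        refine ⟨w.1.length, mem_range.2 hlt, ?_⟩
        rw [mem_image]
        refine ⟨w.2, mem_range.2 hwM, ?_⟩
        rw [← hwb]
      have hs : x1 w = ξ b * uF D b.1 w := by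
        rw [hx1w]
        apply sum_eq_single b
        · intro b' hb' hne
          have : ¬ (w.2 < D.M w.1.length ∧ w.1 = nd b'.1 w.1.length) := by
            rintro ⟨-, h⟩
            exact hK b' hb' b hb hne w.1.length hKw (h.symm.trans hwb)
          unfold uF
          rw [if_neg this, mul_zero]
        · intro h
          exact absurd hb h
      have h1 : |x1 w| ≤ 2 * |ξ b| := by
        rw [hs, abs_mul]
        have := uF_abs D b.1 w
        nlinarith [abs_nonneg (ξ b)]
      have h2 := hdx b.1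
      rw [hcy b] at h2
      have h3 : |x w| ≤ |x w - x1 w| + |x1 w| := by
        have := abs_add_le (x w - x1 w) (x1 w)
        simpa using this
      have h4 : |ξ b| ≤ |cf b.1 x| + |cf b.1 x - ξ b| := by
        have := abs_sub (cf b.1 x) (cf b.1 x - ξ b)
        simpa using this
      rw [abs_mul, abs_two]
      linarith
    · left
      have : x1 w = 0 := by
        rw [hx1w]
        apply sum_eq_zero
        intro b hb
        have : ¬ (w.2 < D.M w.1.length ∧ w.1 = nd b.1 w.1.length) := fun h => hex ⟨b, hb, h⟩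
        unfold uF
        rw [if_neg this, mul_zero]
      rw [this, sub_zero] at hxw
      linarith

end Pool.Agent.Helper983.SL
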