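import Pool.Agent.Helper983.SL.Defs
import Pool.Agent.Helper983.SL.P_coef
import Pool.Agent.Helper983.SL.P_bump_abstract
import Pool.Agent.Helper983.SL.P_star

set_option autoImplicit false

namespace Pool.Agent.Helper983.SL

open Finset

variable (D : Design)



theorem exists_bump : ∃ b : Xs D → ℝ, ContDiff ℝ 1 b ∧ (∃ K, LipschitzWith K b) ∧
    (∃ x, b x ≠ 0) ∧ Bornology.IsBounded (Function.support b) := by
  classical
  obtain ⟨cf, c1, c2, c3, c4⟩ := exists_coef D
  let evL : Om → L →L[ℝ] ℝ := fun w =>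
    LinearMap.mkContinuous
      { toFun := fun x : L => x w
        map_add' := fun x y => rfl
        map_smul' := fun a x => rfl } 1
      (fun x => by
        have h := abs_apply_le x w
        rw [one_mul]
        exact h)
  let ℓ : Br D ⊕ Om → Xs D →L[ℝ] ℝ :=
    Sum.elim (fun b => (2 : ℝ) • (cf b.1).comp (Xs D).subtypeL)
      (fun w => (evL w).comp (Xs D).subtypeL)
  let κ : Br D ⊕ Om → ℝ := Sum.elim (fun _ => 0) (fun _ => 1)
  have hℓl : ∀ (b : Br D) (x : Xs D), ℓ (Sum.inl b) x = 2 * cf b.1 (x : L) := fun b x => rfl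
  have hℓr : ∀ (w : Om) (x : Xs D), ℓ (Sum.inr w) x = (x : L) w := fun w x => rfl
  have hκl : ∀ b : Br D, κ (Sum.inl b) = 0 := fun b => rfl
  have hκr : ∀ w : Om, κ (Sum.inr w) = 1 := fun w => rfl
  have hnorm : ∀ x : Xs D, ‖x‖ = ‖(x : L)‖ := fun x => rfl
  refine bump_abstract ℓ κ ?_ ?_ ?_ ?_
  · rintro (b | w)
    · left; exact hκl b
    · right; exact hκr w
  · rintro (b | w) x
    · rw [hℓl, hnorm, abs_mul, abs_two]
      have := c1 b.1 (x : L)
      linarith
    · rw [hℓr, hnorm]
      have := abs_apply_le (x : L) w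
      have h0 := norm_nonneg (x : L)
      linarith
  · intro x c hc h
    rw [hnorm]
    refine norm_le_of (x : L) c hc (fun w => ?_)
    have := h (Sum.inr w) (hκr w)
    rwa [hℓr] at this
  · intro x
    obtain ⟨F, F', hF, hF'⟩ := star D cf c1 c2 c3 c4 (x : L) x.2
    refine ⟨F.disjSum F', ?_⟩
    rintro (b | w) hp
    · left
      rw [hℓl]
      apply hF
      intro hb
      exact hp (Finset.inl_mem_disjSum.2 hb)
    · rcases hF' w (fun hw => hp (Finset.inr_mem_disjSum.2 hw)) with h | ⟨b, hb, h⟩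
      · left; rw [hℓr]; exact h
      · right
        refine ⟨hκr w, Sum.inl b, Finset.inl_mem_disjSum.2 hb, hκl b, ?_⟩
        rw [hℓr, hℓl]; exact h

end Pool.Agent.Helper983.SL
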