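import Pool.Agent.Helper983.SL.Defs
import Pool.Agent.Helper983.SL.P_nd_length
import Pool.Agent.Helper983.SL.P_al_linear

set_option autoImplicit false

namespace Pool.Agent.Helper983.SL

open Finset

variable (D : Design)



/-- evaluation as a continuous functional -/
noncomputable def alch_ev (w : Om) : L →L[ℝ] ℝ :=
  LinearMap.mkContinuous
    { toFun := fun x => x w
      map_add' := fun x y => rfl
      map_smul' := fun c x => rfl } 1
    (fun x => by
      rw [one_mul, Real.norm_eq_abs]
      exact abs_apply_le x w)

theorem alch_ev_apply (w : Om) (x : L) : alch_ev w x = x w := rfl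

theorem alch_nil (s : Nd) (j g : ℕ) (hg : g < D.M s.length) :
    e D [] j (s, g) = if s = [] then D.A 0 j g else 0 := by
  show eF D [] j (s, g) = _
  simp only [eF, if_pos hg, add_zero, List.length_nil]

theorem alch_cons (l' : C) (p s : Nd) (j g : ℕ) (hg : g < D.M s.length) :
    e D (l' :: p) j (s, g) = (if s = l' :: p then D.A (p.length + 1) j g else 0) +
      (if s = p then D.B p.length l' j g else 0) := by
  show eF D (l' :: p) j (s, g) = _
  simp only [eF, if_pos hg, List.length_cons]

theorem alch_ne (a : C) (p : Nd) : a :: p ≠ p := by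
  intro h
  have := congrArg List.length h
  simp at this

theorem alch_e (t : Nd) (l : C) (i : ℕ) (hl : l.1 < D.N t.length)
    (hi : i < D.N (t.length + 1)) (t0 : Nd) (j0 : ℕ) :
    al D (l :: t) i (e D t0 j0) =
      (∑ g ∈ range (D.M t.length), D.B t.length l i g * (e D t0 j0) (t, g)) / D.M t.length := by
  have hM1 : (D.M (t.length + 1) : ℝ) ≠ 0 := by exact_mod_cast (D.Mpos _).ne'
  have hM0 : (D.M t.length : ℝ) ≠ 0 := by exact_mod_cast (D.Mpos _).ne'
  have AB' : ∀ k j l i, ∑ g ∈ range (D.M k), D.B k l i g * D.A k j g = 0 := by
    intro k j l i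
    rw [← D.AB k j l i]
    exact sum_congr rfl fun g _ => mul_comm _ _
  unfold al
  rw [List.length_cons]
  rcases t0 with _ | ⟨l', p⟩
  · have h1 : ∑ g ∈ range (D.M (t.length + 1)), D.A (t.length + 1) i g * e D [] j0 (l :: t, g) = 0 := by
      refine sum_eq_zero fun g hg => ?_
      rw [alch_nil D _ _ _ (by simpa using hg)]
      simp
    have h2 : ∑ g ∈ range (D.M t.length), D.B t.length l i g * e D [] j0 (t, g) = 0 := by
      have h3 : ∑ g ∈ range (D.M t.length), D.B t.length l i g * e D [] j0 (t, g) =
          ∑ g ∈ range (D.M t.length), D.B t.length l i g * (if t = [] then D.A 0 j0 g else 0) :=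
        sum_congr rfl fun g hg => by rw [alch_nil D _ _ _ (by simpa using hg)]
      rw [h3]
      by_cases ht : t = []
      · subst ht
        simpa using AB' 0 j0 l i
      · simp [ht]
    rw [h1, h2, zero_div, zero_div]
  · have h1 : ∑ g ∈ range (D.M (t.length + 1)), D.A (t.length + 1) i g *
        e D (l' :: p) j0 (l :: t, g) = ∑ g ∈ range (D.M (t.length + 1)), D.A (t.length + 1) i g *
          ((if l :: t = l' :: p then D.A (p.length + 1) j0 g else 0) +
            (if l :: t = p then D.B p.length l' j0 g else 0)) :=
      sum_congr rfl fun g hg => by rw [alch_cons D _ _ _ _ _ (by simpa using hg)]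
    have h2 : ∑ g ∈ range (D.M t.length), D.B t.length l i g *
        e D (l' :: p) j0 (t, g) = ∑ g ∈ range (D.M t.length), D.B t.length l i g *
          ((if t = l' :: p then D.A (p.length + 1) j0 g else 0) +
            (if t = p then D.B p.length l' j0 g else 0)) :=
      sum_congr rfl fun g hg => by rw [alch_cons D _ _ _ _ _ (by simpa using hg)]
    rw [h1, h2]
    by_cases htp : t = p
    · subst htp
      simp only [alch_ne, if_false, add_zero, if_true, (alch_ne l' t).symm, zero_add]
      by_cases hll : l = l'
      · subst hll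
        simp only [if_true]
        by_cases hj : j0 < D.N (t.length + 1)
        · rw [D.AA _ _ _ hi hj, D.BB _ _ _ _ _ hl hl hi hj]
          by_cases hij : i = j0
          · simp [hij, hM1, hM0]
          · simp [hij]
        · have e1 : ∑ g ∈ range (D.M (t.length + 1)), D.A (t.length + 1) i g *
              D.A (t.length + 1) j0 g = 0 :=
            sum_eq_zero fun g _ => by rw [D.A0 _ j0 g (not_lt.1 hj), mul_zero]
          have e2 : ∑ g ∈ range (D.M t.length), D.B t.length l i g *
              D.B t.length l j0 g = 0 :=
            sum_eq_zero fun g _ => by rw [D.B0 _ l j0 g (Or.inr (not_lt.1 hj)), mul_zero]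
          rw [e1, e2, zero_div, zero_div]
      · have hne : l :: t ≠ l' :: t := by
          intro h
          exact hll (List.cons.inj h).1
        simp only [if_neg hne, mul_zero, sum_const_zero, zero_div]
        have e2 : ∑ g ∈ range (D.M t.length), D.B t.length l i g *
            D.B t.length l' j0 g = 0 := by
          by_cases hj : l'.1 < D.N t.length ∧ j0 < D.N (t.length + 1)
          · rw [D.BB _ _ _ _ _ hl hj.1 hi hj.2, if_neg (fun h => hll h.1)]
          · refine sum_eq_zero fun g _ => ?_
            rw [D.B0 _ l' j0 g (by omega), mul_zero]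
        rw [e2, zero_div]
    · have hne : l :: t ≠ l' :: p := by
        intro h
        exact htp (List.cons.inj h).2
      simp only [if_neg hne, if_neg htp, zero_add, add_zero]
      have e1 : ∑ g ∈ range (D.M (t.length + 1)), D.A (t.length + 1) i g *
          (if l :: t = p then D.B p.length l' j0 g else 0) = 0 := by
        by_cases h : l :: t = p
        · subst h
          simpa using D.AB (t.length + 1) i l' j0
        · simp [h]
      have e2 : ∑ g ∈ range (D.M t.length), D.B t.length l i g *
          (if t = l' :: p then D.A (p.length + 1) j0 g else 0) = 0 := by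
        by_cases h : t = l' :: p
        · subst h
          simpa using AB' (p.length + 1) j0 l i
        · simp [h]
      rw [e1, e2, zero_div, zero_div]

theorem al_child (t : Nd) (l : C) (i : ℕ) (hl : l.1 < D.N t.length)
    (hi : i < D.N (t.length + 1)) (z : L) (hz : z ∈ Zs D) :
    al D (l :: t) i z =
      (∑ g ∈ range (D.M t.length), D.B t.length l i g * z (t, g)) / D.M t.length := by
  let F : L →L[ℝ] ℝ :=
    ((D.M (l :: t).length : ℝ)⁻¹) • ∑ g ∈ range (D.M (l :: t).length),
      D.A (l :: t).length i g • alch_ev (l :: t, g) -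
    ((D.M t.length : ℝ)⁻¹) • ∑ g ∈ range (D.M t.length), D.B t.length l i g • alch_ev (t, g)
  have hF : ∀ x : L, F x = al D (l :: t) i x -
      (∑ g ∈ range (D.M t.length), D.B t.length l i g * x (t, g)) / D.M t.length := by
    intro x
    simp only [F, al, _root_.sub_apply, _root_.smul_apply,
      _root_.sum_apply, alch_ev_apply, smul_eq_mul]
    rw [div_eq_inv_mul, div_eq_inv_mul]
  have hle : Zs D ≤ LinearMap.ker (F : L →ₗ[ℝ] ℝ) := by
    refine Submodule.topologicalClosure_minimal _ ?_ F.isClosed_ker
    rw [Submodule.span_le]
    rintro _ ⟨⟨t0, j0⟩, rfl⟩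
    rw [SetLike.mem_coe, LinearMap.mem_ker]
    show F (e D t0 j0) = 0
    rw [hF, alch_e D t l i hl hi t0 j0, sub_self]
  have := hle hz
  rw [LinearMap.mem_ker] at this
  have h2 : F z = 0 := this
  rw [hF] at h2
  linarith

end Pool.Agent.Helper983.SL
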