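import Pool.Agent.Helper983.SL.Defs
import Pool.Agent.Helper983.SL.P_nd_length

set_option autoImplicit false

namespace Pool.Agent.Helper983.SL

open Finset

variable (D : Design)



theorem phi_norm_sum (s : Finset ℕ) (c : ℕ → ℝ) (t : Nd) (w : Om) :
    (∑ i ∈ s, c i • e D t i : L) w = ∑ i ∈ s, c i * eF D t i w := by
  rw [lp.coeFn_sum, Finset.sum_apply]
  apply Finset.sum_congr rfl
  intro i _
  rw [lp.coeFn_smul, Pi.smul_apply, smul_eq_mul]
  rfl

theorem phi_norm_pt (t : Nd) (l : C) (hl : l.1 < D.N t.length) (g : ℕ) (hg : g < D.M t.length)
    (w : Om) :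
    |(∑ i ∈ range (D.N (t.length + 1)),
        (D.B t.length l i g / D.N (t.length + 1)) * eF D (l :: t) i w) -
      ∑ j ∈ range (D.N t.length), (D.A t.length j g / D.N t.length) * eF D t j w| ≤
      D.δ t.length + D.δ (t.length - 1) := by
  have hδ1 := D.δ0 t.length
  have hδ2 := D.δ0 (t.length - 1)
  obtain ⟨s, h⟩ := w
  by_cases hh : h < D.M s.length
  swap
  · have h1 : ∀ (t' : Nd) (i : ℕ), eF D t' i (s, h) = 0 := by
      intro t' i
      unfold eF
      exact if_neg hh
    simp only [h1, mul_zero, Finset.sum_const_zero, sub_zero, abs_zero]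
    linarith
  have hcons : ∀ (l' : C) (t' : Nd) (i : ℕ), eF D (l' :: t') i (s, h) =
      (if s = l' :: t' then D.A (t'.length + 1) i h else 0) +
        (if s = t' then D.B t'.length l' i h else 0) := by
    intro l' t' i
    unfold eF
    rw [if_pos hh]
    rfl
  by_cases hs1 : s = l :: t
  · have hst : s ≠ t := by
      rw [hs1]; intro h'
      have := congrArg List.length h'
      simp at this
    have hA : ∀ i, eF D (l :: t) i (s, h) = D.A (t.length + 1) i h := by
      intro i
      rw [hcons, if_pos hs1, if_neg hst, add_zero]
    have hB : ∀ j, eF D t j (s, h) = 0 := by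
      intro j
      rcases t with _ | ⟨l2, p⟩
      · unfold eF
        rw [if_pos hh]
        simp only [add_zero]
        exact if_neg hst
      · rw [hcons, if_neg hst, zero_add]
        apply if_neg
        rw [hs1]; intro h'
        have h'' := congrArg List.length h'
        simp only [List.length_cons] at h''
        omega
    simp only [hA, hB, mul_zero, Finset.sum_const_zero, sub_zero]
    have h2 := D.S2 t.length l g h hl hg (by rw [hs1] at hh; exact hh)
    rw [Finset.sum_div] at h2
    have h3 : ∑ i ∈ range (D.N (t.length + 1)),
        D.B t.length l i g / D.N (t.length + 1) * D.A (t.length + 1) i h =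
        ∑ i ∈ range (D.N (t.length + 1)),
        D.B t.length l i g * D.A (t.length + 1) i h / D.N (t.length + 1) := by
      apply Finset.sum_congr rfl
      intro i _
      ring
    rw [h3]
    linarith
  by_cases hs2 : s = t
  · have hA : ∀ i, eF D (l :: t) i (s, h) = D.B t.length l i h := by
      intro i
      rw [hcons, if_neg hs1, if_pos hs2, zero_add]
    have hB : ∀ j, eF D t j (s, h) = D.A t.length j h := by
      intro j
      rcases t with _ | ⟨l2, p⟩
      · unfold eF
        rw [if_pos hh]
        simp only [add_zero]
        exact if_pos hs2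
      · rw [hcons, if_pos hs2]
        have : s ≠ p := by
          rw [hs2]; intro h'
          have := congrArg List.length h'
          simp at this
        rw [if_neg this, add_zero]
        rfl
    simp only [hA, hB]
    have h2 := D.S1 t.length l g h hl hg (by rw [hs2] at hh; exact hh)
    rw [Finset.sum_div, Finset.sum_div] at h2
    have h3 : ∑ i ∈ range (D.N (t.length + 1)),
        D.B t.length l i g / D.N (t.length + 1) * D.B t.length l i h =
        ∑ i ∈ range (D.N (t.length + 1)),
        D.B t.length l i g * D.B t.length l i h / D.N (t.length + 1) := by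
      apply Finset.sum_congr rfl
      intro i _
      ring
    have h4 : ∑ i ∈ range (D.N t.length),
        D.A t.length i g / D.N t.length * D.A t.length i h =
        ∑ i ∈ range (D.N t.length),
        D.A t.length i g * D.A t.length i h / D.N t.length := by
      apply Finset.sum_congr rfl
      intro i _
      ring
    rw [h3, h4]
    linarith
  have hA : ∀ i, eF D (l :: t) i (s, h) = 0 := by
    intro i
    rw [hcons, if_neg hs1, if_neg hs2, zero_add]
  simp only [hA, mul_zero, Finset.sum_const_zero, zero_sub, abs_neg]
  rcases t with _ | ⟨l2, p⟩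
  · have hB : ∀ j, eF D [] j (s, h) = 0 := by
      intro j
      unfold eF
      rw [if_pos hh]
      simp only [add_zero]
      exact if_neg hs2
    simp only [hB, mul_zero, Finset.sum_const_zero, abs_zero]
    linarith
  · by_cases hs3 : s = p
    · have hB : ∀ j, eF D (l2 :: p) j (s, h) = D.B p.length l2 j h := by
        intro j
        rw [hcons, if_neg hs2, if_pos hs3, zero_add]
      simp only [hB]
      by_cases hl2 : l2.1 < D.N p.length
      · have h2 := D.S2 p.length l2 h g hl2 (by rw [hs3] at hh; exact hh) hg
        rw [Finset.sum_div] at h2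
        have h3 : ∑ j ∈ range (D.N (l2 :: p).length),
            D.A (l2 :: p).length j g / D.N (l2 :: p).length * D.B p.length l2 j h =
            ∑ i ∈ range (D.N (p.length + 1)),
            D.B p.length l2 i h * D.A (p.length + 1) i g / D.N (p.length + 1) := by
          apply Finset.sum_congr rfl
          intro i _
          show D.A (p.length + 1) i g / D.N (p.length + 1) * D.B p.length l2 i h = _
          ring
        rw [h3]
        have h5 : (l2 :: p).length - 1 = p.length := rfl
        rw [h5]
        linarith
      · have h4 : ∀ j, D.B p.length l2 j h = 0 := fun j =>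
          D.B0 _ _ _ _ (Or.inl (not_lt.1 hl2))
        simp only [h4, mul_zero, Finset.sum_const_zero, abs_zero]
        linarith
    · have hB : ∀ j, eF D (l2 :: p) j (s, h) = 0 := by
        intro j
        rw [hcons, if_neg hs2, if_neg hs3, zero_add]
      simp only [hB, mul_zero, Finset.sum_const_zero, abs_zero]
      linarith

theorem phi_norm (t : Nd) (l : C) (hl : l.1 < D.N t.length) (g : ℕ) (hg : g < D.M t.length) :
    ‖(∑ i ∈ range (D.N (t.length + 1)),
        (D.B t.length l i g / D.N (t.length + 1)) • eX D (l :: t) i) -
      ∑ j ∈ range (D.N t.length), (D.A t.length j g / D.N t.length) • eX D t j‖ ≤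
      D.δ t.length + D.δ (t.length - 1) := by
  have hco : (((∑ i ∈ range (D.N (t.length + 1)),
        (D.B t.length l i g / D.N (t.length + 1)) • eX D (l :: t) i) -
      ∑ j ∈ range (D.N t.length), (D.A t.length j g / D.N t.length) • eX D t j : Xs D) : L) =
      (∑ i ∈ range (D.N (t.length + 1)),
        (D.B t.length l i g / D.N (t.length + 1)) • e D (l :: t) i) -
      ∑ j ∈ range (D.N t.length), (D.A t.length j g / D.N t.length) • e D t j := by
    rw [Submodule.coe_sub, Submodule.coe_sum, Submodule.coe_sum]
    rfl
  show ‖(((∑ i ∈ range (D.N (t.length + 1)),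
        (D.B t.length l i g / D.N (t.length + 1)) • eX D (l :: t) i) -
      ∑ j ∈ range (D.N t.length), (D.A t.length j g / D.N t.length) • eX D t j : Xs D) : L)‖ ≤ _
  rw [hco]
  apply norm_le_of
  · have := D.δ0 t.length
    have := D.δ0 (t.length - 1)
    linarith
  · intro w
    rw [lp.coeFn_sub, Pi.sub_apply, phi_norm_sum, phi_norm_sum]
    exact phi_norm_pt D t l hl g hg w

end Pool.Agent.Helper983.SL
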