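import Pool.Agent.Helper983.SL.Defs
import Pool.Agent.Helper983.SL.P_nd_length
import Pool.Agent.Helper983.SL.P_al_linear
import Pool.Agent.Helper983.SL.P_al_child
import Pool.Agent.Helper983.SL.P_phi_norm

set_option autoImplicit false

namespace Pool.Agent.Helper983.SL

open Finset

variable (D : Design)



theorem j11389_V_sum_apply (V : Xs D →L[ℝ] Zs D) (s : Finset ℕ) (c : ℕ → ℝ) (x : ℕ → Xs D)
    (w : Om) :
    ((V (∑ i ∈ s, c i • x i) : Zs D) : L) w = ∑ i ∈ s, c i * ((V (x i) : Zs D) : L) w := by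
  classical
  induction s using Finset.induction_on with
  | empty => simp
  | insert a s ha ih =>
    rw [Finset.sum_insert ha, Finset.sum_insert ha, map_add, map_smul, ← ih]
    rfl

theorem j11389_exch (V : Xs D →L[ℝ] Zs D) (N M : ℕ) (c : ℕ → ℕ → ℝ) (x : ℕ → Xs D) (t : Nd) :
    (∑ i ∈ range N, (∑ g ∈ range M, c i g * ((V (x i) : Zs D) : L) (t, g)) / (M : ℝ)) / (N : ℝ) =
      (∑ g ∈ range M, ((V (∑ i ∈ range N, (c i g / N) • x i) : Zs D) : L) (t, g)) / (M : ℝ) := by
  simp_rw [j11389_V_sum_apply, Finset.sum_div]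
  rw [Finset.sum_comm]
  refine Finset.sum_congr rfl (fun g _ => Finset.sum_congr rfl (fun i _ => ?_))
  ring

theorem bt_step (V : Xs D →L[ℝ] Zs D) (t : Nd) (l : C) (hl : l.1 < D.N t.length) :
    |bt D (l :: t) V - bt D t V| ≤ ‖V‖ * (D.δ t.length + D.δ (t.length - 1)) := by
  have hM : (0 : ℝ) < D.M t.length := by exact_mod_cast D.Mpos _
  have h1 : bt D (l :: t) V = (∑ g ∈ range (D.M t.length),
      ((V (∑ i ∈ range (D.N (t.length + 1)),
        (D.B t.length l i g / D.N (t.length + 1)) • eX D (l :: t) i) : Zs D) : L) (t, g)) /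
        D.M t.length := by
    rw [← j11389_exch]
    unfold bt
    change (∑ j ∈ range (D.N (t.length + 1)), _) / (D.N (t.length + 1) : ℝ) = _
    congr 1
    refine Finset.sum_congr rfl (fun i hi => ?_)
    exact al_child D t l i hl (Finset.mem_range.1 hi) _ (V (eX D (l :: t) i)).2
  have h2 : bt D t V = (∑ g ∈ range (D.M t.length),
      ((V (∑ j ∈ range (D.N t.length),
        (D.A t.length j g / D.N t.length) • eX D t j) : Zs D) : L) (t, g)) /
        D.M t.length := by
    rw [← j11389_exch]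
    rfl
  rw [h1, h2, ← sub_div, ← Finset.sum_sub_distrib, abs_div, abs_of_pos hM, div_le_iff₀ hM]
  refine (Finset.abs_sum_le_sum_abs _ _).trans ?_
  have h3 : ∀ g ∈ range (D.M t.length),
      |((V (∑ i ∈ range (D.N (t.length + 1)),
        (D.B t.length l i g / D.N (t.length + 1)) • eX D (l :: t) i) : Zs D) : L) (t, g) -
      ((V (∑ j ∈ range (D.N t.length),
        (D.A t.length j g / D.N t.length) • eX D t j) : Zs D) : L) (t, g)| ≤
      ‖V‖ * (D.δ t.length + D.δ (t.length - 1)) := by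
    intro g hg
    have h4 := phi_norm D t l hl g (Finset.mem_range.1 hg)
    set a := (∑ i ∈ range (D.N (t.length + 1)),
        (D.B t.length l i g / D.N (t.length + 1)) • eX D (l :: t) i)
    set b := ∑ j ∈ range (D.N t.length), (D.A t.length j g / D.N t.length) • eX D t j
    have h5 : ((V a : Zs D) : L) (t, g) - ((V b : Zs D) : L) (t, g) =
        ((V (a - b) : Zs D) : L) (t, g) := by
      rw [map_sub]; rfl
    rw [h5]
    calc _ ≤ ‖((V (a - b) : Zs D) : L)‖ := abs_apply_le _ _
      _ = ‖V (a - b)‖ := rfl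
      _ ≤ ‖V‖ * ‖a - b‖ := V.le_opNorm _
      _ ≤ _ := mul_le_mul_of_nonneg_left h4 V.opNorm_nonneg
  refine (Finset.sum_le_sum h3).trans ?_
  rw [Finset.sum_const, Finset.card_range, nsmul_eq_mul, mul_comm]

end Pool.Agent.Helper983.SL
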