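import Pool.Agent.Helper983.SL.Defs
import Pool.Agent.Helper983.SL.P_nd_length
import Pool.Agent.Helper983.SL.P_al_linear
import Pool.Agent.Helper983.SL.P_bt_step

set_option autoImplicit false

namespace Pool.Agent.Helper983.SL

open Finset

variable (D : Design)



theorem hot_small (M : ℝ) (hM : 0 ≤ M) : ∃ k0 : ℕ, ∀ k, k0 ≤ k →
    M * ∑ i ∈ Ico k0 k, (D.δ i + D.δ (i - 1)) ≤ 1 / 4 := by
  have h1 : Summable (fun k => D.δ (k - 1)) := by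
    rw [← summable_nat_add_iff 1]
    simpa using D.δs
  have hs : Summable (fun k => D.δ k + D.δ (k - 1)) := D.δs.add h1
  have h0 : ∀ k, 0 ≤ D.δ k + D.δ (k - 1) := fun k => add_nonneg (D.δ0 _) (D.δ0 _)
  have ht := hs.hasSum.tendsto_sum_nat
  have hpos : (0 : ℝ) < 1 / (4 * (M + 1)) := by positivity
  have he := (ht.eventually (lt_mem_nhds (sub_lt_self (∑' k, (D.δ k + D.δ (k - 1))) hpos))).exists
  obtain ⟨k0, hk0⟩ := he
  refine ⟨k0, fun k hk => ?_⟩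
  have h2 : ∑ i ∈ range k, (D.δ i + D.δ (i - 1)) ≤ ∑' k, (D.δ k + D.δ (k - 1)) :=
    hs.sum_le_tsum _ (fun i _ => h0 i)
  have h3 : ∑ i ∈ Ico k0 k, (D.δ i + D.δ (i - 1)) ≤ 1 / (4 * (M + 1)) := by
    rw [Finset.sum_Ico_eq_sub _ hk]
    linarith
  calc M * ∑ i ∈ Ico k0 k, (D.δ i + D.δ (i - 1)) ≤ M * (1 / (4 * (M + 1))) :=
        mul_le_mul_of_nonneg_left h3 hM
    _ ≤ 1 / 4 := by
        rw [mul_one_div, div_le_div_iff₀ (by positivity) (by norm_num)]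
        linarith

theorem hot_claim1 (V : Xs D →L[ℝ] Zs D) (b0 : ℕ → C) (k0 : ℕ)
    (hV : ∀ j, j < D.N k0 → ‖V (eX D (nd b0 k0) j) - ⟨e D (nd b0 k0) j, e_mem_Z D _ _⟩‖ ≤ 1 / 4) :
    3 / 4 ≤ bt D (nd b0 k0) V := by
  unfold bt
  rw [nd_length]
  have hN : (0 : ℝ) < D.N k0 := by exact_mod_cast D.Npos k0
  rw [le_div_iff₀ hN]
  have h1 : ∀ j ∈ range (D.N k0), (3 / 4 : ℝ) ≤
      al D (nd b0 k0) j ((V (eX D (nd b0 k0) j) : Zs D) : L) := by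
    intro j hj
    have hj' := Finset.mem_range.1 hj
    have h2 := hV j hj'
    set z : Zs D := V (eX D (nd b0 k0) j) - ⟨e D (nd b0 k0) j, e_mem_Z D _ _⟩ with hz
    have h3 : ((V (eX D (nd b0 k0) j) : Zs D) : L) = (z : L) + e D (nd b0 k0) j := by
      rw [hz]
      simp
    rw [h3, al_add, al_e D _ _ (by rw [nd_length]; exact hj')]
    have h4 := (abs_le.1 (al_abs_le D (nd b0 k0) j (z : L))).1
    have h5 : ‖(z : L)‖ ≤ 1 / 4 := h2
    linarith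
  have h2 := Finset.sum_le_sum h1
  rw [Finset.sum_const, Finset.card_range, nsmul_eq_mul] at h2
  linarith

theorem hot_claim2 (V : Xs D →L[ℝ] Zs D) (b : ℕ → C) (hb : Vb D b) (k0 : ℕ)
    (h0 : 3 / 4 ≤ bt D (nd b k0) V) (k : ℕ) (hk : k0 ≤ k) :
    3 / 4 - ‖V‖ * ∑ i ∈ Ico k0 k, (D.δ i + D.δ (i - 1)) ≤ bt D (nd b k) V := by
  induction k, hk using Nat.le_induction with
  | base => simpa using h0
  | succ k hk ih =>
    have h1 := bt_step D V (nd b k) (b k) (by rw [nd_length]; exact hb k)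
    rw [nd_length] at h1
    have h2 := (abs_le.1 h1).1
    rw [Finset.sum_Ico_succ_top hk, mul_add]
    change _ ≤ bt D (b k :: nd b k) V
    linarith

theorem hot (M : ℝ) (hM : 0 ≤ M) : ∃ k0 : ℕ, ∀ V : Xs D →L[ℝ] Zs D, ‖V‖ ≤ M →
    ∀ b0 : ℕ → C, Vb D b0 →
    (∀ j, j < D.N k0 → ‖V (eX D (nd b0 k0) j) - ⟨e D (nd b0 k0) j, e_mem_Z D _ _⟩‖ ≤ 1 / 4) →
    ∀ b : ℕ → C, Vb D b → nd b k0 = nd b0 k0 → ∀ k, k0 ≤ k →
      ∃ j, j < D.N k ∧ 1 / 4 < ‖V (eX D (nd b k) j)‖ := by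
  obtain ⟨k0, hk0⟩ := hot_small D M hM
  refine ⟨k0, fun V hV b0 hb0 hVe b hb hbb k hk => ?_⟩
  have h1 := hot_claim1 D V b0 k0 hVe
  rw [← hbb] at h1
  have h2 := hot_claim2 D V b hb k0 h1 k hk
  have hs0 : 0 ≤ ∑ i ∈ Ico k0 k, (D.δ i + D.δ (i - 1)) :=
    Finset.sum_nonneg fun i _ => add_nonneg (D.δ0 _) (D.δ0 _)
  have h3 : ‖V‖ * ∑ i ∈ Ico k0 k, (D.δ i + D.δ (i - 1)) ≤ 1 / 4 :=
    (mul_le_mul_of_nonneg_right hV hs0).trans (hk0 k hk)
  by_contra hcon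
  push Not at hcon
  have h4 : bt D (nd b k) V ≤ 1 / 4 := by
    unfold bt
    rw [nd_length]
    have hN : (0 : ℝ) < D.N k := by exact_mod_cast D.Npos k
    rw [div_le_iff₀ hN]
    have h5 : ∀ j ∈ range (D.N k), al D (nd b k) j ((V (eX D (nd b k) j) : Zs D) : L) ≤ 1 / 4 := by
      intro j hj
      have h6 := (abs_le.1 (al_abs_le D (nd b k) j ((V (eX D (nd b k) j) : Zs D) : L))).2
      have h7 : ‖((V (eX D (nd b k) j) : Zs D) : L)‖ ≤ 1 / 4 := hcon j (Finset.mem_range.1 hj)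
      linarith
    have h8 := Finset.sum_le_sum h5
    rw [Finset.sum_const, Finset.card_range, nsmul_eq_mul] at h8
    linarith
  linarith

end Pool.Agent.Helper983.SL
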