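import Pool.Agent.Helper983.SL.Defs

set_option autoImplicit false

namespace Pool.Agent.Helper983.SL

open Finset

variable (D : Design)



theorem Z_separable : TopologicalSpace.SeparableSpace (Zs D) := by
  have h1 : TopologicalSpace.IsSeparable (Es D) := (Set.countable_range _).isSeparable
  have h2 : TopologicalSpace.IsSeparable ((Submodule.span ℝ (Es D) : Submodule ℝ L) : Set L) :=
    h1.span
  have h3 : TopologicalSpace.IsSeparable ((Zs D : Submodule ℝ L) : Set L) := by
    have h4 : ((Zs D : Submodule ℝ L) : Set L) =
        closure ((Submodule.span ℝ (Es D) : Submodule ℝ L) : Set L) := by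
      unfold Zs
      exact Submodule.topologicalClosure_coe _
    rw [h4]
    exact h2.closure
  exact h3.separableSpace

end Pool.Agent.Helper983.SL
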