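import Pool.Agent.Helper983.SL.Defs

set_option autoImplicit false

namespace Pool.Agent.Helper983.SL

open Finset

variable (D : Design)



theorem nd_congr' (b b' : ℕ → C) (k : ℕ) (h : ∀ i, i < k → b i = b' i) : nd b k = nd b' k := by
  induction k with
  | zero => rfl
  | succ k ih =>
    simp only [nd]
    rw [h k (Nat.lt_succ_self k), ih (fun i hi => h i (Nat.lt_succ_of_lt hi))]

theorem nd_length' (b : ℕ → C) (k : ℕ) : (nd b k).length = k := by
  induction k with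
  | zero => rfl
  | succ k ih => simp [nd, ih]

theorem hbN_length' (b0 : ℕ → C) (k0 : ℕ) (h : Nd → ℕ) (x : ℕ → Bool) (n : ℕ) :
    (hbN b0 k0 h x n).length = k0 + n := by
  induction n with
  | zero => simp [hbN, nd_length']
  | succ n ih => simp [hbN, ih, Nat.add_assoc]

theorem hb_nd0 (b0 : ℕ → C) (k0 : ℕ) (h : Nd → ℕ) (x : ℕ → Bool) (k : ℕ) (hk : k ≤ k0) :
    nd (hb b0 k0 h x) k = nd b0 k := by
  apply nd_congr'
  intro i hi
  unfold hb
  rw [if_pos (lt_of_lt_of_le hi hk)]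

theorem hb_apply (b0 : ℕ → C) (k0 : ℕ) (h : Nd → ℕ) (x : ℕ → Bool) (n : ℕ) :
    hb b0 k0 h x (k0 + n) = (h (hbN b0 k0 h x n), x n) := by
  unfold hb
  rw [if_neg (by omega), Nat.add_sub_cancel_left]

theorem hb_nd (b0 : ℕ → C) (k0 : ℕ) (h : Nd → ℕ) (x : ℕ → Bool) (n : ℕ) :
    nd (hb b0 k0 h x) (k0 + n) = hbN b0 k0 h x n := by
  induction n with
  | zero => simpa [hbN] using hb_nd0 b0 k0 h x k0 le_rfl
  | succ n ih =>
    rw [← Nat.add_assoc]
    simp only [nd, hbN]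
    rw [hb_apply, ih]

theorem hb_valid (b0 : ℕ → C) (hb0 : Vb D b0) (k0 : ℕ) (h : Nd → ℕ)
    (hh : ∀ t : Nd, h t < D.N t.length) (x : ℕ → Bool) : Vb D (hb b0 k0 h x) := by
  intro k
  by_cases hk : k < k0
  · have : hb b0 k0 h x k = b0 k := by unfold hb; rw [if_pos hk]
    rw [this]; exact hb0 k
  · obtain ⟨n, rfl⟩ := Nat.exists_eq_add_of_le (not_lt.mp hk)
    rw [hb_apply]
    have := hh (hbN b0 k0 h x n)
    rw [hbN_length'] at this
    exact this

theorem hbN_congr (b0 : ℕ → C) (k0 : ℕ) (h : Nd → ℕ) (x y : ℕ → Bool) (n : ℕ)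
    (hxy : ∀ i, i < n → x i = y i) : hbN b0 k0 h x n = hbN b0 k0 h y n := by
  induction n with
  | zero => rfl
  | succ n ih =>
    simp only [hbN]
    rw [ih (fun i hi => hxy i (Nat.lt_succ_of_lt hi)), hxy n (Nat.lt_succ_self n)]

theorem hbN_inj (b0 : ℕ → C) (k0 : ℕ) (h : Nd → ℕ) (x y : ℕ → Bool) (n : ℕ)
    (hxy : hbN b0 k0 h x n = hbN b0 k0 h y n) : ∀ i, i < n → x i = y i := by
  induction n with
  | zero => intro i hi; omega
  | succ n ih =>
    simp only [hbN] at hxy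
    rw [List.cons.injEq] at hxy
    obtain ⟨h1, h2⟩ := hxy
    intro i hi
    rcases Nat.lt_succ_iff_lt_or_eq.mp hi with h3 | h3
    · exact ih h2 i h3
    · subst h3
      exact (Prod.mk.injEq _ _ _ _ ▸ h1).2

end Pool.Agent.Helper983.SL
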