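import Pool.Agent.Helper983.SL.Defs
import Pool.Agent.Helper983.SL.P_nd_length
import Pool.Agent.Helper983.SL.P_hb_facts

set_option autoImplicit false

namespace Pool.Agent.Helper983.SL

open Finset

variable (D : Design)



theorem cancel_nd_congr (b b' : ℕ → C) : ∀ k : ℕ, (∀ i, i < k → b i = b' i) → nd b k = nd b' k
  | 0, _ => rfl
  | k + 1, hbb => by
    show b k :: nd b k = b' k :: nd b' k
    rw [hbb k (Nat.lt_succ_self k), cancel_nd_congr b b' k fun i hi => hbb i (by omega)]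

theorem cancel_level (b0 : ℕ → C) (k0 : ℕ) (h : Nd → ℕ) (n d : ℕ) (s : ℕ → Bool)
    (xp : (Fin d → Bool) → ℕ → Bool)
    (h1 : ∀ p i, i ≤ n → xp p i = s i)
    (h2 : ∀ p (i : Fin d), xp p (n + 1 + i) = p i) (i : Fin d) :
    ∑ p, sg (hb b0 k0 h (xp p) (k0 + n + 1 + i)).2 •
      e D (nd (hb b0 k0 h (xp p)) (k0 + n + 1 + i)) (hb b0 k0 h (xp p) (k0 + n + 1 + i)).1 = 0 := by
  have hidx : k0 + n + 1 + (i : ℕ) = k0 + (n + 1 + i) := by omega
  rw [hidx]
  simp only [hb_apply, hb_nd, h2]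
  have hflip : ∀ p : Fin d → Bool,
      hbN b0 k0 h (xp (Function.update p i (!(p i)))) (n + 1 + i) =
        hbN b0 k0 h (xp p) (n + 1 + i) := by
    intro p
    apply hbN_congr
    intro j hj
    by_cases hjn : j ≤ n
    · rw [h1 _ _ hjn, h1 _ _ hjn]
    · obtain ⟨j', rfl⟩ : ∃ j', j = n + 1 + j' := ⟨j - (n + 1), by omega⟩
      have hj'i : j' < i := by omega
      have hj' : j' < d := hj'i.trans i.2
      have e1 := h2 (Function.update p i (!(p i))) ⟨j', hj'⟩
      have e2 := h2 p ⟨j', hj'⟩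
      simp only at e1 e2
      rw [e1, e2, Function.update_of_ne]
      intro hcon
      rw [← hcon] at hj'i
      simp at hj'i
  apply Finset.sum_involution (fun p _ => Function.update p i (!(p i)))
  · intro p _
    rw [hflip p, Function.update_self]
    have hsg : sg (!(p i)) = - sg (p i) := by
      unfold sg
      cases p i <;> simp
    rw [hsg, neg_smul, add_neg_cancel]
  · intro p _ _ hcon
    have := congrFun hcon i
    rw [Function.update_self] at this
    cases hp : p i <;> simp [hp] at this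
  · intro p _
    simp
  · intro p _
    simp

theorem cancel (b0 : ℕ → C) (k0 : ℕ) (h : Nd → ℕ) (n d : ℕ) (s : ℕ → Bool)
    (xp : (Fin d → Bool) → ℕ → Bool)
    (h1 : ∀ p i, i ≤ n → xp p i = s i)
    (h2 : ∀ p (i : Fin d), xp p (n + 1 + i) = p i) :
    ∑ p, part D (hb b0 k0 h (xp p)) (k0 + n + 1 + d) =
      (2 ^ d : ℝ) • part D (hb b0 k0 h s) (k0 + n + 1) := by
  have hlab : ∀ p k, k < k0 + n + 1 → hb b0 k0 h (xp p) k = hb b0 k0 h s k := by
    intro p k hk
    by_cases hk0 : k < k0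
    · simp [hb, hk0]
    · obtain ⟨j, rfl⟩ : ∃ j, k = k0 + j := ⟨k - k0, by omega⟩
      rw [hb_apply, hb_apply, hbN_congr b0 k0 h (xp p) s j (fun i hi => h1 p i (by omega)),
        h1 p j (by omega)]
  have hlow : ∀ p, part D (hb b0 k0 h (xp p)) (k0 + n + 1) = part D (hb b0 k0 h s) (k0 + n + 1) := by
    intro p
    unfold part
    apply Finset.sum_congr rfl
    intro k hk
    rw [Finset.mem_range] at hk
    rw [hlab p k hk, cancel_nd_congr _ _ k fun i hi => hlab p i (hi.trans hk)]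
  have hsplit : ∀ p, part D (hb b0 k0 h (xp p)) (k0 + n + 1 + d) =
      part D (hb b0 k0 h s) (k0 + n + 1) + ∑ i ∈ range d,
        sg (hb b0 k0 h (xp p) (k0 + n + 1 + i)).2 •
          e D (nd (hb b0 k0 h (xp p)) (k0 + n + 1 + i)) (hb b0 k0 h (xp p) (k0 + n + 1 + i)).1 := by
    intro p
    rw [← hlow p]
    unfold part
    rw [Finset.sum_range_add]
  rw [Finset.sum_congr rfl fun p _ => hsplit p, Finset.sum_add_distrib, Finset.sum_comm]
  have hz : ∑ i ∈ range d, ∑ p : Fin d → Bool,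
      sg (hb b0 k0 h (xp p) (k0 + n + 1 + i)).2 •
          e D (nd (hb b0 k0 h (xp p)) (k0 + n + 1 + i)) (hb b0 k0 h (xp p) (k0 + n + 1 + i)).1 = 0 := by
    apply Finset.sum_eq_zero
    intro i hi
    exact cancel_level D b0 k0 h n d s xp h1 h2 ⟨i, Finset.mem_range.1 hi⟩
  rw [hz, add_zero, Finset.sum_const, Finset.card_univ, Fintype.card_fun, Fintype.card_bool,
    Fintype.card_fin, ← Nat.cast_smul_eq_nsmul ℝ]
  push_cast
  rfl

end Pool.Agent.Helper983.SL
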