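import Pool.Agent.Helper983.SL.Defs
import Pool.Agent.Helper983.SL.P_nd_length
import Pool.Agent.Helper983.SL.P_hb_facts

set_option autoImplicit false

namespace Pool.Agent.Helper983.SL

open Finset

variable (D : Design)



theorem tb_eF_nd (b : ℕ → C) (m j : ℕ) (w : Om) :
    eF D (nd b m) j w = if w.2 < D.M w.1.length ∧ w.1 = nd b w.1.length then
      (if m = w.1.length then D.A w.1.length j w.2 else 0) +
      (if m = w.1.length + 1 then D.B w.1.length (b w.1.length) j w.2 else 0) else 0 := by
  have hlen : ∀ m, w.1 = nd b m → m = w.1.length := by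
    intro m h
    rw [h, nd_length]
  by_cases h1 : w.2 < D.M w.1.length
  swap
  · simp [eF, h1]
  by_cases h2 : w.1 = nd b w.1.length
  · have hiff : ∀ m, (w.1 = nd b m ↔ m = w.1.length) := fun m =>
      ⟨hlen m, fun h => by rw [h]; exact h2⟩
    cases m with
    | zero =>
      have e1 : eF D (nd b 0) j w = (if w.2 < D.M w.1.length then
        (if w.1 = nd b 0 then D.A (nd b 0).length j w.2 else 0) + 0 else 0) := rfl
      rw [e1, if_pos h1, if_pos (show w.2 < D.M w.1.length ∧ w.1 = nd b w.1.length from ⟨h1, h2⟩)]
      simp only [hiff, nd_length]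
      by_cases h3 : 0 = w.1.length
      · rw [if_pos h3, if_pos h3, if_neg (by omega), ← h3]
      · rw [if_neg h3, if_neg h3, if_neg (by omega)]
    | succ m =>
      have e1 : eF D (nd b (m + 1)) j w = (if w.2 < D.M w.1.length then
        (if w.1 = nd b (m + 1) then D.A (nd b (m + 1)).length j w.2 else 0) +
        (if w.1 = nd b m then D.B (nd b m).length (b m) j w.2 else 0) else 0) := rfl
      rw [e1, if_pos h1, if_pos (show w.2 < D.M w.1.length ∧ w.1 = nd b w.1.length from ⟨h1, h2⟩)]
      simp only [hiff, nd_length]
      congr 1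
      · by_cases h3 : m + 1 = w.1.length
        · rw [if_pos h3, if_pos h3, h3]
        · rw [if_neg h3, if_neg h3]
      · by_cases h3 : m = w.1.length
        · rw [if_pos h3, if_pos (by omega), ← h3]
        · rw [if_neg h3, if_neg (by omega)]
  · rw [if_neg (fun h => h2 h.2)]
    have hno : ∀ m, w.1 ≠ nd b m := by
      intro m h
      apply h2
      have := hlen m h
      rw [← this]
      exact h
    cases m with
    | zero =>
      have e1 : eF D (nd b 0) j w = (if w.2 < D.M w.1.length then
        (if w.1 = nd b 0 then D.A (nd b 0).length j w.2 else 0) + 0 else 0) := rfl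
      rw [e1, if_pos h1, if_neg (hno 0), add_zero]
    | succ m =>
      have e1 : eF D (nd b (m + 1)) j w = (if w.2 < D.M w.1.length then
        (if w.1 = nd b (m + 1) then D.A (nd b (m + 1)).length j w.2 else 0) +
        (if w.1 = nd b m then D.B (nd b m).length (b m) j w.2 else 0) else 0) := rfl
      rw [e1, if_pos h1, if_neg (hno _), if_neg (hno _), add_zero]

theorem tb_part_apply (b : ℕ → C) (m : ℕ) (w : Om) :
    part D b m w = if w.2 < D.M w.1.length ∧ w.1 = nd b w.1.length then
      (if w.1.length < m then
        sg (b w.1.length).2 * D.A w.1.length (b w.1.length).1 w.2 else 0) +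
      (if w.1.length + 1 < m then
        sg (b (w.1.length + 1)).2 * D.B w.1.length (b w.1.length) (b (w.1.length + 1)).1 w.2
        else 0) else 0 := by
  induction m with
  | zero =>
    simp [part]
  | succ m ih =>
    have e1 : part D b (m + 1) w = part D b m w + sg (b m).2 * eF D (nd b m) (b m).1 w := by
      simp only [part]
      rw [Finset.sum_range_succ]
      rfl
    rw [e1, ih, tb_eF_nd]
    by_cases h : w.2 < D.M w.1.length ∧ w.1 = nd b w.1.length
    · simp only [if_pos h]
      generalize w.1.length = k
      rcases lt_trichotomy m k with h1 | h1 | h1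
      · rw [if_neg (by omega), if_neg (by omega), if_neg (by omega), if_neg (by omega),
          if_neg (by omega), if_neg (by omega)]
        ring
      · subst h1
        rw [if_neg (by omega), if_neg (by omega), if_pos rfl, if_neg (by omega),
          if_pos (by omega), if_neg (by omega)]
        ring
      · rcases Nat.lt_or_ge (k + 1) m with h2 | h2
        · rw [if_pos (by omega), if_pos (by omega), if_neg (by omega), if_neg (by omega),
            if_pos (by omega), if_pos (by omega)]
          ring
        · have h3 : m = k + 1 := by omega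
          subst h3
          rw [if_pos (by omega), if_neg (by omega), if_neg (by omega), if_pos rfl,
            if_pos (by omega), if_pos (by omega)]
          ring
    · simp only [if_neg h]
      ring

theorem tb_sg (c : Bool) : |sg c| = 1 := by unfold sg; split_ifs <;> simp

theorem tb_diff (b : ℕ → C) (m : ℕ) (w : Om) :
    |(u D b - part D b m) w| ≤ if nd b w.1.length = w.1 then
      (if m ≤ w.1.length then 2 else if m ≤ w.1.length + 1 then 1 else 0) else (0 : ℝ) := by
  have e1 : (u D b - part D b m) w = uF D b w - part D b m w := rfl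
  rw [e1, tb_part_apply, uF]
  by_cases h : w.2 < D.M w.1.length ∧ w.1 = nd b w.1.length
  · rw [if_pos h, if_pos h, if_pos h.2.symm]
    have hA := D.A1 w.1.length (b w.1.length).1 w.2
    have hB := D.B1 w.1.length (b w.1.length) (b (w.1.length + 1)).1 w.2
    have hA' : |sg (b w.1.length).2 * D.A w.1.length (b w.1.length).1 w.2| ≤ 1 := by
      rw [abs_mul, tb_sg, one_mul]; exact hA
    have hB' : |sg (b (w.1.length + 1)).2 *
        D.B w.1.length (b w.1.length) (b (w.1.length + 1)).1 w.2| ≤ 1 := by
      rw [abs_mul, tb_sg, one_mul]; exact hB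
    generalize sg (b w.1.length).2 * D.A w.1.length (b w.1.length).1 w.2 = x at hA' ⊢
    generalize sg (b (w.1.length + 1)).2 *
        D.B w.1.length (b w.1.length) (b (w.1.length + 1)).1 w.2 = y at hB' ⊢
    by_cases h1 : m ≤ w.1.length
    · rw [if_neg (by omega), if_neg (by omega), if_pos h1]
      simp only [add_zero, sub_zero]
      exact (abs_add_le _ _).trans (by linarith)
    · by_cases h2 : m ≤ w.1.length + 1
      · rw [if_pos (by omega), if_neg (by omega), if_neg h1, if_pos h2]
        have : x + y - (x + 0) = y := by ring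
        rw [this]
        exact hB'
      · rw [if_pos (by omega), if_pos (by omega), if_neg h1, if_neg h2]
        simp
  · rw [if_neg h, if_neg h]
    simp only [sub_zero, abs_zero]
    split_ifs <;> norm_num

theorem tail_bound (b0 : ℕ → C) (k0 : ℕ) (h : Nd → ℕ) (n d : ℕ) (s : ℕ → Bool)
    (xp : (Fin d → Bool) → ℕ → Bool)
    (h1 : ∀ p i, i ≤ n → xp p i = s i)
    (h2 : ∀ p (i : Fin d), xp p (n + 1 + i) = p i) :
    ‖∑ p, (u D (hb b0 k0 h (xp p)) - part D (hb b0 k0 h (xp p)) (k0 + n + 1 + d))‖ ≤ 2 := by
  classical
  refine norm_le_of _ 2 (by norm_num) fun w => ?_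
  have e1 : (∑ p, (u D (hb b0 k0 h (xp p)) - part D (hb b0 k0 h (xp p)) (k0 + n + 1 + d)) : L) w =
      ∑ p, (u D (hb b0 k0 h (xp p)) - part D (hb b0 k0 h (xp p)) (k0 + n + 1 + d)) w := by
    rw [lp.coeFn_sum, Finset.sum_apply]
  rw [e1]
  set k := w.1.length with hk
  set K := k0 + n + 1 + d with hK
  set c : ℝ := if K ≤ k then 2 else if K ≤ k + 1 then 1 else 0 with hc
  have hc0 : 0 ≤ c := by rw [hc]; split_ifs <;> norm_num
  set Q : Finset (Fin d → Bool) := Finset.univ.filter
    (fun p => nd (hb b0 k0 h (xp p)) k = w.1) with hQ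
  have hb1 : |∑ p, (u D (hb b0 k0 h (xp p)) - part D (hb b0 k0 h (xp p)) K) w| ≤ Q.card * c := by
    calc |∑ p, (u D (hb b0 k0 h (xp p)) - part D (hb b0 k0 h (xp p)) K) w|
        ≤ ∑ p, |(u D (hb b0 k0 h (xp p)) - part D (hb b0 k0 h (xp p)) K) w| :=
          Finset.abs_sum_le_sum_abs _ _
      _ ≤ ∑ p, (if nd (hb b0 k0 h (xp p)) k = w.1 then c else 0) :=
          Finset.sum_le_sum fun p _ => tb_diff D _ K w
      _ = Q.card * c := by
          rw [← Finset.sum_filter, Finset.sum_const, nsmul_eq_mul]
  refine hb1.trans ?_
  have hagree : ∀ j, k = k0 + j → ∀ p ∈ Q, ∀ q ∈ Q, ∀ i : Fin d, n + 1 + i < j → p i = q i := by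
    intro j hj p hp q hq i hi
    have hp' := (Finset.mem_filter.1 hp).2
    have hq' := (Finset.mem_filter.1 hq).2
    rw [hj, hb_nd] at hp' hq'
    have := hbN_inj b0 k0 h (xp p) (xp q) j (hp'.trans hq'.symm) (n + 1 + i) hi
    rw [h2, h2] at this
    exact this
  rcases Nat.lt_or_ge k K with hkK | hkK
  · rcases Nat.lt_or_ge (k + 1) K with hkK' | hkK'
    · have : c = 0 := by rw [hc, if_neg (by omega), if_neg (by omega)]
      rw [this, mul_zero]
      norm_num
    · have hc1 : c = 1 := by rw [hc, if_neg (by omega), if_pos (by omega)]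
      rw [hc1, mul_one]
      have hcard : Q.card ≤ 2 := by
        rcases Nat.eq_zero_or_pos d with hd | hd
        · subst hd
          calc Q.card ≤ (Finset.univ : Finset (Fin 0 → Bool)).card := Finset.card_le_univ _
            _ ≤ 2 := by simp
        · have hinj : Set.InjOn (fun p : Fin d → Bool => p ⟨d - 1, by omega⟩) (Q : Set _) := by
            intro p hp q hq hpq
            funext i
            by_cases hi : i = ⟨d - 1, by omega⟩
            · rw [hi]; exact hpq
            · refine hagree (n + d) (by omega) p hp q hq i ?_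
              have h3 : (i : ℕ) ≠ d - 1 := fun h => hi (Fin.ext h)
              have h4 := i.2
              omega
          calc Q.card ≤ (Finset.univ : Finset Bool).card :=
                Finset.card_le_card_of_injOn _ (fun _ _ => Finset.mem_univ _) hinj
            _ ≤ 2 := by simp
      have hcard' : (Q.card : ℝ) ≤ 2 := by exact_mod_cast hcard
      exact hcard'
  · have hc2 : c = 2 := by rw [hc, if_pos hkK]
    rw [hc2]
    have hcard : Q.card ≤ 1 := by
      rw [Finset.card_le_one]
      intro p hp q hq
      funext i
      refine hagree (k - k0) (by omega) p hp q hq i ?_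
      have h4 := i.2
      omega
    have : (Q.card : ℝ) ≤ 1 := by exact_mod_cast hcard
    linarith

end Pool.Agent.Helper983.SL
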