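import Pool.Agent.Helper983.SL.Defs
import Pool.Agent.Helper983.SL.P_hb_facts
import Pool.Agent.Helper983.SL.P_cancel
import Pool.Agent.Helper983.SL.P_tail_bound

set_option autoImplicit false

namespace Pool.Agent.Helper983.SL

open Finset

variable (D : Design)



theorem avg_pattern (b0 : ℕ → C) (k0 : ℕ) (h : Nd → ℕ) (n d : ℕ) (s : ℕ → Bool)
    (xp : (Fin d → Bool) → ℕ → Bool)
    (h1 : ∀ p i, i ≤ n → xp p i = s i)
    (h2 : ∀ p (i : Fin d), xp p (n + 1 + i) = p i) :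
    ‖((2 : ℝ) ^ d)⁻¹ • (∑ p, u D (hb b0 k0 h (xp p))) -
      (part D (hb b0 k0 h s) (k0 + n) +
        sg (s n) • e D (hbN b0 k0 h s n) (h (hbN b0 k0 h s n)))‖ ≤ 2 * ((2 : ℝ) ^ d)⁻¹ := by
  have e1 : part D (hb b0 k0 h s) (k0 + n) +
        sg (s n) • e D (hbN b0 k0 h s n) (h (hbN b0 k0 h s n)) =
      part D (hb b0 k0 h s) (k0 + n + 1) := by
    unfold part
    rw [Finset.sum_range_succ, hb_nd, hb_apply]
  have hc := cancel D b0 k0 h n d s xp h1 h2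
  have ht := tail_bound D b0 k0 h n d s xp h1 h2
  have hpos : (0 : ℝ) < (2 : ℝ) ^ d := by positivity
  have e2 : ((2 : ℝ) ^ d)⁻¹ • (∑ p, u D (hb b0 k0 h (xp p))) - part D (hb b0 k0 h s) (k0 + n + 1) =
      ((2 : ℝ) ^ d)⁻¹ • ∑ p, (u D (hb b0 k0 h (xp p)) -
        part D (hb b0 k0 h (xp p)) (k0 + n + 1 + d)) := by
    rw [Finset.sum_sub_distrib, hc, smul_sub, smul_smul, inv_mul_cancel₀ hpos.ne', one_smul]
  rw [e1, e2, norm_smul, Real.norm_eq_abs, abs_of_pos (inv_pos.2 hpos), mul_comm]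
  exact mul_le_mul_of_nonneg_right ht (inv_pos.2 hpos).le

end Pool.Agent.Helper983.SL
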