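import Pool.Agent.Helper983.SL.Defs

set_option autoImplicit false

namespace Pool.Agent.Helper983.SL

open Finset

variable (D : Design)



theorem baire {W : Type*} [NormedAddCommGroup W] [TopologicalSpace.SeparableSpace W] (y : (ℕ → Bool) → W)
    (r : ℝ) (hr : 0 < r) : ∃ (w : W) (n : ℕ) (s : ℕ → Bool),
      ∀ x : ℕ → Bool, (∀ i, i < n → x i = s i) → ∀ m : ℕ,
        ∃ x' : ℕ → Bool, (∀ i, i < m → x' i = x i) ∧ ‖y x' - w‖ ≤ r := by
  classical
  have hcl : ∀ k : ℕ, IsClosed (closure {x : ℕ → Bool | ‖y x - TopologicalSpace.denseSeq W k‖ ≤ r}) :=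
    fun k => isClosed_closure
  have hun : ⋃ k : ℕ, closure {x : ℕ → Bool | ‖y x - TopologicalSpace.denseSeq W k‖ ≤ r} =
      Set.univ := by
    rw [Set.eq_univ_iff_forall]
    intro x
    obtain ⟨k, hk⟩ := (TopologicalSpace.denseRange_denseSeq W).exists_dist_lt (y x) hr
    rw [Set.mem_iUnion]
    refine ⟨k, subset_closure ?_⟩
    rw [dist_eq_norm] at hk
    exact hk.le
  obtain ⟨k, s, hs⟩ := nonempty_interior_of_iUnion_of_closed hcl hun
  obtain ⟨V, ⟨x0, n, rfl⟩, hsV, hVU⟩ :=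
    (PiNat.isTopologicalBasis_cylinders (fun _ : ℕ => Bool)).mem_nhds_iff.1
      (isOpen_interior.mem_nhds hs)
  refine ⟨TopologicalSpace.denseSeq W k, n, s, ?_⟩
  intro x hx m
  have hx1 : x ∈ PiNat.cylinder x0 n := by
    intro i hi
    rw [hx i hi]
    exact hsV i hi
  have hx2 := interior_subset (hVU hx1)
  rw [mem_closure_iff] at hx2
  obtain ⟨x', hx', hB⟩ := hx2 (PiNat.cylinder x m) (PiNat.isOpen_cylinder _ x m)
    (PiNat.self_mem_cylinder x m)
  exact ⟨x', fun i hi => hx' i hi, hB⟩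

end Pool.Agent.Helper983.SL
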