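import Pool.Agent.Helper983.SL.Defs
import Pool.Agent.Helper983.SL.P_nd_length
import Pool.Agent.Helper983.SL.P_baire
import Pool.Agent.Helper983.SL.P_hb_facts
import Pool.Agent.Helper983.SL.P_avg_pattern
import Pool.Agent.Helper983.SL.P_Z_separable

set_option autoImplicit false

namespace Pool.Agent.Helper983.SL

open Finset

variable (D : Design)


theorem nd_congr_11397 (b b' : ℕ → C) (m : ℕ) (h : ∀ i, i < m → b i = b' i) (k : ℕ) (hk : k ≤ m) :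
    nd b k = nd b' k := by
  induction k with
  | zero => rfl
  | succ k ih =>
    change b k :: nd b k = b' k :: nd b' k
    rw [ih (by omega), h k (by omega)]

theorem part_congr_11397 (b b' : ℕ → C) (m : ℕ) (h : ∀ i, i < m → b i = b' i) :
    part D b m = part D b' m := by
  unfold part
  refine Finset.sum_congr rfl fun k hk => ?_
  have hk' := Finset.mem_range.1 hk
  rw [nd_congr_11397 b b' m h k hk'.le, h k hk']

theorem part_mem_11397 (b : ℕ → C) (m : ℕ) : part D b m ∈ Xs D :=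
  Submodule.sum_mem _ fun k _ => Submodule.smul_mem _ _ (e_mem_X D _ _)

theorem hb_congr_11397 (b0 : ℕ → C) (k0 : ℕ) (h : Nd → ℕ) (x y : ℕ → Bool) (n : ℕ)
    (hxy : ∀ i, i < n → x i = y i) (k : ℕ) (hk : k < k0 + n) :
    hb b0 k0 h x k = hb b0 k0 h y k := by
  unfold hb
  by_cases h1 : k < k0
  · rw [if_pos h1, if_pos h1]
  · rw [if_neg h1, if_neg h1, hxy (k - k0) (by omega),
      hbN_congr b0 k0 h x y (k - k0) (fun i hi => hxy i (by omega))]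

theorem avg_11397 {W : Type*} [NormedAddCommGroup W] [NormedSpace ℝ W] (d : ℕ)
    (y : (Fin d → Bool) → W) (w : W) (r : ℝ) (h : ∀ p, ‖y p - w‖ ≤ r) :
    ‖((2 : ℝ) ^ d)⁻¹ • (∑ p, y p) - w‖ ≤ r := by
  have h2 : (0 : ℝ) < 2 ^ d := by positivity
  have hcard : ((Fintype.card (Fin d → Bool) : ℕ) : ℝ) = 2 ^ d := by
    simp
  have e1 : ((2 : ℝ) ^ d)⁻¹ • (∑ p, y p) - w = ((2 : ℝ) ^ d)⁻¹ • (∑ p, (y p - w)) := by
    rw [Finset.sum_sub_distrib, smul_sub, Finset.sum_const, Finset.card_univ,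
      ← Nat.cast_smul_eq_nsmul ℝ, hcard, smul_smul, inv_mul_cancel₀ h2.ne', one_smul]
  rw [e1, norm_smul, Real.norm_of_nonneg (inv_nonneg.2 h2.le)]
  have e2 : ‖∑ p, (y p - w)‖ ≤ 2 ^ d * r := by
    refine (norm_sum_le _ _).trans ((Finset.sum_le_sum fun p _ => h p).trans (le_of_eq ?_))
    rw [Finset.sum_const, Finset.card_univ, nsmul_eq_mul, hcard]
  calc ((2 : ℝ) ^ d)⁻¹ * ‖∑ p, (y p - w)‖ ≤ ((2 : ℝ) ^ d)⁻¹ * (2 ^ d * r) :=
        mul_le_mul_of_nonneg_left e2 (inv_nonneg.2 h2.le)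
    _ = r := by field_simp

theorem half_11397 (V : Xs D →L[ℝ] Zs D) (b0 : ℕ → C) (k0 : ℕ) (h : Nd → ℕ)
    (hv : ∀ x : ℕ → Bool, Vb D (hb b0 k0 h x)) (w : Zs D) (n : ℕ) (s : ℕ → Bool)
    (hB : ∀ x : ℕ → Bool, (∀ i, i < n → x i = s i) → ∀ m : ℕ,
        ∃ x' : ℕ → Bool, (∀ i, i < m → x' i = x i) ∧
          ‖V (uX D (hb b0 k0 h x') (hv x')) - w‖ ≤ 1 / 16) (c : Bool) (d : ℕ) :
    ‖w - (V ⟨part D (hb b0 k0 h s) (k0 + n), part_mem_11397 D _ _⟩ +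
      sg c • V (eX D (hbN b0 k0 h s n) (h (hbN b0 k0 h s n))))‖ ≤
      1 / 16 + ‖V‖ * (2 * ((2 : ℝ) ^ d)⁻¹) := by
  classical
  obtain ⟨xc, hxc⟩ : ∃ xc : (Fin d → Bool) → ℕ → Bool, xc = fun p i =>
    if i < n then s i else if i = n then c else
      if H : i - (n + 1) < d then p ⟨i - (n + 1), H⟩ else false := ⟨_, rfl⟩
  have hx' : ∀ p, ∃ x' : ℕ → Bool, (∀ i, i < n + 1 + d → x' i = xc p i) ∧
      ‖V (uX D (hb b0 k0 h x') (hv x')) - w‖ ≤ 1 / 16 := fun p => hB (xc p) (by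
    intro i hi
    rw [hxc]
    simp only [if_pos hi]) (n + 1 + d)
  choose xp hxp1 hxp2 using hx'
  obtain ⟨s', hs'⟩ : ∃ s' : ℕ → Bool, s' = fun i => if i < n then s i else c := ⟨_, rfl⟩
  have hs1 : ∀ i, i < n → s' i = s i := by
    intro i hi
    rw [hs']
    simp only [if_pos hi]
  have hs2 : s' n = c := by
    rw [hs']
    simp only [lt_irrefl, if_false]
  have h1 : ∀ p i, i ≤ n → xp p i = s' i := by
    intro p i hi
    rw [hxp1 p i (by omega), hxc]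
    rcases Nat.lt_or_ge i n with h | h
    · rw [hs1 i h]
      simp only [if_pos h]
    · have : i = n := le_antisymm hi h
      subst this
      rw [hs2]
      simp only [lt_irrefl, if_false, if_true]
  have h2 : ∀ p (i : Fin d), xp p (n + 1 + i) = p i := by
    intro p i
    have hi := i.2
    rw [hxp1 p (n + 1 + i) (by omega), hxc]
    have g1 : ¬ (n + 1 + (i : ℕ) < n) := by omega
    have g2 : ¬ (n + 1 + (i : ℕ) = n) := by omega
    have g3 : n + 1 + (i : ℕ) - (n + 1) = i := by omega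
    simp only [if_neg g1, if_neg g2, g3, dif_pos hi]
  have hav := avg_pattern D b0 k0 h n d s' xp h1 h2
  rw [hs2, hbN_congr b0 k0 h s' s n hs1,
    part_congr_11397 D _ (hb b0 k0 h s) (k0 + n) (hb_congr_11397 b0 k0 h s' s n hs1)] at hav
  obtain ⟨PX, hPX⟩ : ∃ PX : Xs D, PX = ⟨part D (hb b0 k0 h s) (k0 + n), part_mem_11397 D _ _⟩ :=
    ⟨_, rfl⟩
  obtain ⟨t, ht⟩ : ∃ t, t = hbN b0 k0 h s n := ⟨_, rfl⟩
  rw [← hPX, ← ht]
  rw [← ht] at hav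
  obtain ⟨X, hX⟩ : ∃ X : Xs D, X = ((2 : ℝ) ^ d)⁻¹ • (∑ p, uX D (hb b0 k0 h (xp p)) (hv (xp p))) -
    (PX + sg c • eX D t (h t)) := ⟨_, rfl⟩
  have hXn : ‖X‖ ≤ 2 * ((2 : ℝ) ^ d)⁻¹ := by
    rw [Submodule.coe_norm]
    refine le_trans (le_of_eq ?_) hav
    congr 1
    rw [hX, hPX]
    push_cast
    rfl
  have hVX : V X = ((2 : ℝ) ^ d)⁻¹ • (∑ p, V (uX D (hb b0 k0 h (xp p)) (hv (xp p)))) -
      (V PX + sg c • V (eX D t (h t))) := by
    rw [hX, map_sub, map_smul, map_sum, map_add, map_smul]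
  have hVXn : ‖V X‖ ≤ ‖V‖ * (2 * ((2 : ℝ) ^ d)⁻¹) :=
    (V.le_opNorm X).trans (mul_le_mul_of_nonneg_left hXn (norm_nonneg V))
  have hA := avg_11397 d (fun p => V (uX D (hb b0 k0 h (xp p)) (hv (xp p)))) w (1 / 16) hxp2
  have e1 : w - (V PX + sg c • V (eX D t (h t))) =
      -(((2 : ℝ) ^ d)⁻¹ • (∑ p, V (uX D (hb b0 k0 h (xp p)) (hv (xp p)))) - w) + V X := by
    rw [hVX]
    abel
  rw [e1]
  refine (norm_add_le _ _).trans ?_
  rw [norm_neg]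
  exact add_le_add hA hVXn



theorem not_hot (V : Xs D →L[ℝ] Zs D) (b0 : ℕ → C) (hb0 : Vb D b0) (k0 : ℕ)
    (hV : ∀ b : ℕ → C, Vb D b → nd b k0 = nd b0 k0 → ∀ k, k0 ≤ k →
      ∃ j, j < D.N k ∧ 1 / 4 < ‖V (eX D (nd b k) j)‖) : False := by
  classical
  have hex : ∀ t : Nd, ∃ j, j < D.N t.length ∧
      ((∃ j, j < D.N t.length ∧ 1 / 4 < ‖V (eX D t j)‖) → 1 / 4 < ‖V (eX D t j)‖) := by
    intro t
    by_cases H : ∃ j, j < D.N t.length ∧ 1 / 4 < ‖V (eX D t j)‖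
    · obtain ⟨j, h1, h2⟩ := H
      exact ⟨j, h1, fun _ => h2⟩
    · exact ⟨0, D.Npos _, fun h => (H h).elim⟩
  choose h hh1 hh2 using hex
  have hv : ∀ x : ℕ → Bool, Vb D (hb b0 k0 h x) := fun x => hb_valid D b0 hb0 k0 h hh1 x
  haveI := Z_separable D
  obtain ⟨w, n, s, hB⟩ := baire (W := Zs D) (fun x => V (uX D (hb b0 k0 h x) (hv x))) (1 / 16)
    (by norm_num)
  have hVt : 1 / 4 < ‖V (eX D (hbN b0 k0 h s n) (h (hbN b0 k0 h s n)))‖ := by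
    apply hh2
    have h1 := hV (hb b0 k0 h s) (hv s) (hb_nd0 b0 k0 h s k0 le_rfl) (k0 + n) (by omega)
    rw [hb_nd] at h1
    have hlen : (hbN b0 k0 h s n).length = k0 + n := by
      rw [← hb_nd, nd_length]
    rw [hlen]
    exact h1
  obtain ⟨Vt, hVt'⟩ : ∃ Vt, Vt = V (eX D (hbN b0 k0 h s n) (h (hbN b0 k0 h s n))) := ⟨_, rfl⟩
  rw [← hVt'] at hVt
  obtain ⟨PV, hPV⟩ : ∃ PV, PV = V ⟨part D (hb b0 k0 h s) (k0 + n), part_mem_11397 D _ _⟩ := ⟨_, rfl⟩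
  obtain ⟨d, hd⟩ : ∃ d : ℕ, ‖V‖ * ((2 : ℝ) ^ d)⁻¹ < 1 / 16 := by
    obtain ⟨d, hd⟩ := exists_pow_lt_of_lt_one (show (0 : ℝ) < 1 / (16 * (‖V‖ + 1)) by positivity)
      (show (1 / 2 : ℝ) < 1 by norm_num)
    refine ⟨d, ?_⟩
    rw [one_div, inv_pow] at hd
    have h3 : 0 < ((2 : ℝ) ^ d)⁻¹ := by positivity
    calc ‖V‖ * ((2 : ℝ) ^ d)⁻¹ ≤ (‖V‖ + 1) * ((2 : ℝ) ^ d)⁻¹ :=
          mul_le_mul_of_nonneg_right (by linarith) h3.le
      _ < (‖V‖ + 1) * (1 / (16 * (‖V‖ + 1))) := mul_lt_mul_of_pos_left hd (by positivity)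
      _ = 1 / 16 := by
        have : ‖V‖ + 1 ≠ 0 := by positivity
        field_simp
  have ht := half_11397 D V b0 k0 h hv w n s hB true d
  have hf := half_11397 D V b0 k0 h hv w n s hB false d
  rw [← hVt', ← hPV] at ht hf
  have st : sg true = 1 := by simp [sg]
  have sf : sg false = -1 := by simp [sg]
  rw [st, one_smul] at ht
  rw [sf, neg_smul, one_smul] at hf
  have e1 : (2 : ℝ) • Vt = (w - (PV + -Vt)) - (w - (PV + Vt)) := by
    rw [two_smul]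
    abel
  have e2 : ‖(2 : ℝ) • Vt‖ ≤ (1 / 16 + ‖V‖ * (2 * ((2 : ℝ) ^ d)⁻¹)) +
      (1 / 16 + ‖V‖ * (2 * ((2 : ℝ) ^ d)⁻¹)) := by
    rw [e1]
    exact (norm_sub_le _ _).trans (add_le_add hf ht)
  rw [norm_smul, Real.norm_of_nonneg (by norm_num : (0 : ℝ) ≤ 2)] at e2
  linarith

end Pool.Agent.Helper983.SL
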