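import Pool.Agent.Helper983.SL.Defs
import Pool.Agent.Helper983.SL.P_nd_length
import Pool.Agent.Helper983.SL.P_hot
import Pool.Agent.Helper983.SL.P_not_hot

set_option autoImplicit false

namespace Pool.Agent.Helper983.SL

open Finset

variable (D : Design)



theorem no_retraction (M : ℝ) (hM : 0 ≤ M) : ∃ (n : ℕ) (z : Fin n → Zs D),
    ∀ V : Xs D →L[ℝ] Zs D, ‖V‖ ≤ M → ¬ ∀ i, ‖V (inc D (z i)) - z i‖ ≤ 1 / 4 := by
  obtain ⟨k0, hk0⟩ := hot D M hM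
  have hb0 : Vb D (fun _ => ((0, true) : C)) := fun k => D.Npos k
  refine ⟨D.N k0, fun j => ⟨e D (nd (fun _ => ((0, true) : C)) k0) j, e_mem_Z D _ _⟩,
    fun V hV h => ?_⟩
  exact not_hot D V _ hb0 k0 (hk0 V hV _ hb0 (fun j hj => h ⟨j, hj⟩))

end Pool.Agent.Helper983.SL
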