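import Pool.Agent.Helper983.SL.Defs

set_option autoImplicit false

namespace Pool.Agent.Helper983.SL

open Finset

variable (D : Design)


theorem sup_lip_aux {ι : Type*} [Nonempty ι] (f g : ι → ℝ) (c r : ℝ)
    (hf : ∀ i, f i ≤ c) (hg : ∀ i, g i ≤ c) (h : ∀ i, |f i - g i| ≤ r) :
    |(⨆ i, f i) - ⨆ i, g i| ≤ r := by
  have hbf : BddAbove (Set.range f) := ⟨c, by rintro _ ⟨i, rfl⟩; exact hf i⟩
  have hbg : BddAbove (Set.range g) := ⟨c, by rintro _ ⟨i, rfl⟩; exact hg i⟩
  rw [abs_le]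
  constructor
  · have : (⨆ i, g i) ≤ (⨆ i, f i) + r := by
      refine ciSup_le fun i => ?_
      have h1 := le_ciSup hbf i
      have h2 := (abs_le.mp (h i)).1
      linarith
    linarith
  · have : (⨆ i, f i) ≤ (⨆ i, g i) + r := by
      refine ciSup_le fun i => ?_
      have h1 := le_ciSup hbg i
      have h2 := (abs_le.mp (h i)).2
      linarith
    linarith

theorem mp_lip_aux [Nonempty (Br D)] (v v' : Br D → ℝ) (c r : ℝ) (hr : 0 ≤ r)
    (hv : ∀ b, |v b| ≤ c) (hv' : ∀ b, |v' b| ≤ c)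
    (h : ∀ b, |v b - v' b| ≤ r) (t : Nd) (l : C) : |mp D v t l - mp D v' t l| ≤ r := by
  unfold mp
  have hc : ∀ b : Br D, 0 ≤ c := fun b => (abs_nonneg _).trans (hv b)
  refine sup_lip_aux _ _ c r ?_ ?_ ?_
  · intro b
    split_ifs
    · exact max_le ((le_abs_self _).trans (hv b)) (hc b)
    · exact hc b
  · intro b
    split_ifs
    · exact max_le ((le_abs_self _).trans (hv' b)) (hc b)
    · exact hc b
  · intro b
    split_ifs
    · exact (abs_max_sub_max_le_abs _ _ _).trans (h b)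
    · simpa using hr

theorem nu_lip_aux [Nonempty (Br D)] (v v' : Br D → ℝ) (c r : ℝ) (hr : 0 ≤ r)
    (hv : ∀ b, |v b| ≤ c) (hv' : ∀ b, |v' b| ≤ c)
    (h : ∀ b, |v b - v' b| ≤ r) (t : Nd) (l : C) : |nu D v t l - nu D v' t l| ≤ r := by
  unfold nu
  have hc : ∀ b : Br D, 0 ≤ c := fun b => (abs_nonneg _).trans (hv b)
  refine sup_lip_aux _ _ c r ?_ ?_ ?_
  · intro b
    split_ifs
    · exact hv b
    · exact hc b
  · intro b
    split_ifs
    · exact hv' b
    · exact hc b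
  · intro b
    split_ifs
    · exact (abs_abs_sub_abs_le _ _).trans (h b)
    · simpa using hr

theorem gam_lip (v v' : Br D → ℝ) (c r : ℝ) (hv : ∀ b, |v b| ≤ c) (hv' : ∀ b, |v' b| ≤ c)
    (h : ∀ b, |v b - v' b| ≤ r) (t : Nd) (l : C) : |gam D v t l - gam D v' t l| ≤ 4 * r := by
  have hne : Nonempty (Br D) := ⟨⟨fun _ => (0, true), fun k => D.Npos k⟩⟩
  have hr : 0 ≤ r := (abs_nonneg _).trans (h hne.some)
  have hn : ∀ b : Br D, |-v b| ≤ c := fun b => by rw [abs_neg]; exact hv b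
  have hn' : ∀ b : Br D, |-v' b| ≤ c := fun b => by rw [abs_neg]; exact hv' b
  have hh : ∀ b : Br D, |-v b - -v' b| ≤ r := fun b => by
    rw [← abs_neg, show -(-v b - -v' b) = v b - v' b by ring]; exact h b
  have m1 := mp_lip_aux D v v' c r hr hv hv' h t l
  have m2 := mp_lip_aux D (fun b => -v b) (fun b => -v' b) c r hr hn hn' hh t l
  have n1 := nu_lip_aux D v v' c r hr hv hv' h t l
  have a1 := abs_max_sub_max_le_abs (mp D v t l - nu D v t l) (mp D v' t l - nu D v' t l) 0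
  have a2 := abs_max_sub_max_le_abs (mp D (fun b => -v b) t l - nu D v t l)
    (mp D (fun b => -v' b) t l - nu D v' t l) 0
  unfold gam
  rw [abs_le] at m1 m2 n1
  have b1 : |mp D v t l - nu D v t l - (mp D v' t l - nu D v' t l)| ≤ 2 * r := by
    rw [abs_le]; constructor <;> linarith [m1.1, m1.2, n1.1, n1.2]
  have b2 : |mp D (fun b => -v b) t l - nu D v t l -
      (mp D (fun b => -v' b) t l - nu D v' t l)| ≤ 2 * r := by
    rw [abs_le]; constructor <;> linarith [m2.1, m2.2, n1.1, n1.2]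
  have c1 := a1.trans b1
  have c2 := a2.trans b2
  rw [abs_le] at c1 c2 ⊢
  constructor <;> linarith [c1.1, c1.2, c2.1, c2.2]

end Pool.Agent.Helper983.SL
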