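import Pool.Agent.Helper983.SL.Defs

set_option autoImplicit false

namespace Pool.Agent.Helper983.SL

open Finset

variable (D : Design)



theorem gam_abs_aux (v : Br D → ℝ) (c : ℝ) (hc : 0 ≤ c) (hv : ∀ b, v b ≤ c)
    (w : Br D → ℝ) (t : Nd) (l : C) :
    0 ≤ max (mp D v t l - nu D w t l) 0 ∧ max (mp D v t l - nu D w t l) 0 ≤ c := by
  have : Nonempty (Br D) := ⟨⟨fun _ => (0, true), fun k => D.Npos k⟩⟩
  have h1 : mp D v t l ≤ c := by
    unfold mp
    refine ciSup_le (fun b => ?_)
    split_ifs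
    · exact max_le (hv b) hc
    · exact hc
  have h2 : 0 ≤ nu D w t l := by
    unfold nu
    refine Real.iSup_nonneg (fun b => ?_)
    split_ifs
    · exact abs_nonneg _
    · exact le_refl _
  exact ⟨le_max_right _ _, max_le (by linarith) hc⟩

theorem gam_abs (v : Br D → ℝ) (c : ℝ) (hv : ∀ b, |v b| ≤ c) (t : Nd) (l : C) :
    |gam D v t l| ≤ c := by
  have : Nonempty (Br D) := ⟨⟨fun _ => (0, true), fun k => D.Npos k⟩⟩
  have hc : 0 ≤ c := le_trans (abs_nonneg _) (hv (Classical.arbitrary (Br D)))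
  have a1 := gam_abs_aux D v c hc (fun b => (le_abs_self _).trans (hv b)) v t l
  have a2 := gam_abs_aux D (fun b => - v b) c hc (fun b => (neg_le_abs _).trans (hv b)) v t l
  unfold gam
  rw [abs_le]
  constructor
  · linarith [a1.1, a2.2]
  · linarith [a1.2, a2.1]

end Pool.Agent.Helper983.SL
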