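import Pool.Agent.Helper983.SL.Defs

set_option autoImplicit false

namespace Pool.Agent.Helper983.SL

open Finset

variable (D : Design)



theorem gu_nd_tail (b : ℕ → C) (t : Nd) (l : C) (h : nd b (t.length + 1) = l :: t) :
    nd b t.tail.length = t.tail := by
  have h1 : nd b t.length = t := by
    have : b t.length :: nd b t.length = l :: t := h
    exact (List.cons.inj this).2
  cases t with
  | nil => rfl
  | cons a p =>
    have : b p.length :: nd b p.length = a :: p := h1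
    exact (List.cons.inj this).2

theorem gu_nu_nonneg (v : Br D → ℝ) (t : Nd) (l : C) : 0 ≤ nu D v t l := by
  unfold nu
  refine Real.iSup_nonneg ?_
  intro b
  split_ifs <;> simp

theorem gu_le_nu (v : Br D → ℝ) (c : ℝ) (hv : ∀ b, |v b| ≤ c) (t : Nd) (l : C) (b : Br D)
    (h1 : nd b.1 t.tail.length = t.tail) (h2 : nd b.1 (t.length + 1) ≠ l :: t) :
    |v b| ≤ nu D v t l := by
  unfold nu
  have hb : BddAbove (Set.range (fun b : Br D =>
      if nd b.1 t.tail.length = t.tail ∧ nd b.1 (t.length + 1) ≠ l :: t then |v b| else 0)) := by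
    refine ⟨max c 0, ?_⟩
    rintro _ ⟨b, rfl⟩
    dsimp only
    split_ifs
    · exact (hv b).trans (le_max_left _ _)
    · exact le_max_right _ _
  have h3 := le_ciSup hb b
  rw [if_pos ⟨h1, h2⟩] at h3
  exact h3

theorem gu_mp_le (v w : Br D → ℝ) (c : ℝ) (hv : ∀ b, |v b| ≤ c) (hw : ∀ b, w b ≤ |v b|)
    (t t' : Nd) (l l' : C)
    (h1 : t.tail = t'.tail) (h2 : t.length = t'.length) (h3 : l :: t ≠ l' :: t') :
    mp D w t l ≤ nu D v t' l' := by
  unfold mp
  refine Real.iSup_le ?_ (gu_nu_nonneg D v t' l')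
  intro b
  split_ifs with h
  · refine max_le ((hw b).trans ?_) (gu_nu_nonneg D v t' l')
    refine gu_le_nu D v c hv t' l' b ?_ ?_
    · rw [← h1]
      exact gu_nd_tail b.1 t l h
    · rw [← h2, h]
      exact h3
  · exact gu_nu_nonneg D v t' l'

theorem gu_lt (v : Br D → ℝ) (t : Nd) (l : C) (h : gam D v t l ≠ 0) :
    nu D v t l < mp D v t l ∨ nu D v t l < mp D (fun b => -v b) t l := by
  by_contra hc
  push Not at hc
  apply h
  unfold gam
  rw [max_eq_right (by linarith [hc.1]), max_eq_right (by linarith [hc.2]), sub_zero]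

theorem gu_nu_lt (v : Br D → ℝ) (c : ℝ) (hv : ∀ b, |v b| ≤ c)
    (t t' : Nd) (l l' : C)
    (h1 : t.tail = t'.tail) (h2 : t.length = t'.length) (h3 : l :: t ≠ l' :: t')
    (h : gam D v t l ≠ 0) : nu D v t l < nu D v t' l' := by
  rcases gu_lt D v t l h with h4 | h4
  · exact h4.trans_le (gu_mp_le D v v c hv (fun b => le_abs_self _) t t' l l' h1 h2 h3)
  · exact h4.trans_le (gu_mp_le D v _ c hv (fun b => neg_le_abs _) t t' l l' h1 h2 h3)

theorem gu_main (v : Br D → ℝ) (c : ℝ) (hv : ∀ b, |v b| ≤ c)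
    (t t' : Nd) (l l' : C)
    (h1 : t.tail = t'.tail) (h2 : t.length = t'.length)
    (h : gam D v t l ≠ 0) (h' : gam D v t' l' ≠ 0) : l :: t = l' :: t' := by
  by_contra h3
  have a1 := gu_nu_lt D v c hv t t' l l' h1 h2 h3 h
  have a2 := gu_nu_lt D v c hv t' t l' l h1.symm h2.symm (fun e => h3 e.symm) h'
  exact lt_asymm a1 a2

theorem gam_uniq1 (v : Br D → ℝ) (c : ℝ) (hv : ∀ b, |v b| ≤ c) (t : Nd) (l l' : C)
    (h : gam D v t l ≠ 0) (h' : gam D v t l' ≠ 0) : l = l' :=
  (List.cons.inj (gu_main D v c hv t t l l' rfl rfl h h')).1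
theorem gam_uniq2 (v : Br D → ℝ) (c : ℝ) (hv : ∀ b, |v b| ≤ c) (t : Nd) (l l' m m' : C)
    (h : gam D v (l :: t) m ≠ 0) (h' : gam D v (l' :: t) m' ≠ 0) : l = l' ∧ m = m' := by
  have h1 := List.cons.inj (gu_main D v c hv (l :: t) (l' :: t) m m' rfl rfl h h')
  exact ⟨(List.cons.inj h1.2).1, h1.1⟩

end Pool.Agent.Helper983.SL
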