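import Pool.Agent.Helper983.SL.Defs
import Pool.Agent.Helper983.SL.P_gam_abs
import Pool.Agent.Helper983.SL.P_gam_uniq

set_option autoImplicit false

namespace Pool.Agent.Helper983.SL

open Finset

variable (D : Design)




theorem sF_abs_sum {ι : Type*} (s : Finset ι) (f : ι → ℝ) (c : ℝ) (hc : 0 ≤ c)
    (hu : ∀ a ∈ s, ∀ b ∈ s, f a ≠ 0 → f b ≠ 0 → a = b) (hf : ∀ a ∈ s, |f a| ≤ c) :
    |∑ a ∈ s, f a| ≤ c := by
  by_cases h : ∃ a ∈ s, f a ≠ 0
  · obtain ⟨a, ha, hfa⟩ := h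
    rw [Finset.sum_eq_single_of_mem a ha (fun b hb hba => by
      by_contra hfb
      exact hba (hu b hb a ha hfb hfa))]
    exact hf a ha
  · have h0 : ∑ a ∈ s, f a = 0 := by
      refine Finset.sum_eq_zero fun a ha => ?_
      by_contra hfa
      exact h ⟨a, ha, hfa⟩
    rw [h0, abs_zero]
    exact hc

theorem sF_abs_term (a g A c : ℝ) (ha : |a| = 1) (hg : |g| ≤ c) (hA : |A| ≤ 1) : |a * g * A| ≤ c := by
  rw [abs_mul, abs_mul, ha, one_mul]
  calc |g| * |A| ≤ |g| * 1 := mul_le_mul_of_nonneg_left hA (abs_nonneg _)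
    _ ≤ c := by rw [mul_one]; exact hg

theorem sF_abs (v : Br D → ℝ) (c : ℝ) (hv : ∀ b, |v b| ≤ c) (w : Om) :
    |sF D v w| ≤ 2 * c := by
  have hc : 0 ≤ c := (abs_nonneg _).trans (hv ⟨fun _ => (0, false), fun k => D.Npos k⟩)
  have hs : ∀ c, |sg c| = 1 := by intro c; unfold sg; split_ifs <;> simp
  unfold sF
  split_ifs with h1
  · refine (abs_add_le _ _).trans ?_
    rw [two_mul]
    refine add_le_add ?_ ?_
    · refine sF_abs_sum _ _ c hc ?_ ?_
      · intro a _ b _ ha hb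
        exact gam_uniq1 D v c hv w.1 a b (fun h => ha (by rw [h]; ring)) (fun h => hb (by rw [h]; ring))
      · intro a _
        exact sF_abs_term _ _ _ _ (hs _) (gam_abs D v c hv _ _) (D.A1 _ _ _)
    · rw [← Finset.sum_product']
      refine sF_abs_sum _ _ c hc ?_ ?_
      · intro a _ b _ ha hb
        have h2 := gam_uniq2 D v c hv w.1 a.1 b.1 a.2 b.2 (fun h => ha (by rw [h]; ring))
          (fun h => hb (by rw [h]; ring))
        exact Prod.ext h2.1 h2.2
      · intro a _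
        exact sF_abs_term _ _ _ _ (hs _) (gam_abs D v c hv _ _) (D.B1 _ _ _ _)
  · rw [abs_zero]
    linarith

end Pool.Agent.Helper983.SL
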