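import Pool.Agent.Helper983.SL.Defs
import Pool.Agent.Helper983.SL.P_nd_length

set_option autoImplicit false

namespace Pool.Agent.Helper983.SL

open Finset

variable (D : Design)



theorem nd_det (b b' : ℕ → C) : ∀ k, nd b k = nd b' k → ∀ i < k, b i = b' i := by
  intro k
  induction k with
  | zero => intro _ i hi; omega
  | succ k ih =>
    intro h i hi
    simp only [nd, List.cons.injEq] at h
    rcases Nat.lt_succ_iff_lt_or_eq.mp hi with h1 | h1
    · exact ih h.2 i h1
    · rw [h1]; exact h.1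

theorem iSup_single {I : Type*} (f : I → ℝ) (i0 : I) (c : ℝ) (hc : 0 ≤ c)
    (h0 : f i0 = c) (h : ∀ i, i ≠ i0 → f i = 0) : ⨆ i, f i = c := by
  have hle : ∀ i, f i ≤ c := by
    intro i
    by_cases hi : i = i0
    · rw [hi, h0]
    · rw [h i hi]; exact hc
  haveI : Nonempty I := ⟨i0⟩
  apply le_antisymm
  · exact ciSup_le hle
  · rw [← h0]
    exact le_ciSup (f := f) ⟨c, by rintro _ ⟨i, rfl⟩; exact hle i⟩ i0

theorem iSup_zero' {I : Type*} (f : I → ℝ) (h : ∀ i, f i = 0) : ⨆ i, f i = 0 := by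
  have : f = fun _ => 0 := funext h
  rw [this]
  exact Real.iSup_const_zero

theorem mp_off (S : Finset (Br D)) (v : Br D → ℝ) (hv : ∀ b, b ∉ S → v b = 0) (t : Nd) (l : C)
    (h : ∀ b ∈ S, nd b.1 (t.length + 1) ≠ l :: t) : mp D v t l = 0 := by
  unfold mp
  apply iSup_zero'
  intro b
  split_ifs with h1
  · have hb : b ∉ S := fun hb => h b hb h1
    rw [hv b hb]; simp
  · rfl

theorem gam_off (S : Finset (Br D)) (v : Br D → ℝ) (hv : ∀ b, b ∉ S → v b = 0) (t : Nd) (l : C)
    (h : ∀ b ∈ S, nd b.1 (t.length + 1) ≠ l :: t) : gam D v t l = 0 := by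
  unfold gam
  rw [mp_off D S v hv t l h, mp_off D S (fun b => -v b) (by intro b hb; simp [hv b hb]) t l h]
  simp

theorem exists_sep (S : Finset (Br D)) :
    ∃ K : ℕ, ∀ b ∈ S, ∀ b' ∈ S, b ≠ b' → ∀ k, K ≤ k → nd b.1 k ≠ nd b'.1 k := by
  classical
  have h1 : ∀ p : Br D × Br D, ∃ i : ℕ, p.1 ≠ p.2 → p.1.1 i ≠ p.2.1 i := by
    intro p
    by_cases hp : p.1 = p.2
    · exact ⟨0, fun h => absurd hp h⟩
    · have : p.1.1 ≠ p.2.1 := fun h => hp (Subtype.ext h)
      obtain ⟨i, hi⟩ := Function.ne_iff.mp this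
      exact ⟨i, fun _ => hi⟩
  choose f hf using h1
  refine ⟨(S ×ˢ S).sup f + 1, ?_⟩
  intro b hb b' hb' hne k hk heq
  have h2 : f (b, b') ≤ (S ×ˢ S).sup f :=
    Finset.le_sup (f := f) (Finset.mem_product.mpr ⟨hb, hb'⟩)
  exact hf (b, b') hne (nd_det b.1 b'.1 k heq (f (b, b')) (by omega))

theorem gam_far (S : Finset (Br D)) (v : Br D → ℝ) (hv : ∀ b, b ∉ S → v b = 0) :
    ∃ K : ℕ, ∀ t : Nd, K ≤ t.length → ∀ l : C,
      gam D v t l = ∑ b ∈ S, if nd b.1 (t.length + 1) = l :: t then v b else 0 := by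
  classical
  obtain ⟨K, hK⟩ := exists_sep D S
  refine ⟨K + 1, fun t ht l => ?_⟩
  by_cases hex : ∃ b ∈ S, nd b.1 (t.length + 1) = l :: t
  · obtain ⟨b0, hb0, hb0t⟩ := hex
    have hother : ∀ b ∈ S, b ≠ b0 → nd b.1 (t.length + 1) ≠ l :: t := by
      intro b hb hne h
      exact hK b hb b0 hb0 hne (t.length + 1) (by omega) (h.trans hb0t.symm)
    have htt : nd b0.1 t.length = t := by
      simp only [nd, List.cons.injEq] at hb0t
      exact hb0t.2
    have htail : nd b0.1 t.tail.length = t.tail := by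
      rcases t with _ | ⟨m, p⟩
      · simp at ht
      · simp only [List.length_cons, nd, List.cons.injEq] at htt
        simpa using htt.2
    have hmp : ∀ w : Br D → ℝ, (∀ b, b ∉ S → w b = 0) → mp D w t l = max (w b0) 0 := by
      intro w hw
      unfold mp
      apply iSup_single _ b0 _ (le_max_right _ _)
      · rw [if_pos hb0t]
      · intro b hb
        by_cases hbS : b ∈ S
        · rw [if_neg (hother b hbS hb)]
        · rw [hw b hbS]; simp
    have hnu : nu D v t l = 0 := by
      unfold nu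
      apply iSup_zero'
      intro b
      by_cases hbS : b ∈ S
      · by_cases hbb : b = b0
        · rw [hbb, if_neg]
          rintro ⟨_, h2⟩
          exact h2 hb0t
        · rw [if_neg]
          rintro ⟨h1, _⟩
          refine hK b hbS b0 hb0 hbb t.tail.length ?_ (h1.trans htail.symm)
          simp; omega
      · rw [hv b hbS]; simp
    have hsum : ∑ b ∈ S, (if nd b.1 (t.length + 1) = l :: t then v b else 0) = v b0 := by
      rw [Finset.sum_eq_single b0]
      · rw [if_pos hb0t]
      · intro b hb hne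
        rw [if_neg (hother b hb hne)]
      · intro h; exact absurd hb0 h
    rw [hsum]
    unfold gam
    rw [hnu, hmp v hv, hmp (fun b => -v b) (by intro b hb; simp [hv b hb])]
    rcases le_total 0 (v b0) with h | h
    · rw [max_eq_left h, max_eq_right (by linarith : -v b0 ≤ 0)]
      simp [h]
    · rw [max_eq_right h, max_eq_left (by linarith : 0 ≤ -v b0)]
      simp [h]
  · push Not at hex
    rw [gam_off D S v hv t l hex, Finset.sum_eq_zero]
    intro b hb
    rw [if_neg (hex b hb)]

end Pool.Agent.Helper983.SL
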