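import Pool.Agent.Helper983.SL.Defs
import Pool.Agent.Helper983.SL.P_nd_length
import Pool.Agent.Helper983.SL.P_gam_far
import Pool.Agent.Helper983.SL.P_sF_abs

set_option autoImplicit false

namespace Pool.Agent.Helper983.SL

open Finset

variable (D : Design)



theorem sF_fin_sum {α : Type*} [DecidableEq α] (T U : Finset α) (f : α → ℝ)
    (hT : ∀ t, t ∉ T → f t = 0) (hU : ∀ t, t ∉ U → f t = 0) : ∑ t ∈ T, f t = ∑ t ∈ U, f t := by
  rw [Finset.sum_subset (Finset.subset_union_left (s₁ := T) (s₂ := U)) (fun x _ hx => hT x hx),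
    Finset.sum_subset (Finset.subset_union_right (s₁ := T) (s₂ := U)) (fun x _ hx => hU x hx)]

/-- the difference of the coefficients -/
noncomputable def sF_fin_dd (S : Finset (Br D)) (v : Br D → ℝ) (t : Nd) (l : C) : ℝ :=
  gam D v t l - ∑ b ∈ S, if nd b.1 (t.length + 1) = l :: t then v b else 0

theorem sF_fin_uF (b : ℕ → C) (hb : Vb D b) (s : Nd) (g : ℕ) (hg : g < D.M s.length) :
    uF D b (s, g) = (∑ l ∈ labs D s.length,
        sg l.2 * (if nd b (s.length + 1) = l :: s then 1 else 0) * D.A s.length l.1 g) +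
      ∑ l ∈ labs D s.length, ∑ m ∈ labs D (s.length + 1),
        sg m.2 * (if nd b (s.length + 2) = m :: l :: s then 1 else 0) *
          D.B s.length l m.1 g := by
  have hmem : ∀ k, b k ∈ labs D k := by
    intro k
    unfold labs
    rw [Finset.mem_product]
    exact ⟨Finset.mem_range.2 (hb k), Finset.mem_univ _⟩
  have e1 : ∀ l : C, nd b (s.length + 1) = l :: s ↔ b s.length = l ∧ nd b s.length = s := by
    intro l
    show b s.length :: nd b s.length = l :: s ↔ _
    rw [List.cons.injEq]
  have e2 : ∀ l m : C, nd b (s.length + 2) = m :: l :: s ↔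
      b (s.length + 1) = m ∧ b s.length = l ∧ nd b s.length = s := by
    intro l m
    show b (s.length + 1) :: b s.length :: nd b s.length = m :: l :: s ↔ _
    rw [List.cons.injEq, List.cons.injEq]
  by_cases hs : nd b s.length = s
  · have h1 : uF D b (s, g) = sg (b s.length).2 * D.A s.length (b s.length).1 g +
        sg (b (s.length + 1)).2 * D.B s.length (b s.length) (b (s.length + 1)).1 g := by
      unfold uF
      rw [if_pos ⟨hg, hs.symm⟩]
    rw [h1]
    congr 1
    · rw [Finset.sum_eq_single (b s.length)]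
      · rw [if_pos ((e1 _).2 ⟨rfl, hs⟩), mul_one]
      · intro l _ hl
        rw [if_neg (fun h => hl ((e1 l).1 h).1.symm), mul_zero, zero_mul]
      · intro h
        exact absurd (hmem _) h
    · rw [Finset.sum_eq_single (b s.length)]
      · rw [Finset.sum_eq_single (b (s.length + 1))]
        · rw [if_pos ((e2 _ _).2 ⟨rfl, rfl, hs⟩), mul_one]
        · intro m _ hm
          rw [if_neg (fun h => hm ((e2 _ m).1 h).1.symm), mul_zero, zero_mul]
        · intro h
          exact absurd (hmem _) h
      · intro l _ hl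
        apply Finset.sum_eq_zero
        intro m _
        rw [if_neg (fun h => hl ((e2 l m).1 h).2.1.symm), mul_zero, zero_mul]
      · intro h
        exact absurd (hmem _) h
  · have h1 : uF D b (s, g) = 0 := by
      unfold uF
      rw [if_neg]
      rintro ⟨-, h⟩
      exact hs h.symm
    rw [h1]
    rw [Finset.sum_eq_zero, Finset.sum_eq_zero, add_zero]
    · intro l _
      apply Finset.sum_eq_zero
      intro m _
      rw [if_neg (fun h => hs ((e2 l m).1 h).2.2), mul_zero, zero_mul]
    · intro l _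
      rw [if_neg (fun h => hs ((e1 l).1 h).2), mul_zero, zero_mul]

theorem sF_fin_lhs (S : Finset (Br D)) (v : Br D → ℝ) (s : Nd) (g : ℕ)
    (hg : g < D.M s.length) :
    sF D v (s, g) - ∑ b ∈ S, v b * uF D b.1 (s, g) =
      (∑ l ∈ labs D s.length, sg l.2 * sF_fin_dd D S v s l * D.A s.length l.1 g) +
      ∑ l ∈ labs D s.length, ∑ m ∈ labs D (s.length + 1),
        sg m.2 * sF_fin_dd D S v (l :: s) m * D.B s.length l m.1 g := by
  have h1 : sF D v (s, g) =
      (∑ l ∈ labs D s.length, sg l.2 * gam D v s l * D.A s.length l.1 g) +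
      ∑ l ∈ labs D s.length, ∑ m ∈ labs D (s.length + 1),
        sg m.2 * gam D v (l :: s) m * D.B s.length l m.1 g := by
    unfold sF
    rw [if_pos hg]
  have h2 : ∑ b ∈ S, v b * uF D b.1 (s, g) =
      (∑ l ∈ labs D s.length, sg l.2 * (∑ b ∈ S, if nd b.1 (s.length + 1) = l :: s then v b
        else 0) * D.A s.length l.1 g) +
      ∑ l ∈ labs D s.length, ∑ m ∈ labs D (s.length + 1),
        sg m.2 * (∑ b ∈ S, if nd b.1 ((l :: s).length + 1) = m :: l :: s then v b else 0) *
          D.B s.length l m.1 g := by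
    have h3 : ∀ b ∈ S, v b * uF D b.1 (s, g) =
        (∑ l ∈ labs D s.length, sg l.2 * (if nd b.1 (s.length + 1) = l :: s then v b
          else 0) * D.A s.length l.1 g) +
        ∑ l ∈ labs D s.length, ∑ m ∈ labs D (s.length + 1),
          sg m.2 * (if nd b.1 ((l :: s).length + 1) = m :: l :: s then v b else 0) *
            D.B s.length l m.1 g := by
      intro b _
      rw [sF_fin_uF D b.1 b.2 s g hg, mul_add, Finset.mul_sum, Finset.mul_sum]
      congr 1
      · apply Finset.sum_congr rfl
        intro l _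
        split_ifs <;> ring
      · apply Finset.sum_congr rfl
        intro l _
        rw [Finset.mul_sum]
        apply Finset.sum_congr rfl
        intro m _
        show v b * (sg m.2 * (if nd b.1 (s.length + 2) = m :: l :: s then 1 else 0) *
          D.B s.length l m.1 g) = sg m.2 * (if nd b.1 (s.length + 2) = m :: l :: s then v b
            else 0) * D.B s.length l m.1 g
        split_ifs <;> ring
    rw [Finset.sum_congr rfl h3, Finset.sum_add_distrib]
    congr 1
    · rw [Finset.sum_comm]
      apply Finset.sum_congr rfl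
      intro l _
      rw [Finset.mul_sum, Finset.sum_mul]
    · rw [Finset.sum_comm]
      apply Finset.sum_congr rfl
      intro l _
      rw [Finset.sum_comm]
      apply Finset.sum_congr rfl
      intro m _
      rw [Finset.mul_sum, Finset.sum_mul]
  rw [h1, h2, add_sub_add_comm, ← Finset.sum_sub_distrib, ← Finset.sum_sub_distrib]
  congr 1
  · apply Finset.sum_congr rfl
    intro l _
    unfold sF_fin_dd
    ring
  · apply Finset.sum_congr rfl
    intro l _
    rw [← Finset.sum_sub_distrib]
    apply Finset.sum_congr rfl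
    intro m _
    unfold sF_fin_dd
    ring

theorem sF_fin_ne_cons (s : Nd) (l : C) : s ≠ l :: s := by
  intro h
  have := congrArg List.length h
  simp at this

theorem sF_fin_eF1 (s : Nd) (g j : ℕ) (hg : g < D.M s.length) :
    eF D s j (s, g) = D.A s.length j g := by
  unfold eF
  rw [if_pos hg, if_pos rfl]
  rcases s with _ | ⟨l, p⟩
  · simp
  · have : l :: p ≠ p := fun h => sF_fin_ne_cons p l h.symm
    simp [this]

theorem sF_fin_eF2 (s : Nd) (l : C) (g j : ℕ) (hg : g < D.M s.length) :
    eF D (l :: s) j (s, g) = D.B s.length l j g := by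
  unfold eF
  rw [if_pos hg, if_neg (sF_fin_ne_cons s l), zero_add]
  simp

theorem sF_fin_eF3 (s t : Nd) (g j : ℕ) (h1 : t ≠ s) (h2 : ∀ l : C, l.1 < D.N s.length →
    t ≠ l :: s) : eF D t j (s, g) = 0 := by
  unfold eF
  by_cases hg : g < D.M s.length
  · rw [if_pos hg, if_neg h1.symm, zero_add]
    rcases t with _ | ⟨l, p⟩
    · rfl
    · show (if s = p then D.B p.length l j g else 0) = 0
      by_cases hp : s = p
      · rw [if_pos hp]
        subst hp
        apply D.B0
        left
        by_contra hc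
        exact h2 l (not_le.1 hc) rfl
      · rw [if_neg hp]
  · exact if_neg hg

theorem sF_fin_rhs (S : Finset (Br D)) (v : Br D → ℝ) (T : Finset Nd)
    (hT : ∀ t, t ∉ T → ∀ l, sF_fin_dd D S v t l = 0) (s : Nd) (g : ℕ) (hg : g < D.M s.length) :
    ∑ t ∈ T, ∑ l ∈ labs D t.length, (sg l.2 * sF_fin_dd D S v t l) * eF D t l.1 (s, g) =
      (∑ l ∈ labs D s.length, sg l.2 * sF_fin_dd D S v s l * D.A s.length l.1 g) +
      ∑ l ∈ labs D s.length, ∑ m ∈ labs D (s.length + 1),
        sg m.2 * sF_fin_dd D S v (l :: s) m * D.B s.length l m.1 g := by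
  classical
  have hs : s ∉ (labs D s.length).image (fun l => l :: s) := by
    rw [Finset.mem_image]
    rintro ⟨l, -, h⟩
    exact sF_fin_ne_cons s l h.symm
  rw [sF_fin_sum T (insert s ((labs D s.length).image (fun l => l :: s)))]
  · rw [Finset.sum_insert hs, Finset.sum_image]
    · congr 1
      · apply Finset.sum_congr rfl
        intro l _
        rw [sF_fin_eF1 D s g l.1 hg]
      · apply Finset.sum_congr rfl
        intro l _
        show ∑ m ∈ labs D (s.length + 1), _ = _
        apply Finset.sum_congr rfl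
        intro m _
        rw [sF_fin_eF2 D s l g m.1 hg]
    · intro l _ l' _ h
      exact (List.cons.inj h).1
  · intro t ht
    apply Finset.sum_eq_zero
    intro l _
    rw [hT t ht l, mul_zero, zero_mul]
  · intro t ht
    rw [Finset.mem_insert, not_or, Finset.mem_image] at ht
    apply Finset.sum_eq_zero
    intro l _
    rw [sF_fin_eF3 D s t g l.1 ht.1, mul_zero]
    intro l' hl' h
    apply ht.2
    refine ⟨l', ?_, h.symm⟩
    unfold labs
    rw [Finset.mem_product]
    exact ⟨Finset.mem_range.2 hl', Finset.mem_univ _⟩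

theorem sF_fin_zero (v : Br D → ℝ) (s : Nd) (g : ℕ) (hg : ¬ g < D.M s.length) :
    sF D v (s, g) = 0 ∧ (∀ b, uF D b (s, g) = 0) ∧ ∀ t j, eF D t j (s, g) = 0 := by
  refine ⟨if_neg hg, fun b => if_neg (fun h => hg h.1), fun t j => if_neg hg⟩


theorem sF_fin (S : Finset (Br D)) (v : Br D → ℝ) (hv : ∀ b, b ∉ S → v b = 0) (c : ℝ)
    (hc : ∀ b, |v b| ≤ c) :
    mkL (sF D v) (2 * c) (sF_abs D v c hc) - ∑ b ∈ S, v b • u D b.1 ∈
      Submodule.span ℝ (Es D) := by
  classical
  obtain ⟨K, hK⟩ := gam_far D S v hv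
  obtain ⟨T, hTdef⟩ : ∃ T : Finset Nd, T = (S ×ˢ range K).image (fun p => nd p.1.1 p.2) :=
    ⟨_, rfl⟩
  have hT : ∀ t, t ∉ T → ∀ l, sF_fin_dd D S v t l = 0 := by
    intro t ht l
    unfold sF_fin_dd
    by_cases hk : K ≤ t.length
    · rw [hK t hk l, sub_self]
    · have h1 : ∀ b ∈ S, nd b.1 (t.length + 1) ≠ l :: t := by
        intro b hb h
        apply ht
        rw [hTdef, Finset.mem_image]
        refine ⟨(b, t.length), Finset.mem_product.2 ⟨hb, Finset.mem_range.2 (not_le.1 hk)⟩, ?_⟩
        have h' : b.1 t.length :: nd b.1 t.length = l :: t := h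
        exact (List.cons.inj h').2
      rw [gam_off D S v hv t l h1, Finset.sum_eq_zero, sub_zero]
      intro b hb
      rw [if_neg (h1 b hb)]
  have key : mkL (sF D v) (2 * c) (sF_abs D v c hc) - ∑ b ∈ S, v b • u D b.1 =
      ∑ t ∈ T, ∑ l ∈ labs D t.length, (sg l.2 * sF_fin_dd D S v t l) • e D t l.1 := by
    apply lp.ext
    funext w
    obtain ⟨s, g⟩ := w
    have h1 : (mkL (sF D v) (2 * c) (sF_abs D v c hc) - ∑ b ∈ S, v b • u D b.1 : L) (s, g) =
        sF D v (s, g) - ∑ b ∈ S, v b * uF D b.1 (s, g) := by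
      rw [lp.coeFn_sub, Pi.sub_apply, lp.coeFn_sum, Finset.sum_apply]
      rfl
    have h2 : (∑ t ∈ T, ∑ l ∈ labs D t.length, (sg l.2 * sF_fin_dd D S v t l) • e D t l.1 : L)
        (s, g) = ∑ t ∈ T, ∑ l ∈ labs D t.length, (sg l.2 * sF_fin_dd D S v t l) *
          eF D t l.1 (s, g) := by
      rw [lp.coeFn_sum, Finset.sum_apply]
      apply Finset.sum_congr rfl
      intro t _
      rw [lp.coeFn_sum, Finset.sum_apply]
      rfl
    rw [h1, h2]
    by_cases hg : g < D.M s.length
    · rw [sF_fin_lhs D S v s g hg, sF_fin_rhs D S v T hT s g hg]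
    · obtain ⟨z1, z2, z3⟩ := sF_fin_zero D v s g hg
      rw [z1]
      simp only [z2, z3, mul_zero, Finset.sum_const_zero, sub_zero]
  rw [key]
  apply Submodule.sum_mem
  intro t _
  apply Submodule.sum_mem
  intro l _
  apply Submodule.smul_mem
  exact Submodule.subset_span ⟨(t, l.1), rfl⟩

end Pool.Agent.Helper983.SL
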