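import Pool.Agent.Helper983.SL.Defs
import Pool.Agent.Helper983.SL.P_gam_lip
import Pool.Agent.Helper983.SL.P_gam_uniq

set_option autoImplicit false

namespace Pool.Agent.Helper983.SL

open Finset

variable (D : Design)



theorem sF_lip_two {ι : Type*} [DecidableEq ι] (s : Finset ι) (f g : ι → ℝ) (r : ℝ) (hr : 0 ≤ r)
    (hf : ∀ i j, f i ≠ 0 → f j ≠ 0 → i = j) (hg : ∀ i j, g i ≠ 0 → g j ≠ 0 → i = j)
    (h : ∀ i, |f i - g i| ≤ 4 * r) : ∑ i ∈ s, |f i - g i| ≤ 8 * r := by
  classical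
  obtain ⟨S, hS⟩ : ∃ S, S = (s.filter (fun i => f i ≠ 0)) ∪ (s.filter (fun i => g i ≠ 0)) :=
    ⟨_, rfl⟩
  have hcard : S.card ≤ 2 := by
    rw [hS]
    refine (Finset.card_union_le _ _).trans ?_
    have h1 : (s.filter (fun i => f i ≠ 0)).card ≤ 1 := by
      rw [Finset.card_le_one]
      intro a ha b hb
      exact hf a b (Finset.mem_filter.1 ha).2 (Finset.mem_filter.1 hb).2
    have h2 : (s.filter (fun i => g i ≠ 0)).card ≤ 1 := by
      rw [Finset.card_le_one]
      intro a ha b hb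
      exact hg a b (Finset.mem_filter.1 ha).2 (Finset.mem_filter.1 hb).2
    omega
  have hsub : S ⊆ s := by
    rw [hS]
    exact Finset.union_subset (Finset.filter_subset _ _) (Finset.filter_subset _ _)
  have h1 : ∑ i ∈ s, |f i - g i| = ∑ i ∈ S, |f i - g i| := by
    symm
    refine Finset.sum_subset hsub fun i hi hiS => ?_
    rw [hS, Finset.mem_union, Finset.mem_filter, Finset.mem_filter] at hiS
    have hfi : f i = 0 := by
      by_contra hne
      exact hiS (Or.inl ⟨hi, hne⟩)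
    have hgi : g i = 0 := by
      by_contra hne
      exact hiS (Or.inr ⟨hi, hne⟩)
    rw [hfi, hgi]; simp
  rw [h1]
  calc ∑ i ∈ S, |f i - g i| ≤ S.card • (4 * r) := Finset.sum_le_card_nsmul _ _ _ (fun i _ => h i)
    _ ≤ 8 * r := by
        rw [nsmul_eq_mul]
        have : (S.card : ℝ) ≤ 2 := by exact_mod_cast hcard
        nlinarith

theorem sF_lip_sg (b : Bool) : |sg b| = 1 := by
  unfold sg; split_ifs <;> simp

theorem sF_lip_term (b : Bool) (x y A : ℝ) (hA : |A| ≤ 1) :
    |sg b * x * A - sg b * y * A| ≤ |x - y| := by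
  have : sg b * x * A - sg b * y * A = sg b * (x - y) * A := by ring
  rw [this, abs_mul, abs_mul, sF_lip_sg, one_mul]
  exact mul_le_of_le_one_right (abs_nonneg _) hA

theorem sF_lip (v v' : Br D → ℝ) (c r : ℝ) (hv : ∀ b, |v b| ≤ c) (hv' : ∀ b, |v' b| ≤ c)
    (h : ∀ b, |v b - v' b| ≤ r) (w : Om) : |sF D v w - sF D v' w| ≤ 16 * r := by
  classical
  have hr : 0 ≤ r := by
    have := h ⟨fun _ => (0, true), fun k => D.Npos k⟩
    exact (abs_nonneg _).trans this
  unfold sF
  by_cases hw : w.2 < D.M w.1.length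
  · rw [if_pos hw, if_pos hw]
    have h1 : |(∑ l ∈ labs D w.1.length, sg l.2 * gam D v w.1 l * D.A w.1.length l.1 w.2) -
        ∑ l ∈ labs D w.1.length, sg l.2 * gam D v' w.1 l * D.A w.1.length l.1 w.2| ≤ 8 * r := by
      rw [← Finset.sum_sub_distrib]
      refine (Finset.abs_sum_le_sum_abs _ _).trans ?_
      refine le_trans (Finset.sum_le_sum fun l _ => sF_lip_term l.2 _ _ _ (D.A1 _ _ _)) ?_
      exact sF_lip_two _ (fun l => gam D v w.1 l) (fun l => gam D v' w.1 l) r hr
        (fun i j hi hj => gam_uniq1 D v c hv w.1 i j hi hj)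
        (fun i j hi hj => gam_uniq1 D v' c hv' w.1 i j hi hj)
        (fun l => gam_lip D v v' c r hv hv' h w.1 l)
    have h2 : |(∑ l ∈ labs D w.1.length, ∑ m ∈ labs D (w.1.length + 1),
        sg m.2 * gam D v (l :: w.1) m * D.B w.1.length l m.1 w.2) -
        ∑ l ∈ labs D w.1.length, ∑ m ∈ labs D (w.1.length + 1),
        sg m.2 * gam D v' (l :: w.1) m * D.B w.1.length l m.1 w.2| ≤ 8 * r := by
      rw [← Finset.sum_product', ← Finset.sum_product', ← Finset.sum_sub_distrib]
      refine (Finset.abs_sum_le_sum_abs _ _).trans ?_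
      refine le_trans (Finset.sum_le_sum fun x _ => sF_lip_term x.2.2 _ _ _ (D.B1 _ _ _ _)) ?_
      exact sF_lip_two _ (fun x : C × C => gam D v (x.1 :: w.1) x.2)
        (fun x : C × C => gam D v' (x.1 :: w.1) x.2) r hr
        (fun i j hi hj => by
          obtain ⟨h1, h2⟩ := gam_uniq2 D v c hv w.1 i.1 j.1 i.2 j.2 hi hj
          exact Prod.ext h1 h2)
        (fun i j hi hj => by
          obtain ⟨h1, h2⟩ := gam_uniq2 D v' c hv' w.1 i.1 j.1 i.2 j.2 hi hj
          exact Prod.ext h1 h2)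
        (fun x => gam_lip D v v' c r hv hv' h (x.1 :: w.1) x.2)
    rw [add_sub_add_comm]
    refine (abs_add_le _ _).trans ?_
    linarith
  · rw [if_neg hw, if_neg hw, sub_self, abs_zero]
    positivity

end Pool.Agent.Helper983.SL
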