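import Pool.Agent.Helper983.SL.Defs
import Pool.Agent.Helper983.SL.P_al_linear
import Pool.Agent.Helper983.SL.P_coef
import Pool.Agent.Helper983.SL.P_gam_lip
import Pool.Agent.Helper983.SL.P_sF_abs
import Pool.Agent.Helper983.SL.P_sF_lip
import Pool.Agent.Helper983.SL.P_sF_fin

set_option autoImplicit false

namespace Pool.Agent.Helper983.SL

open Finset

variable (D : Design)



theorem exists_retraction : ∃ f : Xs D → Zs D, (∃ K, LipschitzWith K f) ∧
    ∀ z : Zs D, f (inc D z) = z := by
  classical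
  obtain ⟨cf, c1, c2, c3, c4⟩ := exists_coef D
  let v : L → Br D → ℝ := fun x b => cf b.1 x
  have hv : ∀ x b, |v x b| ≤ ‖x‖ := fun x b => c1 b.1 x
  let m0 : L → L := fun x => mkL (sF D (v x)) (2 * ‖x‖) (sF_abs D (v x) ‖x‖ (hv x))
  let f0 : L → L := fun x => x - m0 x
  have hlip : ∀ x y, ‖f0 x - f0 y‖ ≤ 17 * ‖x - y‖ := by
    intro x y
    have e1 : ‖m0 x - m0 y‖ ≤ 16 * ‖x - y‖ := by
      apply norm_le_of _ _ (by positivity)
      intro w
      exact sF_lip D (v x) (v y) (max ‖x‖ ‖y‖) ‖x - y‖
        (fun b => (hv x b).trans (le_max_left _ _)) (fun b => (hv y b).trans (le_max_right _ _))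
        (fun b => by
          change |cf b.1 x - cf b.1 y| ≤ _
          rw [← map_sub]; exact c1 _ _) w
    have e2 : f0 x - f0 y = (x - y) - (m0 x - m0 y) := by
      change (x - m0 x) - (y - m0 y) = _
      abel
    rw [e2]
    refine (norm_sub_le _ _).trans ?_
    linarith
  have hlip' : LipschitzWith 17 f0 := by
    refine LipschitzWith.of_dist_le_mul fun x y => ?_
    rw [dist_eq_norm, dist_eq_norm]
    exact hlip x y
  have hker : ∀ b, Zs D ≤ LinearMap.ker (cf b : L →ₗ[ℝ] ℝ) := by
    intro b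
    refine Submodule.topologicalClosure_minimal _ ?_ (ContinuousLinearMap.isClosed_ker (cf b))
    rw [Submodule.span_le]
    rintro _ ⟨p, rfl⟩
    exact c2 b p.1 p.2
  have hspanker : ∀ b z, z ∈ Submodule.span ℝ (Es D) → cf b z = 0 := fun b z hz =>
    hker b (Submodule.le_topologicalClosure _ hz)
  have hspan : ∀ x ∈ Submodule.span ℝ (Es D ∪ Us D), f0 x ∈ Submodule.span ℝ (Es D) := by
    intro x hx
    rw [Submodule.span_union, Submodule.mem_sup] at hx
    obtain ⟨z, hz, y, hy, rfl⟩ := hx
    have hU : Us D = Set.range (fun b : Br D => u D b.1) := by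
      ext x
      constructor
      · rintro ⟨b, hb, rfl⟩
        exact ⟨⟨b, hb⟩, rfl⟩
      · rintro ⟨b, rfl⟩
        exact ⟨b.1, b.2, rfl⟩
    rw [hU, Finsupp.mem_span_range_iff_exists_finsupp] at hy
    obtain ⟨c, rfl⟩ := hy
    have hvc : ∀ b : Br D, v (z + c.sum fun i a => a • u D i.1) b = c b := by
      intro b
      change cf b.1 (z + c.sum fun i a => a • u D i.1) = c b
      rw [map_add, hspanker _ z hz, zero_add, Finsupp.sum, map_sum]
      rw [Finset.sum_eq_single b]
      · rw [map_smul, c3 b.1 b.2, smul_eq_mul, mul_one]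
      · intro b' _ hb'
        rw [map_smul, c4 b.1 b'.1 b.2 b'.2 (fun h => hb' (Subtype.ext h.symm)), smul_zero]
      · intro hb
        rw [Finsupp.notMem_support_iff.1 hb, zero_smul, map_zero]
    set x := z + c.sum fun i a => a • u D i.1 with hx
    have h1 := sF_fin D c.support (v x) (fun b hb => by
      rw [hvc b]; exact Finsupp.notMem_support_iff.1 hb) ‖x‖ (hv x)
    have h2 : ∑ b ∈ c.support, v x b • u D b.1 = c.sum fun i a => a • u D i.1 := by
      rw [Finsupp.sum]
      exact Finset.sum_congr rfl fun b _ => by rw [hvc b]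
    have h3 : f0 x = z - (m0 x - ∑ b ∈ c.support, v x b • u D b.1) := by
      rw [h2]
      change x - m0 x = _
      rw [hx]
      abel
    rw [h3]
    exact Submodule.sub_mem _ hz h1
  have hmaps : ∀ x ∈ Xs D, f0 x ∈ Zs D := by
    intro x hx
    exact map_mem_closure hlip'.continuous hx (fun y hy => hspan y hy)
  refine ⟨fun x => ⟨f0 x.1, hmaps x.1 x.2⟩, ⟨17, ?_⟩, ?_⟩
  · refine LipschitzWith.of_dist_le_mul fun x y => ?_
    exact hlip'.dist_le_mul x.1 y.1
  · intro z
    apply Subtype.ext
    change z.1 - m0 z.1 = z.1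
    have : m0 z.1 = 0 := by
      apply lp.ext
      funext w
      have h0 := sF_abs D (v z.1) 0 (fun b => by
        have : v z.1 b = 0 := hker b.1 z.2
        rw [this, abs_zero]) w
      rw [mul_zero] at h0
      exact abs_nonpos_iff.1 h0
    rw [this, sub_zero]

end Pool.Agent.Helper983.SL
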