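import Pool.Agent.Helper983.SL.Defs
import Pool.Agent.Helper983.SL.P_retraction
import Pool.Agent.Helper983.SL.P_bump
import Pool.Agent.Helper983.SL.P_no_retraction
import Pool.Agent.Helper983.SL.P_avg_main
import Pool.Agent.Helper983.SL.P_design

set_option autoImplicit false

namespace Pool.Agent.Helper983.SL

theorem final :
    ¬ (∀ (k : ℕ∞) (X : Type) [NormedAddCommGroup X] [NormedSpace ℝ X] [CompleteSpace X]
      (Y : Type) [NormedAddCommGroup Y] [NormedSpace ℝ Y] [CompleteSpace Y],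
      (∃ b : X → ℝ, ContDiff ℝ (k : WithTop ℕ∞) b ∧ (∃ L, LipschitzWith L b) ∧
          (∃ x, b x ≠ 0) ∧ Bornology.IsBounded (Function.support b)) →
      ∀ f : X → Y, (∃ L, LipschitzWith L f) →
        ∀ ε : ℝ, 0 < ε →
          ∃ g : X → Y, ContDiff ℝ (k : WithTop ℕ∞) g ∧ (∃ L, LipschitzWith L g) ∧
            ∀ x, ‖f x - g x‖ < ε) := by
  intro H
  obtain ⟨D⟩ := exists_design
  have h1 : CompleteSpace (Xs D) := by
    unfold Xs; infer_instance
  have h2 : CompleteSpace (Zs D) := by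
    unfold Zs; infer_instance
  obtain ⟨f, hf, hfz⟩ := exists_retraction D
  obtain ⟨b, hb1, hb2, hb3, hb4⟩ := exists_bump D
  obtain ⟨g, hg1, ⟨M, hgM⟩, hg2⟩ :=
    H 1 (Xs D) (Zs D) ⟨b, by simpa using hb1, hb2, hb3, hb4⟩ f hf 1 one_pos
  obtain ⟨n, z, hz⟩ := no_retraction D M M.2
  obtain ⟨T, hT1, hT2⟩ := avg_main (X := Xs D) (Y := Zs D)
    { toFun := inc D, map_add' := fun _ _ => rfl, map_smul' := fun _ _ => rfl } f g hfz
    (by simpa using hg1) M M.2
    (fun x y => by simpa [dist_eq_norm] using hgM.dist_le_mul x y)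
    (fun x => (hg2 x).le) n z
  exact hz T hT1 hT2

end Pool.Agent.Helper983.SL
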