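import Pool.Agent.Helper983.SL.Defs
import Pool.Agent.Helper983.SL.P_fac
import Pool.Agent.Helper983.SL.P_Pr_facts
import Pool.Agent.Helper983.SL.P_Fb_lip
import Pool.Agent.Helper983.SL.P_coef
import Pool.Agent.Helper983.SL.P_star
import Pool.Agent.Helper983.SL.P_retraction
import Pool.Agent.Helper983.SL.P_no_retraction
import Pool.Agent.Helper983.SL.P_avg_main
import Pool.Agent.Helper983.SL.P_design

set_option autoImplicit false

namespace Pool.Agent.Helper983.SL

open Finset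
open scoped ContDiff

variable (D : Design)

theorem contDiff_int_nat (a b : ℝ) (n : ℕ) : ∀ (E F : Type) [NormedAddCommGroup E] [NormedSpace ℝ E]
    [ProperSpace E] [NormedAddCommGroup F] [NormedSpace ℝ F] [CompleteSpace F]
    (R : E × ℝ → F), ContDiff ℝ ∞ R → ContDiff ℝ n (fun y : E => ∫ τ in a..b, R (y, τ)) := by
  induction n with
  | zero =>
    intro E F _ _ _ _ _ _ R hR
    have : ((0 : ℕ) : WithTop ℕ∞) = 0 := rfl
    rw [this, contDiff_zero]
    have hc : Continuous (fun p : E × ℝ => R (p.1, p.2)) := hR.continuous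
    exact intervalIntegral.continuous_parametric_intervalIntegral_of_continuous'
      (f := fun y τ => R (y, τ)) hc a b
  | succ n ih =>
    intro E F _ _ _ _ _ _ R hR
    set F' : E → ℝ → (E →L[ℝ] F) := fun y τ =>
      (fderiv ℝ R (y, τ)).comp (ContinuousLinearMap.inl ℝ E ℝ) with hF'
    have hFs : ContDiff ℝ ∞ (fun p : E × ℝ => F' p.1 p.2) := by
      have h1 : ContDiff ℝ ∞ (fderiv ℝ R) := hR.fderiv_right (m := ∞) (by simp)
      exact h1.clm_comp contDiff_const
    have hcF : Continuous (fun p : E × ℝ => F' p.1 p.2) := hFs.continuous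
    have hdR : ∀ y τ, HasFDerivAt (fun y => R (y, τ)) (F' y τ) y := by
      intro y τ
      have h1 : HasFDerivAt R (fderiv ℝ R (y, τ)) (y, τ) :=
        ((hR.differentiable (by simp)) (y, τ)).hasFDerivAt
      exact h1.comp y (hasFDerivAt_prodMk_left y τ)
    have hmain : ∀ x₀ : E, HasFDerivAt (fun y : E => ∫ τ in a..b, R (y, τ))
        (∫ τ in a..b, F' x₀ τ) x₀ := by
      intro x₀
      have hK : IsCompact (Metric.closedBall x₀ 1 ×ˢ Set.uIcc a b) :=
        (isCompact_closedBall x₀ 1).prod isCompact_uIcc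
      obtain ⟨C, hC⟩ := hK.exists_bound_of_continuousOn hcF.continuousOn
      refine intervalIntegral.hasFDerivAt_integral_of_dominated_of_fderiv_le
        (F := fun y τ => R (y, τ)) (F' := F') (bound := fun _ => C)
        (Metric.closedBall_mem_nhds x₀ one_pos) ?_ ?_ ?_ ?_ ?_ ?_
      · refine Filter.Eventually.of_forall fun x => ?_
        exact (hR.continuous.comp (Continuous.prodMk_right x)).aestronglyMeasurable
      · exact (hR.continuous.comp (Continuous.prodMk_right x₀)).intervalIntegrable _ _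
      · exact (hcF.comp (Continuous.prodMk_right x₀)).aestronglyMeasurable
      · refine Filter.Eventually.of_forall fun t ht x hx => ?_
        exact hC (x, t) ⟨hx, Set.uIoc_subset_uIcc ht⟩
      · exact intervalIntegrable_const
      · refine Filter.Eventually.of_forall fun t _ x _ => hdR x t
    have : (((n + 1 : ℕ) : ℕ) : WithTop ℕ∞) = (n : WithTop ℕ∞) + 1 := by norm_num
    rw [this, contDiff_succ_iff_fderiv]
    refine ⟨fun x => (hmain x).differentiableAt, by simp, ?_⟩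
    have e : fderiv ℝ (fun y : E => ∫ τ in a..b, R (y, τ)) = fun x => ∫ τ in a..b, F' x τ := by
      funext x
      exact (hmain x).fderiv
    rw [e]
    exact ih E (E →L[ℝ] F) (fun p => F' p.1 p.2) hFs

theorem H_contDiff_top {ι : Type} [Fintype ι] (κ : ι → ℝ) :
    ContDiff ℝ ∞ (fun y : ι → ℝ => ∫ τ in (1 : ℝ)..2, ∏ p, fac (κ p) (y p) τ) := by
  rw [contDiff_infty]
  intro n
  refine contDiff_int_nat 1 2 n (ι → ℝ) ℝ
    (fun q : (ι → ℝ) × ℝ => ∏ p, fac (κ p) (q.1 p) q.2) ?_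
  refine contDiff_prod fun p _ => ?_
  have hphi : ContDiff ℝ ∞ phi := by
    have h1 : ContDiff ℝ ∞ (fun s : ℝ => 1 - 2 * s) := by fun_prop
    exact (Real.smoothTransition.contDiff (n := (⊤ : ℕ∞))).comp h1
  have hq : ContDiff ℝ ∞ (fun q : (ι → ℝ) × ℝ => q.1 p) :=
    (contDiff_apply ℝ ℝ p).comp contDiff_fst
  have h2 : ContDiff ℝ ∞ (fun q : (ι → ℝ) × ℝ => q.1 p - q.2 - κ p) :=
    (hq.sub contDiff_snd).sub contDiff_const
  have h3 : ContDiff ℝ ∞ (fun q : (ι → ℝ) × ℝ => -q.1 p - q.2 - κ p) :=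
    (hq.neg.sub contDiff_snd).sub contDiff_const
  exact (hphi.comp h2).mul (hphi.comp h3)


theorem bump_abstract_top {X : Type} [NormedAddCommGroup X] [NormedSpace ℝ X] {I : Type}
    (ℓ : I → X →L[ℝ] ℝ) (κ : I → ℝ) (hκ : ∀ p, κ p = 0 ∨ κ p = 1)
    (h1 : ∀ p x, |ℓ p x| ≤ 2 * ‖x‖)
    (h2 : ∀ x (c : ℝ), 0 ≤ c → (∀ p, κ p = 1 → |ℓ p x| ≤ c) → ‖x‖ ≤ c)
    (h3 : ∀ x, ∃ F : Finset I, ∀ p, p ∉ F → |ℓ p x| ≤ 1 / 2 ∨
      (κ p = 1 ∧ ∃ q ∈ F, κ q = 0 ∧ |ℓ p x| ≤ |ℓ q x| + 1 / 8)) :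
    ∃ b : X → ℝ, ContDiff ℝ ∞ b ∧ (∃ K, LipschitzWith K b) ∧
    (∃ x, b x ≠ 0) ∧ Bornology.IsBounded (Function.support b) := by
  have hκ0 : ∀ p, 0 ≤ κ p := fun p => by rcases hκ p with h | h <;> rw [h] <;> norm_num
  refine ⟨fun x => Fb κ (fun p => ℓ p x), ?_, ⟨2, ?_⟩, ⟨0, ?_⟩, ?_⟩
  · rw [contDiff_iff_contDiffAt]
    intro x0
    obtain ⟨F, hF⟩ := h3 x0
    have hH : ContDiff ℝ ∞ (fun y : F → ℝ => ∫ τ in (1 : ℝ)..2, ∏ p : F, fac (κ p) (y p) τ) :=
      H_contDiff_top (fun p : F => κ p)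
    have hL : ContDiff ℝ ∞ (fun x : X => fun p : F => ℓ p x) :=
      contDiff_pi.2 (fun p => (ℓ p).contDiff)
    refine (hH.comp hL).contDiffAt.congr_of_eventuallyEq ?_
    filter_upwards [Metric.ball_mem_nhds x0 (by norm_num : (0:ℝ) < 1/32)] with x hx
    show Fb κ (fun p => ℓ p x) = ∫ τ in (1:ℝ)..2, ∏ p : F, fac (κ p) (ℓ p x) τ
    unfold Fb
    apply intervalIntegral.integral_congr
    intro τ hτ
    rw [Set.uIcc_of_le (by norm_num)] at hτ
    show Pr κ (fun p => ℓ p x) τ = ∏ p : F, fac (κ p) (ℓ p x) τ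
    have hd : ∀ p, |ℓ p x - ℓ p x0| ≤ 1 / 16 := by
      intro p
      rw [← map_sub]
      refine (h1 p _).trans ?_
      rw [Metric.mem_ball, dist_eq_norm] at hx
      linarith
    rw [Pr_local κ (fun p => ℓ p x) τ F, ← Finset.prod_coe_sort]
    intro p hp
    rcases hF p hp with h | ⟨hp1, q, hq, hq0, h⟩
    · left
      apply fac_one
      have e1 := abs_le.1 (hd p)
      have e2 := abs_le.1 h
      have e3 := hκ0 p
      rw [abs_le]
      constructor <;> linarith [hτ.1]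
    · have e0 : |ℓ p x| ≤ |ℓ q x| + 1 / 4 := by
        have a1 : |ℓ p x| ≤ |ℓ p x0| + 1 / 16 := by
          have := abs_sub_abs_le_abs_sub (ℓ p x) (ℓ p x0)
          linarith [hd p]
        have a2 : |ℓ q x0| ≤ |ℓ q x| + 1 / 16 := by
          have := abs_sub_abs_le_abs_sub (ℓ q x0) (ℓ q x)
          rw [abs_sub_comm] at this
          linarith [hd q]
        linarith
      by_cases h5 : |ℓ p x| ≤ τ + κ p
      · left
        exact fac_one _ _ _ h5
      · right
        push Not at h5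
        apply Finset.prod_eq_zero hq
        apply fac_zero
        rw [hq0]
        rw [hp1] at h5
        linarith
  · refine LipschitzWith.of_dist_le_mul (fun x y => ?_)
    rw [Real.dist_eq, dist_eq_norm]
    refine Fb_lip κ _ _ _ (by positivity) (fun p => ?_)
    rw [← map_sub]
    exact h1 p _
  · have : Fb κ (fun p => ℓ p 0) = 1 := by
      unfold Fb
      have e : Set.EqOn (fun τ => Pr κ (fun p => ℓ p 0) τ) (fun _ => (1:ℝ)) (Set.uIcc 1 2) := by
        intro τ hτ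
        rw [Set.uIcc_of_le (by norm_num)] at hτ
        show Pr κ (fun p => ℓ p 0) τ = 1
        rw [Pr_local κ (fun p => ℓ p 0) τ ∅, Finset.prod_empty]
        intro p _
        left
        apply fac_one
        rw [map_zero, abs_zero]
        linarith [hκ0 p, hτ.1]
      rw [intervalIntegral.integral_congr e]
      norm_num
    show Fb κ (fun p => ℓ p 0) ≠ 0
    rw [this]
    exact one_ne_zero
  · refine Metric.isBounded_iff_subset_closedBall (0 : X) |>.2 ⟨4, fun x hx => ?_⟩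
    rw [mem_closedBall_zero_iff]
    by_contra hc
    apply hx
    have : ∃ p, κ p = 1 ∧ 4 < |ℓ p x| := by
      by_contra hn
      push Not at hn
      exact hc (h2 x 4 (by norm_num) hn)
    obtain ⟨p, hp1, hp⟩ := this
    show Fb κ (fun p => ℓ p x) = 0
    unfold Fb
    have e : Set.EqOn (fun τ => Pr κ (fun p => ℓ p x) τ) (fun _ => (0:ℝ)) (Set.uIcc 1 2) := by
      intro τ hτ
      rw [Set.uIcc_of_le (by norm_num)] at hτ
      show Pr κ (fun p => ℓ p x) τ = 0
      refine le_antisymm ?_ (Pr_nonneg _ _ _)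
      refine (Pr_le_prod κ (fun p => ℓ p x) τ {p}).trans ?_
      rw [Finset.prod_singleton, fac_zero]
      rw [hp1]
      linarith [hτ.2]
    rw [intervalIntegral.integral_congr e]
    simp


theorem exists_bump_top : ∃ b : Xs D → ℝ, ContDiff ℝ ∞ b ∧ (∃ K, LipschitzWith K b) ∧
    (∃ x, b x ≠ 0) ∧ Bornology.IsBounded (Function.support b) := by
  classical
  obtain ⟨cf, c1, c2, c3, c4⟩ := exists_coef D
  let evL : Om → L →L[ℝ] ℝ := fun w =>
    LinearMap.mkContinuous
      { toFun := fun x : L => x w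
        map_add' := fun x y => rfl
        map_smul' := fun a x => rfl } 1
      (fun x => by
        have h := abs_apply_le x w
        rw [one_mul]
        exact h)
  let ℓ : Br D ⊕ Om → Xs D →L[ℝ] ℝ :=
    Sum.elim (fun b => (2 : ℝ) • (cf b.1).comp (Xs D).subtypeL)
      (fun w => (evL w).comp (Xs D).subtypeL)
  let κ : Br D ⊕ Om → ℝ := Sum.elim (fun _ => 0) (fun _ => 1)
  have hℓl : ∀ (b : Br D) (x : Xs D), ℓ (Sum.inl b) x = 2 * cf b.1 (x : L) := fun b x => rfl
  have hℓr : ∀ (w : Om) (x : Xs D), ℓ (Sum.inr w) x = (x : L) w := fun w x => rfl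
  have hκl : ∀ b : Br D, κ (Sum.inl b) = 0 := fun b => rfl
  have hκr : ∀ w : Om, κ (Sum.inr w) = 1 := fun w => rfl
  have hnorm : ∀ x : Xs D, ‖x‖ = ‖(x : L)‖ := fun x => rfl
  refine bump_abstract_top ℓ κ ?_ ?_ ?_ ?_
  · rintro (b | w)
    · left; exact hκl b
    · right; exact hκr w
  · rintro (b | w) x
    · rw [hℓl, hnorm, abs_mul, abs_two]
      have := c1 b.1 (x : L)
      linarith
    · rw [hℓr, hnorm]
      have := abs_apply_le (x : L) w
      have h0 := norm_nonneg (x : L)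
      linarith
  · intro x c hc h
    rw [hnorm]
    refine norm_le_of (x : L) c hc (fun w => ?_)
    have := h (Sum.inr w) (hκr w)
    rwa [hℓr] at this
  · intro x
    obtain ⟨F, F', hF, hF'⟩ := star D cf c1 c2 c3 c4 (x : L) x.2
    refine ⟨F.disjSum F', ?_⟩
    rintro (b | w) hp
    · left
      rw [hℓl]
      apply hF
      intro hb
      exact hp (Finset.inl_mem_disjSum.2 hb)
    · rcases hF' w (fun hw => hp (Finset.inr_mem_disjSum.2 hw)) with h | ⟨b, hb, h⟩
      · left; rw [hℓr]; exact h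
      · right
        refine ⟨hκr w, Sum.inl b, Finset.inl_mem_disjSum.2 hb, hκl b, ?_⟩
        rw [hℓr, hℓl]; exact h


theorem final_top : ∃ (X Y : Type) (_ : NormedAddCommGroup X) (_ : NormedSpace ℝ X)
    (_ : CompleteSpace X) (_ : NormedAddCommGroup Y) (_ : NormedSpace ℝ Y) (_ : CompleteSpace Y),
    (∃ b : X → ℝ, ContDiff ℝ ∞ b ∧ (∃ L, LipschitzWith L b) ∧
      (∃ x, b x ≠ 0) ∧ Bornology.IsBounded (Function.support b)) ∧
    ∃ f : X → Y, (∃ L, LipschitzWith L f) ∧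
      (∃ ι : Y →ₗᵢ[ℝ] X, ∀ y, f (ι y) = y) ∧
      ∀ g : X → Y, ContDiff ℝ 1 g → (∃ L, LipschitzWith L g) →
        ¬ BddAbove (Set.range fun x => ‖f x - g x‖) := by
  obtain ⟨D⟩ := exists_design
  have h1 : CompleteSpace (Xs D) := by
    unfold Xs; infer_instance
  have h2 : CompleteSpace (Zs D) := by
    unfold Zs; infer_instance
  obtain ⟨f, hf, hfz⟩ := exists_retraction D
  let ιl : Zs D →ₗ[ℝ] Xs D :=
    { toFun := inc D, map_add' := fun _ _ => rfl, map_smul' := fun _ _ => rfl }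
  refine ⟨Xs D, Zs D, inferInstance, inferInstance, h1, inferInstance, inferInstance, h2,
    exists_bump_top D, f, hf, ⟨{ toLinearMap := ιl, norm_map' := fun _ => rfl }, hfz⟩, ?_⟩
  rintro g hg ⟨M, hgM⟩ ⟨C, hC⟩
  have hC' : ∀ x, ‖f x - g x‖ ≤ C := fun x => hC ⟨x, rfl⟩
  set K : ℝ := max C 1 with hK
  have hK0 : 0 < K := lt_of_lt_of_le one_pos (le_max_right _ _)
  have hCK : C ≤ K := le_max_left _ _
  obtain ⟨n, z, hz⟩ := no_retraction D M M.2
  have hA : ∀ y, K⁻¹ • f (K • ιl y) = y := by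
    intro y
    have e : K • ιl y = inc D (K • y) := by
      rw [← map_smul]; rfl
    rw [e, hfz, smul_smul, inv_mul_cancel₀ hK0.ne', one_smul]
  have hB : ContDiff ℝ 1 (fun x => K⁻¹ • g (K • x)) :=
    (hg.comp (contDiff_id.const_smul K)).const_smul K⁻¹
  have hLi : ∀ x y, ‖K⁻¹ • g (K • x) - K⁻¹ • g (K • y)‖ ≤ M * ‖x - y‖ := by
    intro x y
    rw [← smul_sub, norm_smul, Real.norm_of_nonneg (inv_nonneg.2 hK0.le)]
    have h3 := hgM.dist_le_mul (K • x) (K • y)
    rw [dist_eq_norm, dist_eq_norm, ← smul_sub, norm_smul, Real.norm_of_nonneg hK0.le] at h3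
    calc K⁻¹ * ‖g (K • x) - g (K • y)‖ ≤ K⁻¹ * (M * (K * ‖x - y‖)) :=
          mul_le_mul_of_nonneg_left h3 (inv_nonneg.2 hK0.le)
      _ = M * ‖x - y‖ := by field_simp
  have hDi : ∀ x, ‖K⁻¹ • f (K • x) - K⁻¹ • g (K • x)‖ ≤ 1 := by
    intro x
    rw [← smul_sub, norm_smul, Real.norm_of_nonneg (inv_nonneg.2 hK0.le)]
    calc K⁻¹ * ‖f (K • x) - g (K • x)‖ ≤ K⁻¹ * K :=
          mul_le_mul_of_nonneg_left ((hC' _).trans hCK) (inv_nonneg.2 hK0.le)
      _ = 1 := inv_mul_cancel₀ hK0.ne'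
  obtain ⟨T, hT1, hT2⟩ := avg_main (X := Xs D) (Y := Zs D) ιl
    (fun x => K⁻¹ • f (K • x)) (fun x => K⁻¹ • g (K • x)) hA hB M M.2 hLi hDi n z
  exact hz T hT1 hT2

end Pool.Agent.Helper983.SL
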